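import Pool.Agent.H698.HF.Stm

set_option autoImplicit false

open scoped Classical
open Finset
open Pool.Agent.H698.SF (Game nbr mem_nbr prs Bad nbad)

namespace Pool.Agent.H698.HF

theorem card_prs_swap {X : Type} [Fintype X] (G : SimpleGraph X) (q q' : X × X → Prop)
    [DecidablePred q] [DecidablePred q'] (h : ∀ z : X × X, q' (z.2, z.1) ↔ q z) :
    ((prs G).filter q).card = ((prs G).filter q').card := by
  refine card_bij' (fun z _ => (z.2, z.1)) (fun z _ => (z.2, z.1)) ?_ ?_ ?_ ?_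
  · intro z hz
    rw [mem_filter] at hz ⊢
    simp only [prs, mem_filter, mem_univ, true_and] at hz ⊢
    exact ⟨hz.1.symm, (h z).2 hz.2⟩
  · intro z hz
    rw [mem_filter] at hz ⊢
    simp only [prs, mem_filter, mem_univ, true_and] at hz ⊢
    exact ⟨hz.1.symm, (h (z.2, z.1)).1 hz.2⟩
  · intro z _; rfl
  · intro z _; rfl

theorem card_trip_pos {X : Type} [Fintype X] : (0 : ℝ) < Fintype.card (Trip X) := by
  have : 0 < Fintype.card (Trip X) :=
    Fintype.card_pos_iff.2 ⟨(Fintype.equivFin X, Fintype.equivFin X, fun _ => false)⟩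
  exact_mod_cast this

theorem ind_le' {A B C D E : Prop} [Decidable A] [Decidable B] [Decidable C] [Decidable D]
    [Decidable E] (h : A ∧ ¬ B ∧ ¬ C ∧ ¬ D → E) :
    ((if A then (1 : ℝ) else 0) - (if B then (1 : ℝ) else 0) - (if C then (1 : ℝ) else 0) -
      (if D then (1 : ℝ) else 0)) ≤ if E then 1 else 0 := by
  by_cases a1 : A <;> by_cases a2 : B <;> by_cases a3 : C <;> by_cases a4 : D <;>
    by_cases a5 : E <;> first | exact absurd (h ⟨a1, a2, a3, a4⟩) a5 |
      (simp [a1, a2, a3, a4, a5]; done) | (simp [a1, a2, a3, a4, a5]; norm_num)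

theorem alg (h1 : S_ALGDET) (h2 : S_ALGHUB) (h3 : S_ALGLOSS) : S_ALG := by
  intro X Q _ _ _ g l
  have hT := card_trip_pos (X := X)
  rw [le_div_iff₀ hT]
  have hb : (g.pairs : ℝ) - g.sat l = nbad g l := by
    have := SF.nbad_eq g l
    have h2 : (nbad g l : ℝ) + g.sat l = g.pairs := by exact_mod_cast this
    linarith
  rw [hb]
  have a2 := h2 X g.G
  have a3 := h3 X Q g l
  have a3' : ∑ s : Trip X, (((prs g.G).filter fun z => ¬ (s.2.2 z.1 = true ∧ s.2.2 z.2 = true) ∧
        badPath g l s.1 s.2.1 s.2.2 z.2).card : ℝ) ≤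
      (Fintype.card (Trip X) : ℝ) * nbad g l := by
    refine le_trans (le_of_eq ?_) a3
    refine sum_congr rfl fun s _ => ?_
    rw [card_prs_swap g.G _ (fun z => ¬ (s.2.2 z.1 = true ∧ s.2.2 z.2 = true) ∧
        badPath g l s.1 s.2.1 s.2.2 z.1)]
    intro z
    simp only
    tauto
  have a4 : ∑ _s : Trip X, (((prs g.G).filter fun z => Bad g l z.1 z.2).card : ℝ) ≤
      (Fintype.card (Trip X) : ℝ) * nbad g l := by
    rw [sum_const, card_univ, nsmul_eq_mul]
    apply mul_le_mul_of_nonneg_left _ hT.le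
    unfold nbad
    have : ((prs g.G).filter fun z => Bad g l z.1 z.2).card ≤
      (univ.filter fun z : X × X => Bad g l z.1 z.2).card :=
      card_le_card (filter_subset_filter _ (subset_univ _))
    exact_mod_cast this
  have key : ∀ s : Trip X,
      (((prs g.G).filter fun z => ¬ (s.2.2 z.1 = true ∧ s.2.2 z.2 = true) ∧
        hub g.G s.1 s.2.1 s.2.2 z.1 = hub g.G s.1 s.2.1 s.2.2 z.2).card : ℝ) -
      (((prs g.G).filter fun z => ¬ (s.2.2 z.1 = true ∧ s.2.2 z.2 = true) ∧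
        badPath g l s.1 s.2.1 s.2.2 z.1).card : ℝ) -
      (((prs g.G).filter fun z => ¬ (s.2.2 z.1 = true ∧ s.2.2 z.2 = true) ∧
        badPath g l s.1 s.2.1 s.2.2 z.2).card : ℝ) -
      (((prs g.G).filter fun z => Bad g l z.1 z.2).card : ℝ) ≤
      (g.sat (hubLabelling g s.1 s.2.1 s.2.2) : ℝ) := by
    intro s
    have e1 : ((((prs g.G).filter fun z => hub g.G s.1 s.2.1 s.2.2 z.1 =
        hub g.G s.1 s.2.1 s.2.2 z.2 ∧
      ¬ badPath g l s.1 s.2.1 s.2.2 z.1 ∧ ¬ badPath g l s.1 s.2.1 s.2.2 z.2 ∧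
      ¬ Bad g l z.1 z.2).card : ℕ) : ℝ) ≤ g.sat (hubLabelling g s.1 s.2.1 s.2.2) := by
      exact_mod_cast h1 X Q g l s.1 s.2.1 s.2.2
    refine le_trans ?_ e1
    simp only [card_filter]
    push_cast
    rw [← sum_sub_distrib, ← sum_sub_distrib, ← sum_sub_distrib]
    refine sum_le_sum fun z _ => ?_
    apply ind_le'
    rintro b1
    exact ⟨b1.1.2, fun h => b1.2.1 ⟨b1.1.1, h⟩, fun h => b1.2.2.1 ⟨b1.1.1, h⟩, b1.2.2.2⟩
  have key2 := sum_le_sum (s := (univ : Finset (Trip X))) fun s _ => key s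
  simp only [sum_sub_distrib] at key2
  linarith

end Pool.Agent.H698.HF
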