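import Pool.Agent.H698.HF.Stm

/-! # The hub labelling: the deterministic part -/

set_option autoImplicit false

open scoped Classical
open Finset
open Pool.Agent.H698.SF (Game nbr mem_nbr prs Bad nbad)

namespace Pool.Agent.H698.HF

namespace AlgdetL

section

variable {X Q : Type} [Fintype X]

theorem first_adj (G : SimpleGraph X) (σ : SF.Ord X) {u w : X} (h : G.Adj u w) :
    G.Adj u (first G σ u) := by
  have hne : (univ.filter fun w => G.Adj u w).Nonempty := ⟨w, by simp [h]⟩
  unfold first
  rw [dif_pos hne]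
  have := (exists_min_image (univ.filter fun w => G.Adj u w) σ hne).choose_spec.1
  exact (mem_filter.1 this).2

theorem lab_eq (g : Game X Q) (l : X → Q) (σ τ : SF.Ord X) (r : X → Bool) {u w : X}
    (h : g.G.Adj u w) (hb : ¬ badPath g l σ τ r u) :
    lab g σ τ r (l (hub g.G σ τ r u)) u = l u := by
  unfold badPath at hb
  unfold lab
  by_cases hr : r u = true
  · rw [if_pos hr] at hb ⊢
    push Not at hb
    obtain ⟨h1, h2⟩ := hb
    have a1 : g.G.Adj u (first g.G τ u) := first_adj g.G τ h
    have a2 : g.G.Adj (first g.G τ u) (first g.G σ (first g.G τ u)) := first_adj g.G σ a1.symm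
    have e : hub g.G σ τ r u = first g.G σ (first g.G τ u) := by
      unfold hub; rw [if_pos hr]
    rw [e] at h2 ⊢
    have e2 : g.p (first g.G σ (first g.G τ u)) (first g.G τ u) (l (first g.G σ (first g.G τ u))) =
        l (first g.G τ u) := by
      by_contra h3
      exact h2 ⟨a2.symm, h3⟩
    rw [e2]
    by_contra h3
    exact h1 ⟨a1.symm, h3⟩
  · rw [if_neg hr] at hb ⊢
    have e : hub g.G σ τ r u = first g.G σ u := by
      unfold hub; rw [if_neg hr]
    rw [e] at hb ⊢
    by_contra h3
    exact hb ⟨(first_adj g.G σ h).symm, h3⟩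

variable [Fintype Q] [Nonempty Q]

theorem inside_best (g : Game X Q) (σ τ : SF.Ord X) (r : X → Bool) (c : X) (a : Q) :
    inside g σ τ r c a ≤ inside g σ τ r c (best g σ τ r c) :=
  (exists_max_image (univ : Finset Q) (inside g σ τ r c) univ_nonempty).choose_spec.2 a (mem_univ a)

theorem sat_hub (g : Game X Q) (σ τ : SF.Ord X) (r : X → Bool) :
    ∑ c, inside g σ τ r c (best g σ τ r c) ≤ g.sat (hubLabelling g σ τ r) := by
  simp only [inside, Game.sat]
  rw [← card_biUnion]
  · apply card_le_card
    intro z hz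
    simp only [mem_biUnion, mem_filter, mem_univ, true_and] at hz ⊢
    obtain ⟨c, h1, h2, h3, h4⟩ := hz
    refine ⟨h1, ?_⟩
    simp only [hubLabelling, h2, h3]
    exact h4
  · intro c _ d _ hcd
    rw [Function.onFun, disjoint_left]
    intro z h1 h2
    simp only [mem_filter, mem_univ, true_and] at h1 h2
    exact hcd (h1.2.1.symm.trans h2.2.1)

end

end AlgdetL

open AlgdetL in
theorem algdet : S_ALGDET := by
  intro X Q _ _ _ g l σ τ r
  refine le_trans ?_ ((sum_le_sum fun c _ => inside_best g σ τ r c (l c)).trans (sat_hub g σ τ r))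
  simp only [inside]
  rw [← card_biUnion]
  · apply card_le_card
    intro z hz
    simp only [mem_biUnion, mem_filter, mem_univ, true_and, prs] at hz ⊢
    obtain ⟨h1, h2, h3, h4, h5⟩ := hz
    refine ⟨hub g.G σ τ r z.1, h1, rfl, h2.symm, ?_⟩
    rw [lab_eq g l σ τ r h1 h3]
    have h6 := lab_eq g l σ τ r h1.symm h4
    rw [← h2] at h6
    rw [h6]
    by_contra h7
    exact h5 ⟨h1, h7⟩
  · intro c _ d _ hcd
    rw [Function.onFun, disjoint_left]
    intro z h1 h2
    simp only [mem_filter, mem_univ, true_and] at h1 h2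
    exact hcd (h1.2.1.symm.trans h2.2.1)

end Pool.Agent.H698.HF
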