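import Pool.Agent.H698.HF.Stm

/-! # The number of orders with equal hubs -/

set_option autoImplicit false
set_option linter.unusedSectionVars false

open scoped Classical
open Finset
open Pool.Agent.H698.SF (Game nbr mem_nbr prs Bad nbad card_first_real card_ord sum_prs sum_prs_swap)

namespace Pool.Agent.H698.HF

namespace AlghubL

section

variable {X : Type} [Fintype X]

/-- the number of roles with given values at two vertices -/
theorem card_roles {x y : X} (h : x ≠ y) (p q : Bool) :
    ((univ.filter fun r : X → Bool => r x = p ∧ r y = q).card : ℝ) =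
      (Fintype.card (X → Bool) : ℝ) / 4 := by
  have key : ∀ p q p' q' : Bool, (univ.filter fun r : X → Bool => r x = p ∧ r y = q).card ≤
      (univ.filter fun r : X → Bool => r x = p' ∧ r y = q').card := by
    intro p q p' q'
    refine card_le_card_of_injOn (fun r => Function.update (Function.update r x p') y q') ?_ ?_
    · intro r _
      simp only [coe_filter, mem_univ, true_and, Set.mem_ofPred_eq]
      rw [Function.update_of_ne h]
      simp
    · intro r hr s hs hrs
      simp only [coe_filter, mem_univ, true_and, Set.mem_ofPred_eq] at hr hs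
      funext z
      by_cases hz : z = x
      · rw [hz, hr.1, hs.1]
      · by_cases hz' : z = y
        · rw [hz', hr.2, hs.2]
        · have := congrFun hrs z
          simpa [Function.update_of_ne hz', Function.update_of_ne hz] using this
  have heq : ∀ p' q' : Bool, (univ.filter fun r : X → Bool => r x = p' ∧ r y = q').card =
      (univ.filter fun r : X → Bool => r x = p ∧ r y = q).card := fun p' q' =>
    le_antisymm (key _ _ _ _) (key _ _ _ _)
  have h1 : ∑ p' : Bool, ∑ q' : Bool, (univ.filter fun r : X → Bool => r x = p' ∧ r y = q').card =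
      Fintype.card (X → Bool) := by
    simp_rw [card_filter]
    have : ∀ p' : Bool, ∑ q' : Bool, ∑ r : X → Bool, (if r x = p' ∧ r y = q' then 1 else 0) =
        ∑ r : X → Bool, ∑ q' : Bool, (if r x = p' ∧ r y = q' then 1 else 0) := fun p' => sum_comm
    simp_rw [this]
    rw [sum_comm]
    rw [← Finset.card_univ, card_eq_sum_ones]
    refine sum_congr rfl fun r _ => ?_
    rcases Bool.eq_false_or_eq_true (r x) with h2 | h2 <;>
      rcases Bool.eq_false_or_eq_true (r y) with h3 | h3 <;> simp [h2, h3, Finset.filter_insert, Finset.filter_singleton]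
  simp_rw [heq] at h1
  simp only [Finset.sum_const, Finset.card_univ, Fintype.card_bool, smul_eq_mul] at h1
  have h2 : (2 : ℝ) * (2 * ((univ.filter fun r : X → Bool => r x = p ∧ r y = q).card : ℝ)) =
      Fintype.card (X → Bool) := by exact_mod_cast h1
  linarith

variable (G : SimpleGraph X)

theorem first_mem (σ : SF.Ord X) {u v : X} (h : G.Adj u v) : first G σ u ∈ nbr G u := by
  have hne : (univ.filter fun w => G.Adj u w).Nonempty := ⟨v, by simp [h]⟩
  unfold first
  rw [dif_pos hne]
  exact (exists_min_image (univ.filter fun w => G.Adj u w) σ hne).choose_spec.1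

theorem first_le (σ : SF.Ord X) {u v : X} (h : G.Adj u v) : ∀ y ∈ nbr G u, σ (first G σ u) ≤ σ y := by
  have hne : (univ.filter fun w => G.Adj u w).Nonempty := ⟨v, by simp [h]⟩
  unfold first
  rw [dif_pos hne]
  exact (exists_min_image (univ.filter fun w => G.Adj u w) σ hne).choose_spec.2

theorem first_eq (σ : SF.Ord X) {u p : X} (hp : p ∈ nbr G u) (h : ∀ y ∈ nbr G u, σ p ≤ σ y) :
    first G σ u = p := by
  have ha := (mem_nbr G).1 hp
  exact σ.injective (le_antisymm (first_le G σ ha p hp) (h _ (first_mem G σ ha)))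

/-- the number of orders with the same first neighbour -/
theorem same_first (x y : X) :
    (Fintype.card X).factorial * J G x y ≤
      ((univ.filter fun σ : SF.Ord X => first G σ x = first G σ y).card : ℝ) := by
  have h1 : ((nbr G x ∩ nbr G y).biUnion fun p =>
      univ.filter fun σ : SF.Ord X => ∀ z ∈ nbr G x ∪ nbr G y, σ p ≤ σ z) ⊆
      univ.filter fun σ : SF.Ord X => first G σ x = first G σ y := by
    intro σ hσ
    simp only [mem_biUnion, mem_filter, mem_univ, true_and] at hσ ⊢
    obtain ⟨p, hp, h⟩ := hσ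
    rw [mem_inter] at hp
    rw [first_eq G σ hp.1 fun y hy => h y (mem_union_left _ hy),
      first_eq G σ hp.2 fun y hy => h y (mem_union_right _ hy)]
  have h2 := card_le_card h1
  rw [card_biUnion] at h2
  · have h3 : ((∑ p ∈ nbr G x ∩ nbr G y, (univ.filter fun σ : SF.Ord X =>
        ∀ z ∈ nbr G x ∪ nbr G y, σ p ≤ σ z).card : ℕ) : ℝ) =
        (Fintype.card X).factorial * J G x y := by
      push_cast
      rw [sum_congr rfl fun p hp => card_first_real _
        (mem_union_left (nbr G y) (mem_inter.1 hp).1), sum_const, nsmul_eq_mul, J]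
      ring
    rw [← h3]
    exact_mod_cast h2
  · intro p hp q hq hpq
    rw [Function.onFun, disjoint_left]
    intro σ h3 h4
    simp only [mem_filter, mem_univ, true_and] at h3 h4
    rw [mem_coe, mem_inter] at hp hq
    exact hpq (σ.injective (le_antisymm (h3 q (mem_union_left _ hq.1))
      (h4 p (mem_union_left _ hp.1))))

/-- the number of orders with a given first neighbour -/
theorem card_first_eq' {x w : X} (h : w ∈ nbr G x) :
    ((univ.filter fun τ : SF.Ord X => first G τ x = w).card : ℝ) =
      (Fintype.card X).factorial / (nbr G x).card := by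
  rw [← card_first_real (nbr G x) h]
  congr 2
  ext τ
  simp only [mem_filter, mem_univ, true_and]
  constructor
  · intro h2
    rw [← h2]
    exact first_le G τ ((mem_nbr G).1 h)
  · exact first_eq G τ h

theorem sum_first {x y : X} (h : G.Adj x y) (F : X → ℝ) :
    ∑ τ : SF.Ord X, F (first G τ x) =
      (Fintype.card X).factorial * ((∑ w ∈ nbr G x, F w) / dg G x) := by
  have h1 : ∀ τ : SF.Ord X, F (first G τ x) = ∑ w ∈ nbr G x, if first G τ x = w then F w else 0 := by
    intro τ
    rw [sum_ite_eq, if_pos (first_mem G τ h)]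
  simp_rw [h1]
  rw [sum_comm]
  have h2 : ∀ w ∈ nbr G x, ∑ τ : SF.Ord X, (if first G τ x = w then F w else 0) =
      (Fintype.card X).factorial / (nbr G x).card * F w := by
    intro w hw
    rw [← card_first_eq' G hw, ← sum_filter, sum_const, nsmul_eq_mul]
  rw [sum_congr rfl h2, ← mul_sum, dg]
  ring

theorem J_symm (x y : X) : J G x y = J G y x := by
  unfold J
  rw [inter_comm, union_comm]

theorem J_nonneg (x y : X) : 0 ≤ J G x y := by
  unfold J
  positivity

/-- indicator -/
noncomputable def ind (p : Prop) : ℝ := if p then 1 else 0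

theorem ind_nonneg (p : Prop) : 0 ≤ ind p := by
  unfold ind; split_ifs <;> norm_num

theorem card_filter_real {α : Type*} (s : Finset α) (p : α → Prop) [DecidablePred p] :
    ((s.filter p).card : ℝ) = ∑ z ∈ s, ind (p z) := by
  rw [card_filter]
  push_cast
  refine sum_congr rfl fun z _ => ?_
  unfold ind
  by_cases h : p z
  · rw [if_pos h, if_pos h]
  · rw [if_neg h, if_neg h]

theorem sum_roles {x y : X} (h : x ≠ y) (p q : Bool) :
    ∑ r : X → Bool, ind (r x = p ∧ r y = q) = (Fintype.card (X → Bool) : ℝ) / 4 := by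
  rw [← card_roles h p q, card_filter_real]

theorem sum_same (x y : X) :
    (Fintype.card X).factorial * J G x y ≤ ∑ σ : SF.Ord X, ind (first G σ x = first G σ y) := by
  have := same_first G x y
  rwa [card_filter_real] at this

/-- for one pair and one triple -/
theorem ind_hub (σ τ : SF.Ord X) (r : X → Bool) (x y : X) :
    ind (r x = false ∧ r y = false) * ind (first G σ x = first G σ y) +
      ind (r x = true ∧ r y = false) * ind (first G σ (first G τ x) = first G σ y) +
      ind (r y = true ∧ r x = false) * ind (first G σ (first G τ y) = first G σ x) ≤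
    ind (¬ (r x = true ∧ r y = true) ∧ hub G σ τ r x = hub G σ τ r y) := by
  unfold ind hub
  rcases Bool.eq_false_or_eq_true (r x) with h2 | h2 <;>
    rcases Bool.eq_false_or_eq_true (r y) with h3 | h3 <;> simp [h2, h3, eq_comm]

/-- for one pair -/
theorem pair_bound {x y : X} (h : G.Adj x y) :
    (Fintype.card (Trip X) : ℝ) * (J G x y / 4 + (∑ w ∈ nbr G x, J G w y) / dg G x / 4 +
      (∑ w ∈ nbr G y, J G w x) / dg G y / 4) ≤
      ∑ s : Trip X, ind (¬ (s.2.2 x = true ∧ s.2.2 y = true) ∧
        hub G s.1 s.2.1 s.2.2 x = hub G s.1 s.2.1 s.2.2 y) := by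
  have hN : (0 : ℝ) ≤ (Fintype.card X).factorial := by positivity
  have hB : (0 : ℝ) ≤ Fintype.card (X → Bool) := by positivity
  have hcard : (Fintype.card (Trip X) : ℝ) =
      (Fintype.card X).factorial * ((Fintype.card X).factorial * Fintype.card (X → Bool)) := by
    rw [Fintype.card_prod, Fintype.card_prod, card_ord]
    push_cast
    ring
  have h1 : ∑ s : Trip X, (ind (s.2.2 x = false ∧ s.2.2 y = false) * ind (first G s.1 x = first G s.1 y) +
      ind (s.2.2 x = true ∧ s.2.2 y = false) * ind (first G s.1 (first G s.2.1 x) = first G s.1 y) +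
      ind (s.2.2 y = true ∧ s.2.2 x = false) * ind (first G s.1 (first G s.2.1 y) = first G s.1 x)) ≤
      ∑ s : Trip X, ind (¬ (s.2.2 x = true ∧ s.2.2 y = true) ∧
        hub G s.1 s.2.1 s.2.2 x = hub G s.1 s.2.1 s.2.2 y) :=
    sum_le_sum fun s _ => ind_hub G s.1 s.2.1 s.2.2 x y
  refine le_trans ?_ h1
  have e : ∀ F : SF.Ord X → SF.Ord X → ℝ, ∀ R : (X → Bool) → ℝ,
      ∑ s : Trip X, R s.2.2 * F s.1 s.2.1 = (∑ r, R r) * ∑ τ : SF.Ord X, ∑ σ : SF.Ord X, F σ τ := by
    intro F R
    rw [Fintype.sum_prod_type]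
    simp_rw [Fintype.sum_prod_type]
    rw [sum_comm, mul_sum]
    refine sum_congr rfl fun τ _ => ?_
    rw [mul_sum]
    refine sum_congr rfl fun σ _ => ?_
    rw [sum_mul]
  rw [sum_add_distrib, sum_add_distrib, e (fun σ _ => ind (first G σ x = first G σ y))
    (fun r => ind (r x = false ∧ r y = false)),
    e (fun σ τ => ind (first G σ (first G τ x) = first G σ y)) (fun r => ind (r x = true ∧ r y = false)),
    e (fun σ τ => ind (first G σ (first G τ y) = first G σ x)) (fun r => ind (r y = true ∧ r x = false)),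
    sum_roles h.ne, sum_roles h.ne, sum_roles h.ne.symm]
  have a1 : (Fintype.card X).factorial * ((Fintype.card X).factorial * J G x y) ≤
      ∑ τ : SF.Ord X, ∑ σ : SF.Ord X, ind (first G σ x = first G σ y) := by
    rw [sum_const, card_univ, card_ord, nsmul_eq_mul]
    exact mul_le_mul_of_nonneg_left (sum_same G x y) hN
  have a2 : ∀ u v : X, G.Adj u v → (Fintype.card X).factorial * ((Fintype.card X).factorial *
      ((∑ w ∈ nbr G u, J G w v) / dg G u)) ≤
      ∑ τ : SF.Ord X, ∑ σ : SF.Ord X, ind (first G σ (first G τ u) = first G σ v) := by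
    intro u v huv
    have b1 : ∑ τ : SF.Ord X, (Fintype.card X).factorial * J G (first G τ u) v ≤
        ∑ τ : SF.Ord X, ∑ σ : SF.Ord X, ind (first G σ (first G τ u) = first G σ v) :=
      sum_le_sum fun τ _ => sum_same G (first G τ u) v
    refine le_trans (le_of_eq ?_) b1
    rw [← mul_sum, sum_first G huv fun w => J G w v]
  have a3 := a2 x y h
  have a4 := a2 y x h.symm
  have hB4 : (0 : ℝ) ≤ (Fintype.card (X → Bool) : ℝ) / 4 := by positivity
  have c1 := mul_le_mul_of_nonneg_left a1 hB4
  have c2 := mul_le_mul_of_nonneg_left a3 hB4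
  have c3 := mul_le_mul_of_nonneg_left a4 hB4
  rw [hcard]
  linarith

end

end AlghubL

open AlghubL in
/-- ALGHUB -/
theorem alghub : S_ALGHUB := by
  intro X _ G
  have h1 : ∑ s : Trip X, (((prs G).filter fun z => ¬ (s.2.2 z.1 = true ∧ s.2.2 z.2 = true) ∧
        hub G s.1 s.2.1 s.2.2 z.1 = hub G s.1 s.2.1 s.2.2 z.2).card : ℝ) =
      ∑ z ∈ prs G, ∑ s : Trip X, ind (¬ (s.2.2 z.1 = true ∧ s.2.2 z.2 = true) ∧
        hub G s.1 s.2.1 s.2.2 z.1 = hub G s.1 s.2.1 s.2.2 z.2) := by
    rw [sum_comm]
    refine sum_congr rfl fun s _ => ?_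
    rw [card_filter_real]
  rw [h1]
  have h2 : ∑ z ∈ prs G, (Fintype.card (Trip X) : ℝ) * (J G z.1 z.2 / 4 +
      (∑ w ∈ nbr G z.1, J G w z.2) / dg G z.1 / 4 + (∑ w ∈ nbr G z.2, J G w z.1) / dg G z.2 / 4) ≤
      ∑ z ∈ prs G, ∑ s : Trip X, ind (¬ (s.2.2 z.1 = true ∧ s.2.2 z.2 = true) ∧
        hub G s.1 s.2.1 s.2.2 z.1 = hub G s.1 s.2.1 s.2.2 z.2) := by
    refine sum_le_sum fun z hz => pair_bound G ?_
    simpa [prs] using hz
  refine le_trans (le_of_eq ?_) h2
  rw [← mul_sum, sum_add_distrib, sum_add_distrib]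
  congr 1
  have e1 : ∑ z ∈ prs G, J G z.1 z.2 / 4 = S3 G / 4 := by
    rw [sum_prs G fun x y => J G x y / 4, S3, sum_div]
    refine sum_congr rfl fun x _ => ?_
    rw [sum_div]
  have e2 : ∑ z ∈ prs G, (∑ w ∈ nbr G z.1, J G w z.2) / dg G z.1 / 4 = S4 G / 4 := by
    rw [sum_prs G fun x y => (∑ w ∈ nbr G x, J G w y) / dg G x / 4, S4, sum_div]
    refine sum_congr rfl fun x _ => ?_
    rw [← sum_div, ← sum_div]
    congr 2
    rw [sum_comm]
  have e3 : ∑ z ∈ prs G, (∑ w ∈ nbr G z.2, J G w z.1) / dg G z.2 / 4 =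
      ∑ z ∈ prs G, (∑ w ∈ nbr G z.1, J G w z.2) / dg G z.1 / 4 :=
    sum_prs_swap G fun x y => (∑ w ∈ nbr G x, J G w y) / dg G x / 4
  rw [e3, e1, e2]
  ring

end Pool.Agent.H698.HF
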