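import Pool.Agent.H698.HF.Stm

set_option autoImplicit false
set_option linter.unusedSectionVars false

open scoped Classical
open Finset
open Pool.Agent.H698.SF (Game nbr mem_nbr prs Bad nbad card_ord card_first_real sum_prs sum_prs_swap)

namespace Pool.Agent.H698.HF

namespace AlglossL

variable {X : Type} [Fintype X]

theorem first_spec (G : SimpleGraph X) (σ : SF.Ord X) (u : X) (h : (nbr G u).Nonempty) :
    first G σ u ∈ nbr G u ∧ ∀ y ∈ nbr G u, σ (first G σ u) ≤ σ y := by
  have h' : (univ.filter fun w => G.Adj u w).Nonempty := h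
  unfold first
  rw [dif_pos h']
  exact (exists_min_image (univ.filter fun w => G.Adj u w) σ h').choose_spec

theorem first_iff (G : SimpleGraph X) (σ : SF.Ord X) {u w : X} (hw : w ∈ nbr G u) :
    first G σ u = w ↔ ∀ y ∈ nbr G u, σ w ≤ σ y := by
  have h := first_spec G σ u ⟨w, hw⟩
  constructor
  · intro h1
    rw [← h1]; exact h.2
  · intro h1
    exact σ.injective (le_antisymm (h.2 w hw) (h1 _ h.1))

theorem count_first (G : SimpleGraph X) {u w : X} (hw : w ∈ nbr G u) :
    ∑ σ : SF.Ord X, (if first G σ u = w then (1 : ℝ) else 0) =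
      (Fintype.card X).factorial / dg G u := by
  have h1 := card_first_real (nbr G u) hw
  rw [dg, ← h1, Finset.sum_boole]
  congr 2
  ext σ
  simp only [mem_filter, mem_univ, true_and]
  exact first_iff G σ hw

variable {Q : Type} (g : Game X Q) (l : X → Q)

/-- the number of violated constraints at `x` -/
noncomputable def bd (x : X) : ℝ := ((univ.filter fun c => Bad g l c x).card : ℝ)

theorem bd_nonneg (x : X) : 0 ≤ bd g l x := Nat.cast_nonneg _

theorem badset_sub (x : X) : (univ.filter fun c => Bad g l c x) ⊆ nbr g.G x := by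
  intro c hc
  rw [mem_nbr]
  exact (mem_filter.1 hc).2.1.symm

theorem dg_mul_bd (x : X) : dg g.G x * (bd g l x / dg g.G x) = bd g l x := by
  by_cases h : dg g.G x = 0
  · have h1 : bd g l x ≤ dg g.G x := by
      rw [bd, dg]
      exact_mod_cast card_le_card (badset_sub g l x)
    have h2 : bd g l x = 0 := le_antisymm (by linarith) (bd_nonneg g l x)
    rw [h2, h]; simp
  · field_simp

theorem dg_mul_div (G : SimpleGraph X) (f : X → ℝ) (x : X) :
    dg G x * ((∑ w ∈ nbr G x, f w) / dg G x) = ∑ w ∈ nbr G x, f w := by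
  by_cases h : dg G x = 0
  · have h1 : nbr G x = ∅ := by
      rw [dg] at h
      exact card_eq_zero.1 (by exact_mod_cast h)
    rw [h, h1]; simp
  · field_simp

theorem count_bad (x : X) :
    ∑ σ : SF.Ord X, (if Bad g l (first g.G σ x) x then (1 : ℝ) else 0) =
      (Fintype.card X).factorial * (bd g l x / dg g.G x) := by
  have h1 : ∀ σ : SF.Ord X, (if Bad g l (first g.G σ x) x then (1 : ℝ) else 0) =
      ∑ c ∈ univ.filter (fun c => Bad g l c x), (if first g.G σ x = c then (1 : ℝ) else 0) := by
    intro σ
    rw [Finset.sum_ite_eq]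
    simp only [mem_filter, mem_univ, true_and]
  rw [sum_congr rfl fun σ _ => h1 σ, sum_comm,
    sum_congr rfl fun c hc => count_first g.G (badset_sub g l x hc), sum_const, nsmul_eq_mul, bd]
  ring

theorem count_bad2 (x : X) (hx : (nbr g.G x).Nonempty) :
    ∑ σ : SF.Ord X, ∑ τ : SF.Ord X,
      (if Bad g l (first g.G σ (first g.G τ x)) (first g.G τ x) then (1 : ℝ) else 0) =
      (Fintype.card X).factorial * ((Fintype.card X).factorial *
        ((∑ w ∈ nbr g.G x, bd g l w / dg g.G w) / dg g.G x)) := by
  rw [sum_comm]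
  have h1 : ∀ τ : SF.Ord X, ∑ σ : SF.Ord X,
      (if Bad g l (first g.G σ (first g.G τ x)) (first g.G τ x) then (1 : ℝ) else 0) =
      ∑ w ∈ nbr g.G x, (if first g.G τ x = w then (1 : ℝ) else 0) *
        ((Fintype.card X).factorial * (bd g l w / dg g.G w)) := by
    intro τ
    rw [count_bad]
    have h2 : ∀ w ∈ nbr g.G x, (if first g.G τ x = w then (1 : ℝ) else 0) *
        ((Fintype.card X).factorial * (bd g l w / dg g.G w)) =
        if first g.G τ x = w then
          ((Fintype.card X).factorial * (bd g l w / dg g.G w)) else 0 := by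
      intro w _
      split_ifs <;> simp
    rw [sum_congr rfl h2, Finset.sum_ite_eq, if_pos (first_spec g.G τ x hx).1]
  rw [sum_congr rfl fun τ _ => h1 τ, sum_comm]
  have h3 : ∀ w ∈ nbr g.G x, ∑ τ : SF.Ord X, (if first g.G τ x = w then (1 : ℝ) else 0) *
        ((Fintype.card X).factorial * (bd g l w / dg g.G w)) =
      ((Fintype.card X).factorial / dg g.G x) *
        ((Fintype.card X).factorial * (bd g l w / dg g.G w)) := by
    intro w hw
    rw [← sum_mul, count_first g.G hw]
  rw [sum_congr rfl h3, ← mul_sum, ← mul_sum]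
  ring

theorem roles1 (x : X) : 2 * ∑ r : X → Bool, (if r x = false then (1 : ℝ) else 0) =
    (Fintype.card (X → Bool) : ℝ) := by
  have h1 : (univ.filter fun r : X → Bool => r x = false) =
      Fintype.piFinset (fun i => if i = x then {false} else univ) := by
    ext r
    simp only [mem_filter, mem_univ, true_and, Fintype.mem_piFinset]
    constructor
    · intro h i
      by_cases hi : i = x
      · rw [if_pos hi, mem_singleton, hi]; exact h
      · rw [if_neg hi]; exact mem_univ _
    · intro h
      have := h x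
      rwa [if_pos rfl, mem_singleton] at this
  rw [Finset.sum_boole, h1, Fintype.card_piFinset, Fintype.card_fun, Fintype.card_bool]
  have h2 : 2 * ∏ i : X, ((if i = x then {false} else univ : Finset Bool)).card =
      2 ^ Fintype.card X := by
    have h3 : (2 : ℕ) = ∏ i : X, (if i = x then 2 else 1) := by
      rw [Finset.prod_ite_eq' univ x (fun _ => 2)]
      simp
    calc 2 * ∏ i : X, ((if i = x then {false} else univ : Finset Bool)).card
        = (∏ i : X, (if i = x then 2 else 1)) *
          ∏ i : X, ((if i = x then {false} else univ : Finset Bool)).card := by rw [← h3]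
      _ = ∏ _i : X, 2 := by
          rw [← Finset.prod_mul_distrib]
          apply Finset.prod_congr rfl
          intro i _
          by_cases hi : i = x
          · simp [hi]
          · simp [hi]
      _ = 2 ^ Fintype.card X := by rw [Finset.prod_const, Finset.card_univ]
  exact_mod_cast h2

theorem roles2 (x y : X) (hxy : x ≠ y) :
    4 * ∑ r : X → Bool, (if r x = true ∧ r y = false then (1 : ℝ) else 0) =
    (Fintype.card (X → Bool) : ℝ) := by
  have h1 : (univ.filter fun r : X → Bool => r x = true ∧ r y = false) =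
      Fintype.piFinset (fun i => if i = x then {true} else if i = y then {false} else univ) := by
    ext r
    simp only [mem_filter, mem_univ, true_and, Fintype.mem_piFinset]
    constructor
    · rintro ⟨h, h'⟩ i
      by_cases hi : i = x
      · rw [if_pos hi, mem_singleton, hi]; exact h
      · rw [if_neg hi]
        by_cases hi' : i = y
        · rw [if_pos hi', mem_singleton, hi']; exact h'
        · rw [if_neg hi']; exact mem_univ _
    · intro h
      have h2 := h x
      have h3 := h y
      rw [if_pos rfl, mem_singleton] at h2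
      rw [if_neg hxy.symm, if_pos rfl, mem_singleton] at h3
      exact ⟨h2, h3⟩
  rw [Finset.sum_boole, h1, Fintype.card_piFinset, Fintype.card_fun, Fintype.card_bool]
  have h2 : 4 * ∏ i : X, ((if i = x then {true} else if i = y then {false} else univ :
      Finset Bool)).card = 2 ^ Fintype.card X := by
    have h3 : ∀ z : X, (2 : ℕ) = ∏ i : X, (if i = z then 2 else 1) := by
      intro z
      rw [Finset.prod_ite_eq' univ z (fun _ => 2)]
      simp
    calc 4 * ∏ i : X, ((if i = x then {true} else if i = y then {false} else univ :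
          Finset Bool)).card
        = ((∏ i : X, (if i = x then 2 else 1)) * ∏ i : X, (if i = y then 2 else 1)) *
          ∏ i : X, ((if i = x then {true} else if i = y then {false} else univ :
          Finset Bool)).card := by rw [← h3 x, ← h3 y]
      _ = ∏ _i : X, 2 := by
          rw [← Finset.prod_mul_distrib, ← Finset.prod_mul_distrib]
          apply Finset.prod_congr rfl
          intro i _
          by_cases hi : i = x
          · have : i ≠ y := fun h => hxy (hi.symm.trans h)
            simp [hi, hxy]
          · by_cases hi' : i = y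
            · simp [hi', hxy.symm]
            · simp [hi, hi']
      _ = 2 ^ Fintype.card X := by rw [Finset.prod_const, Finset.card_univ]
  exact_mod_cast h2

theorem card_trip : (Fintype.card (Trip X) : ℝ) = ((Fintype.card X).factorial : ℝ) *
    ((Fintype.card X).factorial * (Fintype.card (X → Bool) : ℝ)) := by
  rw [Fintype.card_prod, Fintype.card_prod, card_ord]
  push_cast
  ring

/-- the count for one pair -/
theorem one_pair (z : X × X) (hz : g.G.Adj z.1 z.2) :
    ∑ s : Trip X, (if ¬ (s.2.2 z.1 = true ∧ s.2.2 z.2 = true) ∧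
        badPath g l s.1 s.2.1 s.2.2 z.1 then (1 : ℝ) else 0) ≤
      (Fintype.card (Trip X) : ℝ) * (3 / 4 * (bd g l z.1 / dg g.G z.1) +
        1 / 4 * ((∑ w ∈ nbr g.G z.1, bd g l w / dg g.G w) / dg g.G z.1)) := by
  obtain ⟨x, y⟩ := z
  simp only at hz ⊢
  have hx : (nbr g.G x).Nonempty := ⟨y, (mem_nbr g.G).2 hz⟩
  set a : SF.Ord X → ℝ := fun σ => if Bad g l (first g.G σ x) x then 1 else 0 with ha
  set b : SF.Ord X → SF.Ord X → ℝ := fun σ τ =>
    if Bad g l (first g.G σ (first g.G τ x)) (first g.G τ x) then 1 else 0 with hb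
  set u : (X → Bool) → ℝ := fun r => if r x = false then 1 else 0 with hu
  set v : (X → Bool) → ℝ := fun r => if r x = true ∧ r y = false then 1 else 0 with hv
  have ha0 : ∀ σ, 0 ≤ a σ := by intro σ; simp only [ha]; split_ifs <;> norm_num
  have hb0 : ∀ σ τ, 0 ≤ b σ τ := by intro σ τ; simp only [hb]; split_ifs <;> norm_num
  have h1 : ∀ s : Trip X, (if ¬ (s.2.2 x = true ∧ s.2.2 y = true) ∧
        badPath g l s.1 s.2.1 s.2.2 x then (1 : ℝ) else 0) ≤
      a s.1 * u s.2.2 + (a s.2.1 * v s.2.2 + b s.1 s.2.1 * v s.2.2) := by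
    rintro ⟨σ, τ, r⟩
    simp only
    split_ifs with h
    · obtain ⟨hr, hp⟩ := h
      cases hrx : r x with
      | false =>
        have e1 : a σ = 1 := by
          simp only [badPath, hub, hrx, Bool.false_eq_true, if_false] at hp
          simp only [ha]
          rw [if_pos hp]
        have e2 : u r = 1 := by simp only [hu]; rw [if_pos hrx]
        have e3 : v r = 0 := by
          simp only [hv]; rw [if_neg (by rw [hrx]; simp)]
        rw [e1, e2, e3]; norm_num
      | true =>
        have hry : r y = false := by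
          cases hry : r y with
          | false => rfl
          | true => exact absurd ⟨hrx, hry⟩ hr
        have e2 : u r = 0 := by simp only [hu]; rw [if_neg (by rw [hrx]; simp)]
        have e3 : v r = 1 := by simp only [hv]; rw [if_pos ⟨hrx, hry⟩]
        simp only [badPath, hub, hrx, if_true] at hp
        rw [e2, e3]
        rcases hp with hp | hp
        · have e1 : a τ = 1 := by simp only [ha]; rw [if_pos hp]
          rw [e1]
          have := hb0 σ τ
          linarith
        · have e1 : b σ τ = 1 := by simp only [hb]; rw [if_pos hp]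
          rw [e1]
          have := ha0 τ
          linarith
    · have h2 : 0 ≤ u r := by simp only [hu]; split_ifs <;> norm_num
      have h3 : 0 ≤ v r := by simp only [hv]; split_ifs <;> norm_num
      have := ha0 σ
      have := ha0 τ
      have := hb0 σ τ
      positivity
  refine (sum_le_sum fun s _ => h1 s).trans (le_of_eq ?_)
  have hA := count_bad g l x
  have hB := count_bad2 g l x hx
  have hU := roles1 x
  have hV := roles2 x y hz.ne
  change ∑ σ, a σ = _ at hA
  change ∑ σ, ∑ τ, b σ τ = _ at hB
  change 2 * ∑ r, u r = _ at hU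
  change 4 * ∑ r, v r = _ at hV
  have hF : ∑ _σ : SF.Ord X, (1 : ℝ) = (Fintype.card X).factorial := by
    rw [sum_const, card_univ, card_ord, nsmul_eq_mul, mul_one]
  have s1 : ∑ s : Trip X, a s.1 * u s.2.2 = (∑ σ, a σ) * ((∑ _σ : SF.Ord X, (1 : ℝ)) * ∑ r, u r) := by
    rw [Fintype.sum_prod_type, Finset.sum_mul]
    apply sum_congr rfl
    intro σ _
    rw [Fintype.sum_prod_type, Finset.sum_mul, Finset.mul_sum]
    apply sum_congr rfl
    intro τ _
    rw [one_mul, Finset.mul_sum]
  have s2 : ∑ s : Trip X, a s.2.1 * v s.2.2 = (∑ _σ : SF.Ord X, (1 : ℝ)) * ((∑ σ, a σ) * ∑ r, v r) := by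
    rw [Fintype.sum_prod_type, Finset.sum_mul]
    apply sum_congr rfl
    intro σ _
    rw [Fintype.sum_prod_type, one_mul, Finset.sum_mul]
    apply sum_congr rfl
    intro τ _
    rw [Finset.mul_sum]
  have s3 : ∑ s : Trip X, b s.1 s.2.1 * v s.2.2 = (∑ σ, ∑ τ, b σ τ) * ∑ r, v r := by
    rw [Fintype.sum_prod_type, Finset.sum_mul]
    apply sum_congr rfl
    intro σ _
    rw [Fintype.sum_prod_type, Finset.sum_mul]
    apply sum_congr rfl
    intro τ _
    rw [Finset.mul_sum]
  rw [sum_add_distrib, sum_add_distrib, s1, s2, s3, hF, hA, hB, card_trip]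
  have hU' : ∑ r, u r = (Fintype.card (X → Bool) : ℝ) / 2 := by linarith
  have hV' : ∑ r, v r = (Fintype.card (X → Bool) : ℝ) / 4 := by linarith
  rw [hU', hV']
  ring

theorem sum_bd : ∑ x, bd g l x = (nbad g l : ℝ) := by
  have h1 : nbad g l = ∑ x : X, (univ.filter fun c => Bad g l c x).card := by
    unfold nbad
    rw [card_filter, ← univ_product_univ, sum_product_right]
    apply sum_congr rfl
    intro x _
    rw [card_filter]
  rw [h1]
  push_cast
  rfl

end AlglossL

open AlglossL in
theorem algloss : S_ALGLOSS := by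
  intro X Q _ g l
  have h1 : ∀ s : Trip X, (((prs g.G).filter fun z => ¬ (s.2.2 z.1 = true ∧ s.2.2 z.2 = true) ∧
        badPath g l s.1 s.2.1 s.2.2 z.1).card : ℝ) =
      ∑ z ∈ prs g.G, (if ¬ (s.2.2 z.1 = true ∧ s.2.2 z.2 = true) ∧
        badPath g l s.1 s.2.1 s.2.2 z.1 then (1 : ℝ) else 0) := by
    intro s
    rw [Finset.sum_boole]
  rw [sum_congr rfl fun s _ => h1 s, sum_comm]
  set T : ℝ := (Fintype.card (Trip X) : ℝ) with hT
  set f : X → ℝ := fun x => T * (3 / 4 * (bd g l x / dg g.G x) +
        1 / 4 * ((∑ w ∈ nbr g.G x, bd g l w / dg g.G w) / dg g.G x)) with hf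
  calc ∑ z ∈ prs g.G, ∑ s : Trip X, (if ¬ (s.2.2 z.1 = true ∧ s.2.2 z.2 = true) ∧
        badPath g l s.1 s.2.1 s.2.2 z.1 then (1 : ℝ) else 0)
      ≤ ∑ z ∈ prs g.G, f z.1 := by
        apply sum_le_sum
        intro z hz
        exact one_pair g l z (by simpa [prs] using hz)
    _ = ∑ x, ∑ _y ∈ nbr g.G x, f x := sum_prs g.G (fun x _ => f x)
    _ = ∑ x, T * (3 / 4 * bd g l x + 1 / 4 * ∑ w ∈ nbr g.G x, bd g l w / dg g.G w) := by
        apply sum_congr rfl
        intro x _
        rw [sum_const, nsmul_eq_mul]
        have e1 := dg_mul_bd g l x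
        have e2 := dg_mul_div g.G (fun w => bd g l w / dg g.G w) x
        have e3 : ((nbr g.G x).card : ℝ) = dg g.G x := rfl
        rw [e3]
        simp only [hf]
        calc dg g.G x * (T * (3 / 4 * (bd g l x / dg g.G x) +
              1 / 4 * ((∑ w ∈ nbr g.G x, bd g l w / dg g.G w) / dg g.G x)))
            = T * (3 / 4 * (dg g.G x * (bd g l x / dg g.G x)) +
              1 / 4 * (dg g.G x * ((∑ w ∈ nbr g.G x, bd g l w / dg g.G w) / dg g.G x))) := by
              ring
          _ = _ := by rw [e1, e2]
    _ = T * (3 / 4 * ∑ x, bd g l x + 1 / 4 * ∑ x, ∑ w ∈ nbr g.G x, bd g l w / dg g.G w) := by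
        rw [← mul_sum, sum_add_distrib, ← mul_sum, ← mul_sum]
    _ = T * (3 / 4 * ∑ x, bd g l x + 1 / 4 * ∑ x, bd g l x) := by
        congr 2
        congr 1
        rw [← sum_prs g.G (fun _ w => bd g l w / dg g.G w),
          sum_prs_swap g.G (fun w _ => bd g l w / dg g.G w),
          sum_prs g.G (fun w _ => bd g l w / dg g.G w)]
        apply sum_congr rfl
        intro x _
        rw [sum_const, nsmul_eq_mul]
        exact dg_mul_bd g l x
    _ = T * (nbad g l : ℝ) := by rw [sum_bd]; ring

end Pool.Agent.H698.HF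

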