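import Pool.Agent.H698.HF.Stm

/-! # Large degrees: double Cauchy-Schwarz -/

set_option autoImplicit false

open scoped Classical
open Finset
open Pool.Agent.H698.SF (Game nbr mem_nbr prs Bad nbad)

namespace Pool.Agent.H698.HF

namespace BetaL

/-- the square of a sum as a sum over pairs -/
theorem sq_pairs {X : Type} (B : Finset X) (f : X → ℝ) :
    (∑ x ∈ B, f x) ^ 2 = ∑ q ∈ B ×ˢ B, f q.1 * f q.2 := by
  rw [sq, sum_mul_sum, sum_product]

/-- the exchange of the two sides -/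
theorem swap4 {X : Type} (B L : Finset X) (A : X → X → ℝ) :
    ∑ p ∈ L ×ˢ L, (∑ x ∈ B, A x p.1 * A x p.2) ^ 2 =
      ∑ q ∈ B ×ˢ B, (∑ b ∈ L, A q.1 b * A q.2 b) ^ 2 := by
  simp_rw [sq_pairs]
  rw [sum_comm]
  refine sum_congr rfl fun q _ => sum_congr rfl fun p _ => ?_
  ring

/-- Cauchy and Schwarz twice -/
theorem cs {X : Type} (B L : Finset X) (A : X → X → ℝ) :
    (∑ b ∈ L, ∑ x ∈ B, A x b) ^ 4 ≤
      (L.card : ℝ) ^ 2 * (B.card : ℝ) ^ 2 * ∑ p ∈ L ×ˢ L, (∑ x ∈ B, A x p.1 * A x p.2) ^ 2 := by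
  rw [swap4]
  have h1 : (∑ b ∈ L, ∑ x ∈ B, A x b) ^ 2 ≤ (L.card : ℝ) * ∑ b ∈ L, (∑ x ∈ B, A x b) ^ 2 :=
    sq_sum_le_card_mul_sum_sq
  have h2 : ∑ b ∈ L, (∑ x ∈ B, A x b) ^ 2 = ∑ q ∈ B ×ˢ B, ∑ b ∈ L, A q.1 b * A q.2 b := by
    simp_rw [sq_pairs]
    rw [sum_comm]
  have h3 : (∑ q ∈ B ×ˢ B, ∑ b ∈ L, A q.1 b * A q.2 b) ^ 2 ≤
      ((B ×ˢ B).card : ℝ) * ∑ q ∈ B ×ˢ B, (∑ b ∈ L, A q.1 b * A q.2 b) ^ 2 :=
    sq_sum_le_card_mul_sum_sq
  rw [card_product] at h3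
  push_cast at h3
  rw [h2] at h1
  calc (∑ b ∈ L, ∑ x ∈ B, A x b) ^ 4 = ((∑ b ∈ L, ∑ x ∈ B, A x b) ^ 2) ^ 2 := by ring
    _ ≤ ((L.card : ℝ) * ∑ q ∈ B ×ˢ B, ∑ b ∈ L, A q.1 b * A q.2 b) ^ 2 :=
        pow_le_pow_left₀ (sq_nonneg _) h1 2
    _ = (L.card : ℝ) ^ 2 * (∑ q ∈ B ×ˢ B, ∑ b ∈ L, A q.1 b * A q.2 b) ^ 2 := by ring
    _ ≤ (L.card : ℝ) ^ 2 * (((B.card : ℝ) * B.card) *
        ∑ q ∈ B ×ˢ B, (∑ b ∈ L, A q.1 b * A q.2 b) ^ 2) :=
        mul_le_mul_of_nonneg_left h3 (by positivity)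
    _ = _ := by ring

section

variable {X : Type} [Fintype X] (G : SimpleGraph X)

/-- adjacency -/
noncomputable def A (x y : X) : ℝ := if G.Adj x y then 1 else 0

theorem A_nonneg (x y : X) : 0 ≤ A G x y := by
  unfold A
  split_ifs <;> norm_num

theorem A_comm (x y : X) : A G x y = A G y x := by
  unfold A
  simp only [G.adj_comm x y]

theorem card_inter (x : X) (L : Finset X) : ((nbr G x ∩ L).card : ℝ) = ∑ b ∈ L, A G x b := by
  unfold A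
  rw [sum_ite, sum_const_zero, add_zero, sum_const, nsmul_eq_mul, mul_one]
  congr 2
  ext b
  rw [mem_inter, mem_filter, mem_nbr]
  tauto

theorem sum_nbr (x : X) (L : Finset X) (f : X → ℝ) :
    ∑ b ∈ nbr G x ∩ L, f b = ∑ b ∈ L, A G x b * f b := by
  have h1 : nbr G x ∩ L = L.filter fun b => G.Adj x b := by
    ext b
    rw [mem_inter, mem_filter, mem_nbr]
    tauto
  rw [h1, sum_filter]
  refine sum_congr rfl fun b _ => ?_
  unfold A
  split_ifs <;> simp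

theorem card_inter3 (y z : X) (B : Finset X) :
    ∑ x ∈ B, A G x y * A G x z ≤ ((nbr G y ∩ nbr G z).card : ℝ) := by
  have h1 : ∑ x ∈ B, A G x y * A G x z = ((B.filter fun x => G.Adj x y ∧ G.Adj x z).card : ℝ) := by
    rw [card_filter]
    push_cast
    refine sum_congr rfl fun x _ => ?_
    unfold A
    by_cases h1 : G.Adj x y <;> by_cases h2 : G.Adj x z <;> simp [h1, h2]
  rw [h1]
  have h2 : (B.filter fun x => G.Adj x y ∧ G.Adj x z) ⊆ nbr G y ∩ nbr G z := by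
    intro x hx
    rw [mem_filter] at hx
    rw [mem_inter, mem_nbr, mem_nbr]
    exact ⟨hx.2.1.symm, hx.2.2.symm⟩
  exact_mod_cast card_le_card h2

theorem J_nonneg (x y : X) : 0 ≤ J G x y := by
  unfold J
  positivity

theorem J_low (y z : X) (B : Finset X) (D : ℝ) (hD : 0 < D) (hy : dg G y ≤ D) (hz : dg G z ≤ D) :
    (∑ x ∈ B, A G x y * A G x z) / (2 * D) ≤ J G y z := by
  have h1 := card_inter3 G y z B
  have h0 : 0 ≤ ∑ x ∈ B, A G x y * A G x z :=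
    sum_nonneg fun x _ => mul_nonneg (A_nonneg G x y) (A_nonneg G x z)
  have h2 : ((nbr G y ∪ nbr G z).card : ℝ) ≤ 2 * D := by
    have h3 : (((nbr G y ∪ nbr G z).card : ℕ) : ℝ) ≤ ((nbr G y).card + (nbr G z).card : ℕ) := by
      exact_mod_cast card_union_le _ _
    push_cast at h3
    unfold dg at hy hz
    linarith
  unfold J
  rcases Nat.eq_zero_or_pos (nbr G y ∪ nbr G z).card with h3 | h3
  · have h4 : (nbr G y ∩ nbr G z).card = 0 := by
      have : (nbr G y ∩ nbr G z).card ≤ (nbr G y ∪ nbr G z).card :=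
        card_le_card (inter_subset_union)
      omega
    rw [h4] at h1 ⊢
    rw [h3]
    have h5 : ∑ x ∈ B, A G x y * A G x z = 0 := le_antisymm (by exact_mod_cast h1) h0
    rw [h5]
    simp
  · have h4 : (0 : ℝ) < ((nbr G y ∪ nbr G z).card : ℝ) := by exact_mod_cast h3
    exact div_le_div₀ (Nat.cast_nonneg _) h1 h4 h2

theorem dg_nonneg (x : X) : 0 ≤ dg G x := by unfold dg; positivity

theorem dg_le (x : X) : dg G x ≤ Fintype.card X := by
  unfold dg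
  exact_mod_cast card_le_univ _

theorem dg_eq (x : X) (L : Finset X) :
    dg G x = ((nbr G x ∩ L).card : ℝ) + ((nbr G x ∩ Lᶜ).card : ℝ) := by
  unfold dg
  have : (nbr G x ∩ L).card + (nbr G x ∩ Lᶜ).card = (nbr G x).card := by
    have h := card_inter_add_card_sdiff (nbr G x) L
    rw [sdiff_eq_inter_compl] at h
    exact h
  exact_mod_cast this.symm

theorem S4_nonneg : 0 ≤ S4 G := by
  unfold S4
  refine sum_nonneg fun x _ => div_nonneg ?_ (dg_nonneg G x)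
  exact sum_nonneg fun y _ => sum_nonneg fun z _ => J_nonneg G y z

theorem S4_ge (B L : Finset X) (D n : ℝ) (hD : 0 < D) (hn : (Fintype.card X : ℝ) = n)
    (hn0 : 0 < n) (hB : ∀ x ∈ B, 0 < dg G x) (hL : ∀ b ∈ L, dg G b ≤ D) :
    (∑ p ∈ L ×ˢ L, (∑ x ∈ B, A G x p.1 * A G x p.2) ^ 2) / (2 * D * n) ≤ S4 G := by
  have h1 : ∀ x ∈ B, (∑ p ∈ L ×ˢ L, A G x p.1 * A G x p.2 *
      (∑ x ∈ B, A G x p.1 * A G x p.2)) / (2 * D * n) ≤
        (∑ y ∈ nbr G x, ∑ z ∈ nbr G x, J G y z) / dg G x := by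
    intro x hx
    have h2 : ∑ y ∈ nbr G x ∩ L, ∑ z ∈ nbr G x ∩ L, J G y z ≤
        ∑ y ∈ nbr G x, ∑ z ∈ nbr G x, J G y z := by
      refine le_trans (sum_le_sum fun y _ => ?_) (sum_le_sum_of_subset_of_nonneg
        inter_subset_left fun y _ _ => sum_nonneg fun z _ => J_nonneg G y z)
      exact sum_le_sum_of_subset_of_nonneg inter_subset_left fun z _ _ => J_nonneg G y z
    have h3 : ∑ y ∈ nbr G x ∩ L, ∑ z ∈ nbr G x ∩ L, J G y z =
        ∑ p ∈ L ×ˢ L, A G x p.1 * A G x p.2 * J G p.1 p.2 := by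
      rw [sum_nbr, sum_product]
      refine sum_congr rfl fun y _ => ?_
      rw [sum_nbr, mul_sum]
      refine sum_congr rfl fun z _ => ?_
      ring
    have h4 : (∑ p ∈ L ×ˢ L, A G x p.1 * A G x p.2 *
        (∑ x ∈ B, A G x p.1 * A G x p.2)) / (2 * D) ≤
          ∑ p ∈ L ×ˢ L, A G x p.1 * A G x p.2 * J G p.1 p.2 := by
      rw [sum_div]
      refine sum_le_sum fun p hp => ?_
      rw [mem_product] at hp
      rw [mul_div_assoc]
      refine mul_le_mul_of_nonneg_left ?_ (mul_nonneg (A_nonneg G x p.1) (A_nonneg G x p.2))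
      exact J_low G p.1 p.2 B D hD (hL _ hp.1) (hL _ hp.2)
    rw [← h3] at h4
    have h5 := h4.trans h2
    have h6 : 0 ≤ ∑ y ∈ nbr G x, ∑ z ∈ nbr G x, J G y z :=
      sum_nonneg fun y _ => sum_nonneg fun z _ => J_nonneg G y z
    calc _ = ((∑ p ∈ L ×ˢ L, A G x p.1 * A G x p.2 *
        (∑ x ∈ B, A G x p.1 * A G x p.2)) / (2 * D)) / n := by rw [div_div]
      _ ≤ (∑ y ∈ nbr G x, ∑ z ∈ nbr G x, J G y z) / n := by gcongr
      _ ≤ _ := by
          refine div_le_div_of_nonneg_left h6 (hB x hx) ?_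
          rw [← hn]
          exact dg_le G x
  have h7 : (∑ p ∈ L ×ˢ L, (∑ x ∈ B, A G x p.1 * A G x p.2) ^ 2) / (2 * D * n) =
      ∑ x ∈ B, (∑ p ∈ L ×ˢ L, A G x p.1 * A G x p.2 *
      (∑ x ∈ B, A G x p.1 * A G x p.2)) / (2 * D * n) := by
    rw [← sum_div, sum_comm]
    congr 1
    refine sum_congr rfl fun p _ => ?_
    rw [← sum_mul, sq]
  rw [h7]
  refine (sum_le_sum h1).trans ?_
  unfold S4
  refine sum_le_sum_of_subset_of_nonneg (subset_univ _) fun x _ _ => div_nonneg ?_ (dg_nonneg G x)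
  exact sum_nonneg fun y _ => sum_nonneg fun z _ => J_nonneg G y z

end

end BetaL

open BetaL in
theorem beta : S_BETA := by
  intro X _ G κ3 κ4 h30 h31 h40 h41 hE
  have hP0 : 0 ≤ P G := sum_nonneg fun x _ => dg_nonneg G x
  rcases hP0.eq_or_lt with hP | hP
  · rw [← hP, mul_zero]
    exact S4_nonneg G
  obtain ⟨B, hB⟩ : ∃ B, B = big G κ3 := ⟨_, rfl⟩
  rw [← hB] at hE
  obtain ⟨E1, hE1⟩ : ∃ E1, E1 = ∑ x ∈ B, dg G x := ⟨_, rfl⟩
  rw [← hE1] at hE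
  have hE10 : 0 < E1 := lt_of_lt_of_le (mul_pos h40 hP) hE
  have hBne : B.Nonempty := by
    rw [nonempty_iff_ne_empty]
    intro h
    rw [h, sum_empty] at hE1
    exact hE10.ne' hE1
  obtain ⟨β, hβ⟩ : ∃ β : ℝ, β = B.card := ⟨_, rfl⟩
  have hβ0 : 0 < β := by rw [hβ]; exact_mod_cast hBne.card_pos
  obtain ⟨n, hn⟩ : ∃ n : ℝ, n = Fintype.card X := ⟨_, rfl⟩
  have hn0 : 0 < n := by
    rw [hn]
    obtain ⟨x, _⟩ := hBne
    exact_mod_cast Fintype.card_pos_iff.2 ⟨x⟩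
  obtain ⟨D, hD⟩ : ∃ D, D = 2 / κ4 * β := ⟨_, rfl⟩
  have hD0 : 0 < D := by rw [hD]; positivity
  obtain ⟨L, hL⟩ : ∃ L : Finset X, L = univ.filter fun b => dg G b ≤ D := ⟨_, rfl⟩
  have hmemB : ∀ x ∈ B, κ3 * n < dg G x := by
    intro x hx
    rw [hB, big, mem_filter] at hx
    rw [hn]
    exact hx.2
  -- few vertices are not low
  have hLc : (Lᶜ.card : ℝ) * D ≤ P G := by
    have h1 : ∑ b ∈ Lᶜ, D ≤ ∑ b ∈ Lᶜ, dg G b := by
      refine sum_le_sum fun b hb => ?_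
      rw [hL, mem_compl, mem_filter] at hb
      push Not at hb
      exact (hb (mem_univ _)).le
    rw [sum_const, nsmul_eq_mul] at h1
    refine h1.trans ?_
    unfold P
    exact sum_le_sum_of_subset_of_nonneg (subset_univ _) fun x _ _ => dg_nonneg G x
  obtain ⟨E2, hE2⟩ : ∃ E2, E2 = ∑ b ∈ L, ∑ x ∈ B, A G x b := ⟨_, rfl⟩
  have hE12 : E1 / 2 ≤ E2 := by
    have h1 : E1 = E2 + ∑ x ∈ B, ((nbr G x ∩ Lᶜ).card : ℝ) := by
      rw [hE1, hE2, sum_comm, ← sum_add_distrib]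
      refine sum_congr rfl fun x _ => ?_
      rw [← BetaL.card_inter, ← dg_eq]
    have h2 : ∑ x ∈ B, ((nbr G x ∩ Lᶜ).card : ℝ) ≤ β * Lᶜ.card := by
      rw [hβ, ← nsmul_eq_mul, ← sum_const]
      refine sum_le_sum fun x _ => ?_
      exact_mod_cast card_le_card inter_subset_right
    have h3 : β * (Lᶜ.card : ℝ) ≤ κ4 * P G / 2 := by
      rw [hD] at hLc
      have h4 : (Lᶜ.card : ℝ) * (2 / κ4 * β) = 2 / κ4 * (β * (Lᶜ.card : ℝ)) := by ring
      rw [h4] at hLc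
      have h5 : β * (Lᶜ.card : ℝ) = κ4 / 2 * (2 / κ4 * (β * (Lᶜ.card : ℝ))) := by
        field_simp
      rw [h5]
      calc κ4 / 2 * (2 / κ4 * (β * (Lᶜ.card : ℝ))) ≤ κ4 / 2 * P G :=
            mul_le_mul_of_nonneg_left hLc (by positivity)
        _ = _ := by ring
    linarith
  obtain ⟨T, hT⟩ : ∃ T, T = ∑ p ∈ L ×ˢ L, (∑ x ∈ B, A G x p.1 * A G x p.2) ^ 2 := ⟨_, rfl⟩
  have hT0 : 0 ≤ T := by rw [hT]; exact sum_nonneg fun p _ => sq_nonneg _
  have h1 : E2 ^ 4 ≤ n ^ 2 * β ^ 2 * T := by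
    have h2 := cs B L (A G)
    rw [← hE2, ← hT, ← hβ] at h2
    refine h2.trans ?_
    have h3 : (L.card : ℝ) ≤ n := by
      rw [hn]
      exact_mod_cast card_le_univ _
    gcongr
  have h2 : T / (2 * D * n) ≤ S4 G := by
    rw [hT]
    refine S4_ge G B L D n hD0 hn.symm hn0 (fun x hx => ?_) fun b hb => ?_
    · exact lt_of_le_of_lt (by positivity) (hmemB x hx)
    · rw [hL, mem_filter] at hb
      exact hb.2
  have h3 : κ3 * n * β ≤ E1 := by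
    rw [hE1]
    calc κ3 * n * β = ∑ x ∈ B, κ3 * n := by rw [sum_const, nsmul_eq_mul, ← hβ]; ring
      _ ≤ _ := sum_le_sum fun x hx => (hmemB x hx).le
  have h4 : (E1 / 2) ^ 4 ≤ n ^ 2 * β ^ 2 * T := by
    refine le_trans ?_ h1
    gcongr
  have h5 : (κ3 * n * β) ^ 3 * E1 ≤ E1 ^ 4 := by
    calc (κ3 * n * β) ^ 3 * E1 ≤ E1 ^ 3 * E1 := by gcongr
      _ = E1 ^ 4 := by ring
  -- combination
  have h6 : κ3 ^ 3 * n * β * E1 ≤ 16 * T := by
    have h7 : (n ^ 2 * β ^ 2) * (κ3 ^ 3 * n * β * E1) ≤ (n ^ 2 * β ^ 2) * (16 * T) := by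
      calc (n ^ 2 * β ^ 2) * (κ3 ^ 3 * n * β * E1) = (κ3 * n * β) ^ 3 * E1 := by ring
        _ ≤ E1 ^ 4 := h5
        _ = 16 * (E1 / 2) ^ 4 := by ring
        _ ≤ 16 * (n ^ 2 * β ^ 2 * T) := by gcongr
        _ = _ := by ring
    exact le_of_mul_le_mul_left h7 (by positivity)
  refine le_trans ?_ h2
  rw [le_div_iff₀ (by positivity), hD]
  have h8 : κ3 ^ 3 * κ4 ^ 2 / 64 * P G * (2 * (2 / κ4 * β) * n) =
      (κ3 ^ 3 * n * β) * (κ4 * P G) / 16 := by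
    field_simp
    ring
  rw [h8]
  have h9 : (κ3 ^ 3 * n * β) * (κ4 * P G) ≤ (κ3 ^ 3 * n * β) * E1 :=
    mul_le_mul_of_nonneg_left hE (by positivity)
  linarith

end Pool.Agent.H698.HF
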