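import Pool.Agent.H698.HF.Stm

/-! # CASE1 (helper722): few triangles -/

set_option autoImplicit false

open scoped Classical
open Finset
open Pool.Agent.H698.SF (Game nbr mem_nbr prs Bad nbad)

namespace Pool.Agent.H698.HF

namespace Case1L

variable {X : Type} [Fintype X] (G : SimpleGraph X)

noncomputable def rr (b : X) : ℝ :=
  (∑ y ∈ nbr G b, ((nbr G b ∩ nbr G y).card : ℝ)) / dg G b ^ 2

noncomputable def ss (κ : ℝ) (b : X) : ℝ := ((nbr G b ∩ big G κ).card : ℝ) / dg G b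

noncomputable def qq (x b : X) : ℝ := ((nbr G x ∩ nbr G b).card : ℝ) / dg G b

noncomputable def bb (κ : ℝ) (b : X) : ℝ := if b ∈ big G κ then 1 else 0

noncomputable def ww (κ : ℝ) (x : X) : ℝ :=
  bb G κ x * dg G x + dg G x * rr G x +
    (∑ b ∈ nbr G x, (rr G b + ss G κ b + qq G x b + bb G κ b)) +
    (∑ b ∈ nbr G x, ∑ b' ∈ nbr G x, J G b b') / dg G x

theorem dg_nonneg (x : X) : 0 ≤ dg G x := by unfold dg; positivity

theorem rr_nonneg (b : X) : 0 ≤ rr G b := by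
  unfold rr
  have := dg_nonneg G b
  positivity

theorem ss_nonneg (κ : ℝ) (b : X) : 0 ≤ ss G κ b := by
  unfold ss
  have := dg_nonneg G b
  positivity

theorem qq_nonneg (x b : X) : 0 ≤ qq G x b := by
  unfold qq
  have := dg_nonneg G b
  positivity

theorem bb_nonneg (κ : ℝ) (b : X) : 0 ≤ bb G κ b := by
  unfold bb; split_ifs <;> norm_num

theorem J_nonneg (x y : X) : 0 ≤ J G x y := by unfold J; positivity

theorem J_comm (x y : X) : J G x y = J G y x := by
  unfold J; rw [inter_comm, union_comm]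

theorem swap (f : X → X → ℝ) :
    ∑ u, ∑ w ∈ nbr G u, f w u = ∑ u, ∑ w ∈ nbr G u, f u w := by
  rw [← SF.sum_prs (G := G) fun u w => f w u, ← SF.sum_prs (G := G) f]
  exact SF.sum_prs_swap (G := G) f

theorem dg_rr (b : X) : dg G b * rr G b =
    (∑ y ∈ nbr G b, ((nbr G b ∩ nbr G y).card : ℝ)) / dg G b := by
  unfold rr
  by_cases h : dg G b = 0
  · rw [h]; simp
  · field_simp

theorem sum_dg_rr : ∑ b, dg G b * rr G b = Tri G := by
  unfold Tri
  exact sum_congr rfl fun b _ => dg_rr G b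

theorem sum_rr : ∑ x, ∑ b ∈ nbr G x, rr G b = Tri G := by
  rw [swap G fun b _ => rr G b, ← sum_dg_rr]
  refine sum_congr rfl fun b _ => ?_
  rw [sum_const, nsmul_eq_mul]; rfl

theorem card_inter_big (κ : ℝ) (b : X) :
    ((nbr G b ∩ big G κ).card : ℝ) = ∑ x ∈ nbr G b, bb G κ x := by
  unfold bb
  rw [sum_boole]
  congr 2

theorem sum_bb (κ : ℝ) : ∑ x, ∑ b ∈ nbr G x, bb G κ b = ∑ x ∈ big G κ, dg G x := by
  rw [swap G fun b _ => bb G κ b]
  have : ∑ x ∈ big G κ, dg G x = ∑ x, if x ∈ big G κ then dg G x else 0 := by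
    rw [sum_ite_mem, univ_inter]
  rw [this]
  refine sum_congr rfl fun b _ => ?_
  rw [sum_const, nsmul_eq_mul]
  unfold bb
  split_ifs
  · rw [mul_one]; rfl
  · rw [mul_zero]

theorem sum_ss (κ : ℝ) : ∑ x, ∑ b ∈ nbr G x, ss G κ b = ∑ x ∈ big G κ, dg G x := by
  rw [swap G fun b _ => ss G κ b, ← sum_bb]
  refine sum_congr rfl fun b _ => ?_
  rw [sum_const, nsmul_eq_mul, ← card_inter_big]
  unfold ss
  by_cases h : dg G b = 0
  · have h1 : (nbr G b).card = 0 := by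
      unfold dg at h; exact_mod_cast h
    have h2 : nbr G b = ∅ := card_eq_zero.1 h1
    rw [h2]; simp
  · have : ((nbr G b).card : ℝ) = dg G b := rfl
    rw [this]; field_simp

theorem sum_qq : ∑ x, ∑ b ∈ nbr G x, qq G x b = Tri G := by
  rw [← swap G fun x b => qq G x b]
  unfold Tri qq
  refine sum_congr rfl fun b _ => ?_
  rw [sum_div]
  refine sum_congr rfl fun y _ => ?_
  rw [inter_comm]

theorem sum_bb' (κ : ℝ) : ∑ x, bb G κ x * dg G x = ∑ x ∈ big G κ, dg G x := by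
  have : ∑ x ∈ big G κ, dg G x = ∑ x, if x ∈ big G κ then dg G x else 0 := by
    rw [sum_ite_mem, univ_inter]
  rw [this]
  refine sum_congr rfl fun b _ => ?_
  unfold bb
  split_ifs
  · rw [one_mul]
  · rw [zero_mul]

theorem sum_ww (κ : ℝ) : ∑ x, ww G κ x = 3 * (∑ x ∈ big G κ, dg G x) + 3 * Tri G + S4 G := by
  unfold ww
  simp only [sum_add_distrib]
  rw [sum_bb', sum_dg_rr, sum_rr, sum_ss, sum_qq, sum_bb]
  unfold S4
  ring

/-- there is a good vertex -/
theorem exists_good (κ ρ : ℝ) (hP : 0 < P G)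
    (h : 3 * (∑ x ∈ big G κ, dg G x) + 3 * Tri G + S4 G ≤ ρ * P G) :
    ∃ x, 0 < dg G x ∧ ww G κ x ≤ ρ * dg G x := by
  by_contra hcon
  push Not at hcon
  have h1 : ∑ x, ρ * dg G x < ∑ x, ww G κ x := by
    apply sum_lt_sum
    · intro x _
      by_cases hx : 0 < dg G x
      · exact (hcon x hx).le
      · have hx0 : dg G x = 0 := le_antisymm (not_lt.1 hx) (dg_nonneg G x)
        rw [hx0, mul_zero]
        unfold ww
        have e1 := bb_nonneg G κ x
        have e2 := dg_nonneg G x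
        have e3 := rr_nonneg G x
        have e4 : 0 ≤ ∑ b ∈ nbr G x, (rr G b + ss G κ b + qq G x b + bb G κ b) :=
          sum_nonneg fun b _ => add_nonneg (add_nonneg (add_nonneg (rr_nonneg G b)
            (ss_nonneg G κ b)) (qq_nonneg G x b)) (bb_nonneg G κ b)
        have e5 : 0 ≤ ∑ b ∈ nbr G x, ∑ b' ∈ nbr G x, J G b b' :=
          sum_nonneg fun b _ => sum_nonneg fun b' _ => J_nonneg G b b'
        exact add_nonneg (add_nonneg (add_nonneg (mul_nonneg e1 e2) (mul_nonneg e2 e3)) e4)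
          (div_nonneg e5 e2)
    · by_contra hc
      push Not at hc
      have : P G ≤ 0 := by
        unfold P
        refine sum_nonpos fun x _ => ?_
        by_contra hx
        exact absurd (hcon x (not_le.1 hx)) (not_lt.2 (hc x (mem_univ x)))
      linarith
  rw [← mul_sum, sum_ww] at h1
  unfold P at h
  linarith

theorem ww_parts {κ ρ : ℝ} {x : X} (hx : 0 < dg G x) (h : ww G κ x ≤ ρ * dg G x) :
    bb G κ x ≤ ρ ∧ rr G x ≤ ρ ∧
      (∑ b ∈ nbr G x, (rr G b + ss G κ b + qq G x b + bb G κ b)) ≤ ρ * dg G x ∧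
      (∑ b ∈ nbr G x, ∑ b' ∈ nbr G x, J G b b') ≤ ρ * dg G x ^ 2 := by
  unfold ww at h
  have e1 := bb_nonneg G κ x
  have e2 := dg_nonneg G x
  have e3 := rr_nonneg G x
  have e4 : 0 ≤ ∑ b ∈ nbr G x, (rr G b + ss G κ b + qq G x b + bb G κ b) :=
    sum_nonneg fun b _ => add_nonneg (add_nonneg (add_nonneg (rr_nonneg G b)
      (ss_nonneg G κ b)) (qq_nonneg G x b)) (bb_nonneg G κ b)
  have e5 : 0 ≤ ∑ b ∈ nbr G x, ∑ b' ∈ nbr G x, J G b b' :=
    sum_nonneg fun b _ => sum_nonneg fun b' _ => J_nonneg G b b'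
  have e6 := mul_nonneg e1 e2
  have e7 := mul_nonneg e2 e3
  have e8 := div_nonneg e5 e2
  refine ⟨?_, ?_, ?_, ?_⟩
  · have : bb G κ x * dg G x ≤ ρ * dg G x := by linarith
    exact le_of_mul_le_mul_right this hx
  · have : rr G x * dg G x ≤ ρ * dg G x := by linarith
    exact le_of_mul_le_mul_right this hx
  · linarith
  · have h1 : (∑ b ∈ nbr G x, ∑ b' ∈ nbr G x, J G b b') / dg G x ≤ ρ * dg G x := by linarith
    rw [div_le_iff₀ hx] at h1
    rw [pow_two, ← mul_assoc]; exact h1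

/-- the number of adjacent pairs in a neighbourhood -/
theorem card_adj (b : X) (hb : 0 < dg G b) :
    ((((nbr G b ×ˢ nbr G b).filter fun z => G.Adj z.1 z.2).card : ℕ) : ℝ) =
      rr G b * dg G b ^ 2 := by
  have h1 : ((((nbr G b ×ˢ nbr G b).filter fun z => G.Adj z.1 z.2).card : ℕ) : ℝ) =
      ∑ y ∈ nbr G b, ((nbr G b ∩ nbr G y).card : ℝ) := by
    rw [card_filter, sum_product]
    push_cast
    refine sum_congr rfl fun y _ => ?_
    rw [← sum_filter]
    simp only [sum_const, nsmul_eq_mul, mul_one]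
    congr 2
    ext z
    simp [mem_nbr]
  rw [h1]
  unfold rr
  have := hb.ne'
  field_simp

/-- Markov for the similarities -/
theorem card_J (x : X) (θ A : ℝ) (hθ : 0 < θ)
    (h : (∑ b ∈ nbr G x, ∑ b' ∈ nbr G x, J G b b') ≤ A) :
    ((((nbr G x ×ˢ nbr G x).filter fun z => θ < J G z.1 z.2).card : ℕ) : ℝ) ≤ A / θ := by
  rw [le_div_iff₀ hθ]
  refine le_trans ?_ h
  rw [← sum_product' (f := fun b b' => J G b b'), ← nsmul_eq_mul, ← sum_const]
  refine le_trans (sum_le_sum fun z hz => (mem_filter.1 hz).2.le) ?_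
  exact sum_le_sum_of_subset_of_nonneg (filter_subset _ _) fun z _ _ => J_nonneg G _ _

theorem rho_facts {T ρ : ℝ} (hT : 1 ≤ T) (hρ0 : 0 < ρ) (hρ : ρ ≤ 1 / (1100 * (T + 1) ^ 2)) :
    ρ < 1 ∧ 64 * T * ρ ≤ 1 ∧ 16 * (1 + 64 * T) * (T + 1) * ρ < 1 := by
  have h1 : 0 < 1100 * (T + 1) ^ 2 := by positivity
  rw [le_div_iff₀ h1] at hρ
  have e1 : ρ * (T + 1) ^ 2 * 1100 ≤ 1 := by linarith
  have e0 : 4 ≤ (T + 1) ^ 2 := by nlinarith
  have e2 : ρ * 4 ≤ ρ * (T + 1) ^ 2 := mul_le_mul_of_nonneg_left e0 hρ0.le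
  refine ⟨by linarith, ?_, ?_⟩
  · have e3 : T ≤ (T + 1) ^ 2 := by nlinarith
    have : ρ * T ≤ ρ * (T + 1) ^ 2 := mul_le_mul_of_nonneg_left e3 hρ0.le
    linarith
  · have h2 : 16 * (1 + 64 * T) * (T + 1) < 1100 * (T + 1) ^ 2 := by nlinarith
    calc 16 * (1 + 64 * T) * (T + 1) * ρ < 1100 * (T + 1) ^ 2 * ρ :=
          mul_lt_mul_of_pos_right h2 hρ0
      _ ≤ 1 := by linarith

/-- the good neighbours -/
noncomputable def good (κ : ℝ) (x : X) (θ : ℝ) : Finset X :=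
  (nbr G x).filter fun b => rr G b + ss G κ b + qq G x b + bb G κ b ≤ θ

theorem good_card {κ ρ θ : ℝ} {x : X} (hθ : 0 < θ) (hρθ : 2 * ρ ≤ θ)
    (h : (∑ b ∈ nbr G x, (rr G b + ss G κ b + qq G x b + bb G κ b)) ≤ ρ * dg G x) :
    dg G x ≤ 2 * ((good G κ x θ).card : ℝ) := by
  have h1 : (((nbr G x).filter fun b => ¬ (rr G b + ss G κ b + qq G x b + bb G κ b ≤ θ)).card : ℝ) *
      θ ≤ ρ * dg G x := by
    refine le_trans ?_ h
    rw [← nsmul_eq_mul, ← sum_const]
    refine le_trans (sum_le_sum fun z hz => (not_le.1 (mem_filter.1 hz).2).le) ?_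
    exact sum_le_sum_of_subset_of_nonneg (filter_subset _ _) fun b _ _ =>
      add_nonneg (add_nonneg (add_nonneg (rr_nonneg G b)
      (ss_nonneg G κ b)) (qq_nonneg G x b)) (bb_nonneg G κ b)
  have h2 : ((good G κ x θ).card : ℝ) +
      (((nbr G x).filter fun b => ¬ (rr G b + ss G κ b + qq G x b + bb G κ b ≤ θ)).card : ℝ) =
      dg G x := by
    unfold good dg
    rw [← Nat.cast_add, card_filter_add_card_filter_not]
  set A := (((nbr G x).filter fun b => ¬ (rr G b + ss G κ b + qq G x b + bb G κ b ≤ θ)).card : ℝ)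
  have h3 : A * θ ≤ (dg G x / 2) * θ := by
    have := dg_nonneg G x
    nlinarith
  have h4 := le_of_mul_le_mul_right h3 hθ
  linarith

theorem J_self {b : X} (hb : 0 < dg G b) : J G b b = 1 := by
  unfold J
  rw [inter_self, union_self]
  have : ((nbr G b).card : ℝ) ≠ 0 := hb.ne'
  exact div_self this

/-- the first greedy choice -/
theorem greedy1 (hG : S_GREEDY) {κ ρ : ℝ} {t : ℕ} {x : X} (ht : 1 ≤ t) (hρ0 : 0 < ρ)
    (hρ : ρ ≤ 1 / (1100 * ((t : ℝ) + 1) ^ 2)) (hx : 0 < dg G x) (hr : rr G x ≤ ρ)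
    (hc : (∑ b ∈ nbr G x, (rr G b + ss G κ b + qq G x b + bb G κ b)) ≤ ρ * dg G x)
    (hJ : (∑ b ∈ nbr G x, ∑ b' ∈ nbr G x, J G b b') ≤ ρ * dg G x ^ 2) :
    ∃ T ⊆ good G κ x (1 / (32 * t)), T.card = t + 1 ∧
      ∀ b ∈ T, ∀ b' ∈ T, b ≠ b' → ¬ (G.Adj b b' ∨ 1 / (64 * (t : ℝ)) < J G b b') := by
  have hT : (1 : ℝ) ≤ t := by exact_mod_cast ht
  obtain ⟨f1, f2, f3⟩ := rho_facts hT hρ0 hρ
  have hθ : 0 < 1 / (32 * (t : ℝ)) := by positivity
  have hgc := good_card G (κ := κ) (x := x) hθ (by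
    rw [le_div_iff₀ (by positivity)]; linarith) hc
  set S := good G κ x (1 / (32 * (t : ℝ))) with hS
  have hSc : (0 : ℝ) < S.card := by linarith
  have hSn : S.Nonempty := by
    rw [← card_pos]; exact_mod_cast hSc
  have hSx : S ⊆ nbr G x := filter_subset _ _
  have hdpos : ∀ b ∈ nbr G x, 0 < dg G b := by
    intro b hb
    have : x ∈ nbr G b := (mem_nbr G).2 ((mem_nbr G).1 hb).symm
    unfold dg
    exact_mod_cast card_pos.2 ⟨x, this⟩
  have hcount : ((((S ×ˢ S).filter fun z => G.Adj z.1 z.2 ∨ 1 / (64 * (t : ℝ)) < J G z.1 z.2).card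
      : ℕ) : ℝ) ≤ (4 * (1 + 64 * t) * ρ) * (S.card : ℝ) ^ 2 := by
    have h1 : (((S ×ˢ S).filter fun z => G.Adj z.1 z.2 ∨ 1 / (64 * (t : ℝ)) < J G z.1 z.2).card) ≤
        ((nbr G x ×ˢ nbr G x).filter fun z => G.Adj z.1 z.2).card +
        ((nbr G x ×ˢ nbr G x).filter fun z => 1 / (64 * (t : ℝ)) < J G z.1 z.2).card := by
      rw [filter_or]
      refine le_trans (card_union_le _ _) (add_le_add (card_le_card ?_) (card_le_card ?_))
      · exact filter_subset_filter _ (product_subset_product hSx hSx)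
      · exact filter_subset_filter _ (product_subset_product hSx hSx)
    have h2 := card_adj G x hx
    have h3 := card_J G x (1 / (64 * (t : ℝ))) _ (by positivity) hJ
    have h4 : ((((S ×ˢ S).filter fun z => G.Adj z.1 z.2 ∨ 1 / (64 * (t : ℝ)) < J G z.1 z.2).card
      : ℕ) : ℝ) ≤ rr G x * dg G x ^ 2 + ρ * dg G x ^ 2 / (1 / (64 * (t : ℝ))) := by
      refine le_trans (Nat.cast_le.2 h1) ?_
      push_cast
      rw [h2]
      exact add_le_add le_rfl h3
    have h5 : ρ * dg G x ^ 2 / (1 / (64 * (t : ℝ))) = 64 * t * ρ * dg G x ^ 2 := by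
      field_simp
    rw [h5] at h4
    have h6 : rr G x * dg G x ^ 2 ≤ ρ * dg G x ^ 2 :=
      mul_le_mul_of_nonneg_right hr (by positivity)
    have h7 : dg G x ^ 2 ≤ 4 * (S.card : ℝ) ^ 2 := by
      have := pow_le_pow_left₀ hx.le hgc 2
      calc dg G x ^ 2 ≤ (2 * (S.card : ℝ)) ^ 2 := this
        _ = _ := by ring
    calc _ ≤ (1 + 64 * t) * ρ * dg G x ^ 2 := by linarith
      _ ≤ (1 + 64 * t) * ρ * (4 * (S.card : ℝ) ^ 2) :=
        mul_le_mul_of_nonneg_left h7 (by positivity)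
      _ = _ := by ring
  obtain ⟨T, hTS, hTc, hTR⟩ := hG X S (fun b b' => G.Adj b b' ∨ 1 / (64 * (t : ℝ)) < J G b b')
    (4 * (1 + 64 * t) * ρ) (t + 1) hSn
    (fun b hb => Or.inr (by
      rw [J_self G (hdpos b (hSx hb)), div_lt_one (by positivity)]; linarith))
    (fun b b' h => h.imp (fun h => h.symm) (fun h => by rwa [J_comm]))
    (by convert hcount) (by push_cast; linarith)
  exact ⟨T, hTS, hTc, hTR⟩

theorem card_union_real (x y : X) :
    ((nbr G x ∪ nbr G y).card : ℝ) ≤ dg G x + dg G y := by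
  unfold dg
  exact_mod_cast card_union_le _ _

theorem inter_le {b b' : X} {θ : ℝ} (hb : 0 < dg G b) (h : J G b b' ≤ θ) (hθ : 0 ≤ θ) :
    ((nbr G b ∩ nbr G b').card : ℝ) ≤ θ * (dg G b + dg G b') := by
  unfold J at h
  have h1 : (0 : ℝ) < (nbr G b ∪ nbr G b').card := by
    have : (nbr G b).card ≤ (nbr G b ∪ nbr G b').card := card_le_card subset_union_left
    have h2 : (0 : ℝ) < (nbr G b).card := hb
    have h3 : ((nbr G b).card : ℝ) ≤ (nbr G b ∪ nbr G b').card := by exact_mod_cast this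
    linarith
  rw [div_le_iff₀ h1] at h
  exact h.trans (mul_le_mul_of_nonneg_left (card_union_real G b b') hθ)

/-- the second greedy choice -/
theorem greedy2 (hG : S_GREEDY) {κ : ℝ} {t : ℕ} {x b : X} (ht : 1 ≤ t)
    (hr : rr G b ≤ 1 / (32 * t)) (hs : ss G κ b ≤ 1 / (32 * t)) (hq : qq G x b ≤ 1 / (32 * t))
    (Y : Finset X) (hY : Y.card = t) (hYJ : ∀ y ∈ Y, J G b y ≤ 1 / (64 * t))
    (hYd : ∀ y ∈ Y, dg G y ≤ dg G b) (hd : 32 * (t : ℝ) ≤ dg G b) :
    ∃ Z : Finset X, Z.card = t ∧ (∀ z ∈ Z, G.Adj b z ∧ z ∉ big G κ ∧ ¬ G.Adj x z ∧ z ≠ x ∧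
      ∀ y ∈ Y, ¬ G.Adj y z) ∧ ∀ u ∈ Z, ∀ v ∈ Z, ¬ G.Adj u v := by
  have hT : (1 : ℝ) ≤ t := by exact_mod_cast ht
  have hb : 0 < dg G b := by linarith
  set θ : ℝ := 1 / (32 * t) with hθ
  have hθ0 : 0 < θ := by rw [hθ]; positivity
  have hθT : θ * t = 1 / 32 := by rw [hθ]; field_simp
  have hθ1 : θ ≤ 1 / 32 := by
    rw [hθ]
    exact one_div_le_one_div_of_le (by norm_num) (by linarith)
  -- the bad sets
  have c1 : ((nbr G b ∩ big G κ).card : ℝ) ≤ θ * dg G b := by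
    unfold ss at hs
    rwa [div_le_iff₀ hb] at hs
  have c2 : ((nbr G b ∩ nbr G x).card : ℝ) ≤ θ * dg G b := by
    unfold qq at hq
    rw [div_le_iff₀ hb, inter_comm] at hq
    exact hq
  have c3 : ∀ y ∈ Y, ((nbr G b ∩ nbr G y).card : ℝ) ≤ θ * dg G b := by
    intro y hy
    have h1 := inter_le G hb (hYJ y hy) (by positivity)
    have h2 : 1 / (64 * (t : ℝ)) * (dg G b + dg G y) ≤ 1 / (64 * (t : ℝ)) * (2 * dg G b) :=
      mul_le_mul_of_nonneg_left (by linarith [hYd y hy]) (by positivity)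
    have h3 : 1 / (64 * (t : ℝ)) * (2 * dg G b) = θ * dg G b := by rw [hθ]; field_simp; norm_num
    linarith
  let U : Finset X := (nbr G b).filter fun z =>
    z ∉ big G κ ∧ ¬ G.Adj x z ∧ z ≠ x ∧ ∀ y ∈ Y, ¬ G.Adj y z
  have hUc : (nbr G b).card ≤ U.card + ((nbr G b ∩ big G κ).card + (nbr G b ∩ nbr G x).card + 1 +
      ∑ y ∈ Y, (nbr G b ∩ nbr G y).card) := by
    have h1 : nbr G b ⊆ U ∪ ((nbr G b ∩ big G κ) ∪ (nbr G b ∩ nbr G x) ∪ {x} ∪
        Y.biUnion fun y => nbr G b ∩ nbr G y) := by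
      intro z hz
      by_cases hzU : z ∈ U
      · exact mem_union_left _ hzU
      · apply mem_union_right
        simp only [U, mem_filter, hz, true_and] at hzU
        simp only [mem_union, mem_inter, mem_singleton, mem_biUnion, mem_nbr]
        have hz' := (mem_nbr G).1 hz
        by_cases h2 : z ∈ big G κ
        · exact Or.inl (Or.inl (Or.inl ⟨hz', h2⟩))
        by_cases h3 : G.Adj x z
        · exact Or.inl (Or.inl (Or.inr ⟨hz', h3⟩))
        by_cases h4 : z = x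
        · exact Or.inl (Or.inr h4)
        right
        by_contra hcon
        apply hzU
        refine ⟨h2, h3, h4, fun y hy hyz => hcon ⟨y, hy, hz', hyz⟩⟩
    refine le_trans (card_le_card h1) (le_trans (card_union_le _ _) (add_le_add le_rfl ?_))
    refine le_trans (card_union_le _ _) (add_le_add ?_ card_biUnion_le)
    refine le_trans (card_union_le _ _) (add_le_add ?_ (by simp))
    exact card_union_le _ _
  have hU : 3 / 4 * dg G b ≤ (U.card : ℝ) := by
    have h1 : dg G b ≤ U.card + (((nbr G b ∩ big G κ).card : ℝ) + (nbr G b ∩ nbr G x).card + 1 +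
      ∑ y ∈ Y, ((nbr G b ∩ nbr G y).card : ℝ)) := by
      unfold dg
      exact_mod_cast hUc
    have h2 : ∑ y ∈ Y, ((nbr G b ∩ nbr G y).card : ℝ) ≤ t * (θ * dg G b) := by
      rw [← hY, ← nsmul_eq_mul, ← sum_const]
      exact sum_le_sum c3
    have h3 : t * (θ * dg G b) = 1 / 32 * dg G b := by rw [← hθT]; ring
    have h4 : θ * dg G b ≤ 1 / 32 * dg G b := mul_le_mul_of_nonneg_right hθ1 hb.le
    have h5 : (1 : ℝ) ≤ 1 / 32 * dg G b := by linarith
    linarith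
  have hU0 : (0 : ℝ) < U.card := by linarith
  have hUn : U.Nonempty := by rw [← card_pos]; exact_mod_cast hU0
  have hUb : U ⊆ nbr G b := filter_subset _ _
  have hcount : ((((U ×ˢ U).filter fun z => z.1 = z.2 ∨ G.Adj z.1 z.2).card : ℕ) : ℝ) ≤
      (1 / U.card + 16 / 9 * θ) * (U.card : ℝ) ^ 2 := by
    have h1 : ((U ×ˢ U).filter fun z => z.1 = z.2 ∨ G.Adj z.1 z.2).card ≤
        U.card + ((nbr G b ×ˢ nbr G b).filter fun z => G.Adj z.1 z.2).card := by
      rw [filter_or]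
      refine le_trans (card_union_le _ _) (add_le_add ?_ (card_le_card ?_))
      · have : ((U ×ˢ U).filter fun z => z.1 = z.2) = U.diag := by
          ext z
          simp only [mem_filter, mem_product, mem_diag]
          constructor
          · rintro ⟨⟨h1, h2⟩, h3⟩; exact ⟨h1, h3⟩
          · rintro ⟨h1, h3⟩; exact ⟨⟨h1, h3 ▸ h1⟩, h3⟩
        rw [this, diag_card]
      · exact filter_subset_filter _ (product_subset_product hUb hUb)
    have h2 := card_adj G b hb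
    have h3 : ((((U ×ˢ U).filter fun z => z.1 = z.2 ∨ G.Adj z.1 z.2).card : ℕ) : ℝ) ≤
        U.card + rr G b * dg G b ^ 2 := by
      refine le_trans (Nat.cast_le.2 h1) ?_
      push_cast
      rw [h2]
    have h4 : rr G b * dg G b ^ 2 ≤ θ * dg G b ^ 2 := mul_le_mul_of_nonneg_right hr (by positivity)
    have h5 : dg G b ^ 2 ≤ 16 / 9 * (U.card : ℝ) ^ 2 := by
      have h6 : dg G b ≤ 4 / 3 * (U.card : ℝ) := by linarith
      have := pow_le_pow_left₀ hb.le h6 2
      calc dg G b ^ 2 ≤ (4 / 3 * (U.card : ℝ)) ^ 2 := this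
        _ = _ := by ring
    have h7 : θ * dg G b ^ 2 ≤ θ * (16 / 9 * (U.card : ℝ) ^ 2) :=
      mul_le_mul_of_nonneg_left h5 hθ0.le
    calc _ ≤ (U.card : ℝ) + θ * (16 / 9 * (U.card : ℝ) ^ 2) := by linarith
      _ = _ := by field_simp
  obtain ⟨Z, hZU, hZc, hZR⟩ := hG X U (fun u v => u = v ∨ G.Adj u v) (1 / U.card + 16 / 9 * θ) t hUn
    (fun u _ => Or.inl rfl) (fun u v h => h.imp Eq.symm (fun h => h.symm))
    (by convert hcount) (by
      have h1 : 4 * (1 / (U.card : ℝ) + 16 / 9 * θ) * t = 4 * t / U.card + 64 / 9 * (θ * t) := by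
        ring
      rw [h1, hθT]
      have h2 : 4 * (t : ℝ) / U.card ≤ 1 / 6 := by
        rw [div_le_iff₀ hU0]; linarith
      linarith)
  refine ⟨Z, hZc, fun z hz => ?_, fun u hu v hv huv => ?_⟩
  · have := mem_filter.1 (hZU hz)
    exact ⟨(mem_nbr G).1 this.1, this.2⟩
  · exact hZR u hu v hv huv.ne (Or.inr huv)

end Case1L

theorem case1 (hG : S_GREEDY) (hZ : S_Z) : S_CASE1 := by
  intro X _ G t ρ κ ht hρ0 hρ hκ0 hκ hP hbig hX hsum
  have hT : (1 : ℝ) ≤ t := by exact_mod_cast ht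
  obtain ⟨f1, f2, f3⟩ := Case1L.rho_facts hT hρ0 hρ
  obtain ⟨x, hx, hw⟩ := Case1L.exists_good G κ ρ hP hsum
  obtain ⟨wa, wb, wc, wd⟩ := Case1L.ww_parts G hx hw
  have hxb : x ∉ big G κ := by
    intro hxb
    unfold Case1L.bb at wa
    rw [if_pos hxb] at wa
    linarith
  obtain ⟨T, hTg, hTc, hTR⟩ := Case1L.greedy1 G hG ht hρ0 hρ hx wb wc wd
  have hTn : T.Nonempty := by rw [← card_pos, hTc]; omega
  obtain ⟨b, hbT, hbmax⟩ := exists_max_image T (dg G) hTn
  have hTx : ∀ y ∈ T, G.Adj x y := fun y hy => (mem_nbr G).1 (mem_filter.1 (hTg hy)).1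
  have hθ1 : 1 / (32 * (t : ℝ)) < 1 := by
    rw [div_lt_one (by positivity)]; linarith
  have hparts : ∀ y ∈ T, Case1L.rr G y ≤ 1 / (32 * t) ∧ Case1L.ss G κ y ≤ 1 / (32 * t) ∧
      Case1L.qq G x y ≤ 1 / (32 * t) ∧ y ∉ big G κ := by
    intro y hy
    have h1 := (mem_filter.1 (hTg hy)).2
    have e1 := Case1L.rr_nonneg G y
    have e2 := Case1L.ss_nonneg G κ y
    have e3 := Case1L.qq_nonneg G x y
    have e4 := Case1L.bb_nonneg G κ y
    refine ⟨by linarith, by linarith, by linarith, fun hyb => ?_⟩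
    have : Case1L.bb G κ y = 1 := by unfold Case1L.bb; rw [if_pos hyb]
    linarith
  set Y := T.erase b with hY
  have hYc : Y.card = t := by rw [hY, card_erase_of_mem hbT, hTc]; rfl
  have hYT : ∀ y ∈ Y, y ∈ T := fun y hy => mem_of_mem_erase hy
  have hYne : ∀ y ∈ Y, y ≠ b := fun y hy => ne_of_mem_erase hy
  have hYJ : ∀ y ∈ Y, J G b y ≤ 1 / (64 * t) := fun y hy =>
    not_lt.1 fun h => hTR b hbT y (hYT y hy) (hYne y hy).symm (Or.inr h)
  have hYd : ∀ y ∈ Y, dg G y ≤ dg G b := fun y hy => hbmax y (hYT y hy)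
  have hbpos : 0 < dg G b := by
    unfold dg
    exact_mod_cast card_pos.2 ⟨x, (mem_nbr G).2 (hTx b hbT).symm⟩
  have hd : 32 * (t : ℝ) ≤ dg G b := by
    obtain ⟨y, hy⟩ : Y.Nonempty := by rw [← card_pos, hYc]; omega
    have h1 := Case1L.inter_le G hbpos (hYJ y hy) (by positivity)
    have h2 : (1 : ℝ) ≤ ((nbr G b ∩ nbr G y).card : ℝ) := by
      have : 0 < (nbr G b ∩ nbr G y).card := card_pos.2 ⟨x, mem_inter.2
        ⟨(mem_nbr G).2 (hTx b hbT).symm, (mem_nbr G).2 (hTx y (hYT y hy)).symm⟩⟩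
      exact_mod_cast this
    have h3 : 1 / (64 * (t : ℝ)) * (dg G b + dg G y) ≤ 1 / (64 * (t : ℝ)) * (2 * dg G b) :=
      mul_le_mul_of_nonneg_left (by linarith [hYd y hy]) (by positivity)
    have h4 : 1 / (64 * (t : ℝ)) * (2 * dg G b) = dg G b / (32 * t) := by field_simp; norm_num
    have h5 : 1 ≤ dg G b / (32 * t) := by linarith
    rw [le_div_iff₀ (by positivity)] at h5
    linarith
  obtain ⟨Z, hZc, hZ1, hZ2⟩ := Case1L.greedy2 G hG ht (hparts b hbT).1 (hparts b hbT).2.1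
    (hparts b hbT).2.2.1 Y hYc hYJ hYd hd
  obtain ⟨W, hWc, hW1, hW2⟩ := hZ X G κ t (insert x (insert b (Y ∪ Z))) hκ0 hκ hbig hX (by
      refine le_trans (card_insert_le _ _) ?_
      have h1 := card_insert_le b (Y ∪ Z)
      have h2 := card_union_le Y Z
      omega) (by
      intro u hu
      rw [mem_insert, mem_insert, mem_union] at hu
      rcases hu with rfl | rfl | hu | hu
      · exact hxb
      · exact (hparts _ hbT).2.2.2
      · exact (hparts u (hYT u hu)).2.2.2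
      · exact (hZ1 u hu).2.1)
  refine ⟨x, b, Y, Z, W, hTx b hbT, hYc.ge, hZc.ge, hWc.ge, fun h => hYne b h rfl,
    fun h => (hZ1 x h).2.2.2.1 rfl, ?_, ?_, ?_, ?_⟩
  · intro u hu
    exact ⟨hTx u (hYT u hu), fun h => hTR b hbT u (hYT u hu) (hYne u hu).symm (Or.inl h)⟩
  · intro u hu
    exact ⟨(hZ1 u hu).1, (hZ1 u hu).2.2.1⟩
  · intro u hu
    exact ⟨(hW1 u hu).2 x (mem_insert_self _ _),
      (hW1 u hu).2 b (mem_insert_of_mem (mem_insert_self _ _))⟩
  · have hWS : ∀ w ∈ W, ∀ u ∈ Y ∪ Z, ¬ G.Adj u w := fun w hw u hu =>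
      (hW1 w hw).2 u (mem_insert_of_mem (mem_insert_of_mem hu))
    have hYY : ∀ u ∈ Y, ∀ v ∈ Y, ¬ G.Adj u v := fun u hu v hv h =>
      hTR u (hYT u hu) v (hYT v hv) h.ne (Or.inl h)
    have hYZ : ∀ u ∈ Y, ∀ v ∈ Z, ¬ G.Adj u v := fun u hu v hv => (hZ1 v hv).2.2.2.2 u hu
    intro u hu v hv
    rw [mem_union, mem_union] at hu hv
    rcases hu with (hu | hu) | hu <;> rcases hv with (hv | hv) | hv
    · exact hYY u hu v hv
    · exact hYZ u hu v hv
    · exact hWS v hv u (mem_union_left _ hu)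
    · exact fun h => hYZ v hv u hu h.symm
    · exact hZ2 u hu v hv
    · exact hWS v hv u (mem_union_right _ hu)
    · exact fun h => hWS u hu v (mem_union_left _ hv) h.symm
    · exact fun h => hWS u hu v (mem_union_right _ hv) h.symm
    · exact hW2 u hu v hv

end Pool.Agent.H698.HF
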