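import Pool.Agent.H698.HF.Stm

/-! # Case 2 of the structure theorem: many triangles -/

set_option autoImplicit false
set_option linter.unusedSectionVars false

open scoped Classical
open Finset
open Pool.Agent.H698.SF (Game nbr mem_nbr prs Bad nbad)

namespace Pool.Agent.H698.HF

namespace Case2L

variable {X : Type} [Fintype X] (G : SimpleGraph X)

theorem nbr_swap (f : X → X → ℝ) :
    ∑ b, ∑ x ∈ nbr G b, f b x = ∑ x, ∑ b ∈ nbr G x, f b x := by
  simp only [nbr, sum_filter]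
  rw [sum_comm]
  refine sum_congr rfl fun x _ => sum_congr rfl fun b _ => ?_
  simp only [G.adj_comm]

/-- the indicator -/
noncomputable def ind (p : Prop) : ℝ := if p then 1 else 0

theorem ind_nonneg (p : Prop) : 0 ≤ ind p := by unfold ind; split_ifs <;> norm_num

theorem ind_le_one (p : Prop) : ind p ≤ 1 := by unfold ind; split_ifs <;> norm_num

theorem ind_pos {p : Prop} (h : p) : ind p = 1 := if_pos h

theorem ind_neg {p : Prop} (h : ¬ p) : ind p = 0 := if_neg h

theorem sum_ind (S : Finset X) (p : X → Prop) [DecidablePred p] :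
    ∑ x ∈ S, ind (p x) = ((S.filter p).card : ℝ) := by
  unfold ind
  rw [card_filter]
  push_cast
  refine sum_congr rfl fun x _ => ?_
  congr

theorem dg_nonneg (x : X) : 0 ≤ dg G x := Nat.cast_nonneg _

theorem dg_pos {x y : X} (h : G.Adj x y) : 1 ≤ dg G x := by
  unfold dg
  have : 0 < (nbr G x).card := card_pos.2 ⟨y, (mem_nbr G).2 h⟩
  exact_mod_cast this

theorem J_nonneg (x y : X) : 0 ≤ J G x y := by unfold J; positivity

theorem union_le (x y : X) : (((nbr G x ∪ nbr G y).card : ℕ) : ℝ) ≤ dg G x + dg G y := by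
  unfold dg
  exact_mod_cast card_union_le _ _

theorem mem_low {M : ℝ} {x y : X} : y ∈ low G M x ↔ G.Adj x y ∧ M * dg G y ≤ dg G x := by
  unfold low
  rw [mem_filter, mem_nbr]

theorem low_le (M : ℝ) (x : X) : ((low G M x).card : ℝ) ≤ dg G x := by
  unfold low dg
  exact_mod_cast card_filter_le _ _

section sets

variable (κ M : ℝ)

/-- the neighbours of `x` which are adjacent to almost all of `low x` -/
noncomputable def AA (x : X) : Finset X :=
  (nbr G x).filter fun x' => ((low G M x \ nbr G x').card : ℝ) ≤ κ / 64 * (low G M x).card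

noncomputable def FF (x : X) : Finset X :=
  (low G M x).filter fun b => ((AA G κ M x).card : ℝ) / 4 < ((AA G κ M x \ nbr G b).card : ℝ)

noncomputable def EE (x : X) : Finset X :=
  (low G M x).filter fun b => κ / 8 * dg G b ≤ ((nbr G b ∩ AA G κ M x).card : ℝ) ∧
    ((AA G κ M x \ nbr G b).card : ℝ) ≤ ((AA G κ M x).card : ℝ) / 4

theorem double_count (x : X) :
    ∑ b ∈ low G M x, ((AA G κ M x \ nbr G b).card : ℝ) =
      ∑ x' ∈ AA G κ M x, ((low G M x \ nbr G x').card : ℝ) := by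
  have h1 := sum_card_bipartiteAbove_eq_sum_card_bipartiteBelow (s := low G M x)
    (t := AA G κ M x) fun b x' => ¬ G.Adj b x'
  have h2 : ∀ b, AA G κ M x \ nbr G b = (AA G κ M x).bipartiteAbove (fun b x' => ¬ G.Adj b x') b := by
    intro b
    ext z
    rw [mem_sdiff, mem_nbr, mem_bipartiteAbove]
  have h3 : ∀ x', low G M x \ nbr G x' =
      (low G M x).bipartiteBelow (fun b x' => ¬ G.Adj b x') x' := by
    intro b
    ext z
    rw [mem_sdiff, mem_nbr, mem_bipartiteBelow, G.adj_comm]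
  simp only [h2, h3]
  exact_mod_cast h1

theorem FF_le (hκ : 0 < κ) (x : X) : ((FF G κ M x).card : ℝ) ≤ κ / 16 * (low G M x).card := by
  rcases (AA G κ M x).card.eq_zero_or_pos with h0 | h0
  · have h1 : FF G κ M x = ∅ := by
      unfold FF
      rw [filter_eq_empty_iff]
      intro b _
      have h2 : (AA G κ M x \ nbr G b).card ≤ (AA G κ M x).card := card_le_card sdiff_subset
      rw [h0] at h2 ⊢
      have h3 : (AA G κ M x \ nbr G b).card = 0 := by omega
      rw [h3]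
      norm_num
    rw [h1, card_empty, Nat.cast_zero]
    positivity
  · have hA : (0 : ℝ) < (AA G κ M x).card := by exact_mod_cast h0
    have h1 : ((FF G κ M x).card : ℝ) * ((AA G κ M x).card / 4) ≤
        ∑ b ∈ low G M x, ((AA G κ M x \ nbr G b).card : ℝ) := by
      calc ((FF G κ M x).card : ℝ) * ((AA G κ M x).card / 4) =
          ∑ b ∈ FF G κ M x, ((AA G κ M x).card : ℝ) / 4 := by rw [sum_const, nsmul_eq_mul]
        _ ≤ ∑ b ∈ FF G κ M x, ((AA G κ M x \ nbr G b).card : ℝ) :=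
          sum_le_sum fun b hb => (mem_filter.1 hb).2.le
        _ ≤ _ := sum_le_sum_of_subset_of_nonneg (filter_subset _ _)
          fun b _ _ => Nat.cast_nonneg _
    have h2 : ∑ x' ∈ AA G κ M x, ((low G M x \ nbr G x').card : ℝ) ≤
        (AA G κ M x).card * (κ / 64 * (low G M x).card) := by
      rw [← nsmul_eq_mul, ← sum_const]
      exact sum_le_sum fun x' hx' => (mem_filter.1 hx').2
    rw [double_count] at h1
    have h3 := h1.trans h2
    have h4 : ((FF G κ M x).card : ℝ) * (AA G κ M x).card ≤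
        (κ / 16 * (low G M x).card) * (AA G κ M x).card := by nlinarith
    exact le_of_mul_le_mul_right h4 hA

theorem J_ge (hκ : 0 < κ) (x : X) {b b' : X} (hb : b ∈ EE G κ M x) (hb' : b' ∈ EE G κ M x) :
    κ / 32 ≤ J G b b' := by
  obtain ⟨hb1, hb2, hb3⟩ := mem_filter.1 hb
  obtain ⟨hb1', hb2', hb3'⟩ := mem_filter.1 hb'
  set A := AA G κ M x with hA
  have hd : 1 ≤ dg G b := dg_pos G ((mem_low G).1 hb1).1.symm
  have e1 : ((nbr G b ∩ A).card : ℝ) ≤ A.card := by exact_mod_cast card_le_card inter_subset_right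
  have e1' : ((nbr G b' ∩ A).card : ℝ) ≤ A.card := by exact_mod_cast card_le_card inter_subset_right
  have hApos : 0 < (A.card : ℝ) := by nlinarith
  have e2 : A.card ≤ (nbr G b ∩ nbr G b').card + ((A \ nbr G b).card + (A \ nbr G b').card) := by
    have h1 : A ⊆ (nbr G b ∩ nbr G b') ∪ ((A \ nbr G b) ∪ (A \ nbr G b')) := by
      intro z hz
      simp only [mem_union, mem_inter, mem_sdiff]
      tauto
    exact (card_le_card h1).trans ((card_union_le _ _).trans
      (Nat.add_le_add_left (card_union_le _ _) _))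
  have e3 : (A.card : ℝ) ≤ (nbr G b ∩ nbr G b').card +
      ((A \ nbr G b).card + (A \ nbr G b').card) := by exact_mod_cast e2
  have e4 : (A.card : ℝ) / 2 ≤ (nbr G b ∩ nbr G b').card := by linarith
  have e5 := union_le G b b'
  have e6 : (0 : ℝ) < (nbr G b ∪ nbr G b').card := by
    have : (nbr G b ∩ nbr G b').card ≤ (nbr G b ∪ nbr G b').card :=
      card_le_card (inter_subset_left.trans subset_union_left)
    have : ((nbr G b ∩ nbr G b').card : ℝ) ≤ (nbr G b ∪ nbr G b').card := by exact_mod_cast this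
    linarith
  unfold J
  rw [le_div_iff₀ e6]
  nlinarith

theorem S4_ge (hκ : 0 < κ) :
    ∑ x, κ / 32 * (((EE G κ M x).card : ℝ) ^ 2 / dg G x) ≤ S4 G := by
  unfold S4
  refine sum_le_sum fun x _ => ?_
  rw [← mul_div_assoc]
  refine div_le_div_of_nonneg_right ?_ (dg_nonneg G x)
  have hsub : EE G κ M x ⊆ nbr G x := fun b hb => (mem_filter.1 (mem_filter.1 hb).1).1
  calc κ / 32 * ((EE G κ M x).card : ℝ) ^ 2 =
      ∑ y ∈ EE G κ M x, ∑ z ∈ EE G κ M x, κ / 32 := by
        simp only [sum_const, nsmul_eq_mul]; ring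
    _ ≤ ∑ y ∈ EE G κ M x, ∑ z ∈ EE G κ M x, J G y z :=
        sum_le_sum fun y hy => sum_le_sum fun z hz => J_ge G κ M hκ x hy hz
    _ ≤ ∑ y ∈ EE G κ M x, ∑ z ∈ nbr G x, J G y z :=
        sum_le_sum fun y _ => sum_le_sum_of_subset_of_nonneg hsub fun z _ _ => J_nonneg G y z
    _ ≤ _ := sum_le_sum_of_subset_of_nonneg hsub
        fun y _ _ => sum_nonneg fun z _ => J_nonneg G y z

/-- the hypothesis on `G` -/
def Hyp (κ κ3 M : ℝ) : Prop :=
  ∀ x x', G.Adj x x' → x ∉ big G κ3 → x' ∉ big G κ3 →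
      κ / 16 * dg G x ≤ (low G M x).card → κ / 16 * dg G x' ≤ (low G M x').card →
      M ≤ dg G x → M ≤ dg G x' →
      ((low G M x \ nbr G x').card : ℝ) ≤ κ / 64 * (low G M x).card ∨
      ((low G M x' \ nbr G x).card : ℝ) ≤ κ / 64 * (low G M x').card

/-- the three exceptional events for `(b, x)` -/
noncomputable def exc (κ3 : ℝ) (b x : X) : ℝ :=
  ind (dg G x < M * dg G b) + ind (x ∈ big G κ3) +
    ind (b ∈ low G M x ∧ ((low G M x).card : ℝ) < κ / 16 * dg G x)

/-- the contribution of the triple -/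
noncomputable def ff (κ3 : ℝ) (b x x' : X) : ℝ :=
  ind (G.Adj x x') * exc G κ M κ3 b x + ind (b ∈ low G M x ∧ x' ∈ AA G κ M x)

theorem exc_nonneg (κ3 : ℝ) (b x : X) : 0 ≤ exc G κ M κ3 b x :=
  add_nonneg (add_nonneg (ind_nonneg _) (ind_nonneg _)) (ind_nonneg _)

theorem ff_nonneg (κ3 : ℝ) (b x x' : X) : 0 ≤ ff G κ M κ3 b x x' :=
  add_nonneg (mul_nonneg (ind_nonneg _) (exc_nonneg G κ M κ3 b x)) (ind_nonneg _)

theorem exc_ge_of {κ3 : ℝ} {b x : X} (h : dg G x < M * dg G b ∨ x ∈ big G κ3 ∨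
    (b ∈ low G M x ∧ ((low G M x).card : ℝ) < κ / 16 * dg G x)) : 1 ≤ exc G κ M κ3 b x := by
  have h1 := ind_nonneg (dg G x < M * dg G b)
  have h2 := ind_nonneg (x ∈ big G κ3)
  have h3 := ind_nonneg (b ∈ low G M x ∧ ((low G M x).card : ℝ) < κ / 16 * dg G x)
  unfold exc
  rcases h with h | h | h
  · rw [ind_pos h]; linarith
  · rw [ind_pos h]; linarith
  · rw [ind_pos h]; linarith

theorem pointwise {κ3 : ℝ} (hM : 1 ≤ M) (hyp : Hyp G κ κ3 M) {b x x' : X} (hbx : G.Adj b x)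
    (hbx' : G.Adj b x') : ind (G.Adj x x') ≤ ff G κ M κ3 b x x' + ff G κ M κ3 b x' x := by
  by_cases hxx : G.Adj x x'
  · have f1 := ff_nonneg G κ M κ3 b x x'
    have f2 := ff_nonneg G κ M κ3 b x' x
    rw [ind_pos hxx]
    by_cases c1 : dg G x < M * dg G b ∨ x ∈ big G κ3 ∨
        (b ∈ low G M x ∧ ((low G M x).card : ℝ) < κ / 16 * dg G x)
    · have h1 := exc_ge_of G κ M c1
      have h2 : 1 ≤ ff G κ M κ3 b x x' := by
        unfold ff
        rw [ind_pos hxx, one_mul]
        have := ind_nonneg (b ∈ low G M x ∧ x' ∈ AA G κ M x)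
        linarith
      linarith
    by_cases c2 : dg G x' < M * dg G b ∨ x' ∈ big G κ3 ∨
        (b ∈ low G M x' ∧ ((low G M x').card : ℝ) < κ / 16 * dg G x')
    · have h1 := exc_ge_of G κ M c2
      have h2 : 1 ≤ ff G κ M κ3 b x' x := by
        unfold ff
        rw [ind_pos hxx.symm, one_mul]
        have := ind_nonneg (b ∈ low G M x' ∧ x ∈ AA G κ M x')
        linarith
      linarith
    push Not at c1 c2
    have l1 : b ∈ low G M x := (mem_low G).2 ⟨hbx.symm, c1.1⟩
    have l2 : b ∈ low G M x' := (mem_low G).2 ⟨hbx'.symm, c2.1⟩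
    have hd : 1 ≤ dg G b := dg_pos G hbx
    have hMd : M ≤ M * dg G b := le_mul_of_one_le_right (by linarith) hd
    rcases hyp x x' hxx c1.2.1 c2.2.1 (c1.2.2 l1) (c2.2.2 l2) (hMd.trans c1.1)
      (hMd.trans c2.1) with h | h
    · have h2 : 1 ≤ ff G κ M κ3 b x x' := by
        unfold ff
        rw [ind_pos (p := b ∈ low G M x ∧ x' ∈ AA G κ M x)
          ⟨l1, mem_filter.2 ⟨(mem_nbr G).2 hxx, h⟩⟩]
        have := mul_nonneg (ind_nonneg (G.Adj x x')) (exc_nonneg G κ M κ3 b x)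
        linarith
      linarith
    · have h2 : 1 ≤ ff G κ M κ3 b x' x := by
        unfold ff
        rw [ind_pos (p := b ∈ low G M x' ∧ x ∈ AA G κ M x')
          ⟨l2, mem_filter.2 ⟨(mem_nbr G).2 hxx.symm, h⟩⟩]
        have := mul_nonneg (ind_nonneg (G.Adj x' x)) (exc_nonneg G κ M κ3 b x')
        linarith
      linarith
  · rw [ind_neg hxx]
    exact add_nonneg (ff_nonneg G κ M κ3 b x x') (ff_nonneg G κ M κ3 b x' x)

/-- the bound for `(b, x)` -/
noncomputable def hh (κ3 : ℝ) (b x : X) : ℝ :=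
  (M + 1) * J G b x + ind (x ∈ big G κ3) +
    ind (b ∈ low G M x ∧ ((low G M x).card : ℝ) < κ / 16 * dg G x) +
    ind (b ∈ EE G κ M x) + ind (b ∈ FF G κ M x) + κ / 8 * ind (b ∈ low G M x)

theorem sum_ff (κ3 : ℝ) (b x : X) : ∑ x' ∈ nbr G b, ff G κ M κ3 b x x' =
    ((nbr G b ∩ nbr G x).card : ℝ) * exc G κ M κ3 b x +
      ind (b ∈ low G M x) * ((nbr G b ∩ AA G κ M x).card : ℝ) := by
  unfold ff
  rw [sum_add_distrib, ← sum_mul, sum_ind]
  congr 1
  · congr 3
    ext z
    simp only [mem_filter, mem_inter, mem_nbr]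
  · by_cases h : b ∈ low G M x
    · simp only [h, true_and]
      rw [sum_ind, ind_pos trivial, one_mul, filter_mem_eq_inter]
    · simp only [h, false_and]
      rw [ind_neg not_false]
      simp

theorem bound (hκ : 0 < κ) (hM : 1 ≤ M) (κ3 : ℝ) {b x : X} (hbx : G.Adj b x) :
    (∑ x' ∈ nbr G b, ff G κ M κ3 b x x') / dg G b ≤ hh G κ M κ3 b x := by
  have hd : 1 ≤ dg G b := dg_pos G hbx
  have hd0 : 0 < dg G b := by linarith
  have hI : ((nbr G b ∩ nbr G x).card : ℝ) ≤ dg G b := by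
    unfold dg
    exact_mod_cast card_le_card inter_subset_left
  have hI2 : ((nbr G b ∩ AA G κ M x).card : ℝ) ≤ dg G b := by
    unfold dg
    exact_mod_cast card_le_card inter_subset_left
  have hI0 : (0 : ℝ) ≤ ((nbr G b ∩ nbr G x).card : ℝ) := Nat.cast_nonneg _
  have hr : ((nbr G b ∩ nbr G x).card : ℝ) / dg G b ≤ 1 := (div_le_one hd0).2 hI
  have hr0 : 0 ≤ ((nbr G b ∩ nbr G x).card : ℝ) / dg G b := div_nonneg hI0 hd0.le
  have hr2 : ((nbr G b ∩ AA G κ M x).card : ℝ) / dg G b ≤ 1 := (div_le_one hd0).2 hI2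
  rw [sum_ff, add_div]
  have e1 : ((nbr G b ∩ nbr G x).card : ℝ) * exc G κ M κ3 b x / dg G b =
      ((nbr G b ∩ nbr G x).card : ℝ) / dg G b * exc G κ M κ3 b x := by ring
  have e2 : ind (b ∈ low G M x) * ((nbr G b ∩ AA G κ M x).card : ℝ) / dg G b =
      ind (b ∈ low G M x) * (((nbr G b ∩ AA G κ M x).card : ℝ) / dg G b) := by ring
  rw [e1, e2]
  have p1 : ((nbr G b ∩ nbr G x).card : ℝ) / dg G b * ind (dg G x < M * dg G b) ≤
      (M + 1) * J G b x := by
    by_cases h : dg G x < M * dg G b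
    · rw [ind_pos h, mul_one]
      have h1 := union_le G b x
      have h2 : (0 : ℝ) < (nbr G b ∪ nbr G x).card := by
        have : dg G b ≤ (nbr G b ∪ nbr G x).card := by
          unfold dg
          exact_mod_cast card_le_card subset_union_left
        linarith
      unfold J
      rw [← mul_div_assoc, div_le_div_iff₀ hd0 h2]
      have h3 : ((nbr G b ∪ nbr G x).card : ℝ) ≤ (M + 1) * dg G b := by linarith
      calc _ ≤ ((nbr G b ∩ nbr G x).card : ℝ) * ((M + 1) * dg G b) :=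
            mul_le_mul_of_nonneg_left h3 hI0
        _ = _ := by ring
    · rw [ind_neg h, mul_zero]
      exact mul_nonneg (by linarith) (J_nonneg G b x)
  have p2 : ((nbr G b ∩ nbr G x).card : ℝ) / dg G b * ind (x ∈ big G κ3) ≤
      ind (x ∈ big G κ3) := mul_le_of_le_one_left (ind_nonneg _) hr
  have p3 : ((nbr G b ∩ nbr G x).card : ℝ) / dg G b *
      ind (b ∈ low G M x ∧ ((low G M x).card : ℝ) < κ / 16 * dg G x) ≤
      ind (b ∈ low G M x ∧ ((low G M x).card : ℝ) < κ / 16 * dg G x) :=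
    mul_le_of_le_one_left (ind_nonneg _) hr
  have p4 : ind (b ∈ low G M x) * (((nbr G b ∩ AA G κ M x).card : ℝ) / dg G b) ≤
      ind (b ∈ EE G κ M x) + ind (b ∈ FF G κ M x) + κ / 8 * ind (b ∈ low G M x) := by
    by_cases h : b ∈ low G M x
    · rw [ind_pos h, one_mul, mul_one]
      have i1 := ind_nonneg (b ∈ EE G κ M x)
      have i2 := ind_nonneg (b ∈ FF G κ M x)
      by_cases hF : b ∈ FF G κ M x
      · rw [ind_pos hF]; linarith
      · by_cases hE : b ∈ EE G κ M x
        · rw [ind_pos hE]; linarith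
        · have h1 : ¬ (((AA G κ M x).card : ℝ) / 4 < ((AA G κ M x \ nbr G b).card : ℝ)) :=
            fun hh => hF (mem_filter.2 ⟨h, hh⟩)
          have h2 : ¬ (κ / 8 * dg G b ≤ ((nbr G b ∩ AA G κ M x).card : ℝ)) :=
            fun hh => hE (mem_filter.2 ⟨h, hh, not_lt.1 h1⟩)
          have h3 : ((nbr G b ∩ AA G κ M x).card : ℝ) / dg G b ≤ κ / 8 :=
            (div_le_iff₀ hd0).2 (not_le.1 h2).le
          linarith
    · rw [ind_neg h]
      have i1 := ind_nonneg (b ∈ EE G κ M x)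
      have i2 := ind_nonneg (b ∈ FF G κ M x)
      linarith
  unfold exc hh
  rw [mul_add, mul_add]
  linarith

theorem Tri_le (hκ : 0 < κ) (hM : 1 ≤ M) {κ3 : ℝ} (hyp : Hyp G κ κ3 M) :
    Tri G ≤ 2 * ∑ b, ∑ x ∈ nbr G b, hh G κ M κ3 b x := by
  unfold Tri
  rw [mul_sum]
  refine sum_le_sum fun b _ => ?_
  have h1 : ∑ x ∈ nbr G b, ((nbr G b ∩ nbr G x).card : ℝ) =
      ∑ x ∈ nbr G b, ∑ x' ∈ nbr G b, ind (G.Adj x x') := by
    refine sum_congr rfl fun x _ => ?_
    rw [sum_ind]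
    congr 2
    ext z
    simp only [mem_filter, mem_inter, mem_nbr]
  have h2 : ∑ x ∈ nbr G b, ∑ x' ∈ nbr G b, ind (G.Adj x x') ≤
      2 * ∑ x ∈ nbr G b, ∑ x' ∈ nbr G b, ff G κ M κ3 b x x' := by
    calc _ ≤ ∑ x ∈ nbr G b, ∑ x' ∈ nbr G b, (ff G κ M κ3 b x x' + ff G κ M κ3 b x' x) :=
          sum_le_sum fun x hx => sum_le_sum fun x' hx' =>
            pointwise G κ M hM hyp ((mem_nbr G).1 hx) ((mem_nbr G).1 hx')
      _ = (∑ x ∈ nbr G b, ∑ x' ∈ nbr G b, ff G κ M κ3 b x x') +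
          ∑ x ∈ nbr G b, ∑ x' ∈ nbr G b, ff G κ M κ3 b x' x := by
            simp only [sum_add_distrib]
      _ = _ := by
            rw [sum_comm (f := fun x x' => ff G κ M κ3 b x' x)]
            ring
  rw [h1]
  calc _ ≤ (2 * ∑ x ∈ nbr G b, ∑ x' ∈ nbr G b, ff G κ M κ3 b x x') / dg G b :=
        div_le_div_of_nonneg_right h2 (dg_nonneg G b)
    _ = 2 * ∑ x ∈ nbr G b, (∑ x' ∈ nbr G b, ff G κ M κ3 b x x') / dg G b := by
        rw [mul_div_assoc, sum_div]
    _ ≤ _ := mul_le_mul_of_nonneg_left (sum_le_sum fun x hx =>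
        bound G κ M hκ hM κ3 ((mem_nbr G).1 hx)) (by norm_num)

theorem sum_hh (hκ : 0 < κ) (κ3 : ℝ) :
    ∑ b, ∑ x ∈ nbr G b, hh G κ M κ3 b x ≤ (M + 1) * S3 G + ∑ x ∈ big G κ3, dg G x +
      κ / 16 * P G + ∑ x, ((EE G κ M x).card : ℝ) + κ / 16 * P G + κ / 8 * P G := by
  unfold hh
  simp only [sum_add_distrib]
  have h1 : ∑ b, ∑ x ∈ nbr G b, (M + 1) * J G b x = (M + 1) * S3 G := by
    unfold S3
    simp only [mul_sum]
  have h2 : ∑ b, ∑ x ∈ nbr G b, ind (x ∈ big G κ3) = ∑ x ∈ big G κ3, dg G x := by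
    rw [nbr_swap G fun b x => ind (x ∈ big G κ3)]
    simp only [sum_const, nsmul_eq_mul]
    rw [← sum_filter_add_sum_filter_not univ (fun x => x ∈ big G κ3)]
    have h3 : (univ.filter fun x => x ∈ big G κ3) = big G κ3 := by simp
    rw [h3]
    rw [sum_congr rfl fun x hx => by rw [ind_pos hx, mul_one]]
    rw [sum_eq_zero (s := univ.filter fun x => ¬ x ∈ big G κ3) fun x hx => by
      rw [ind_neg (mem_filter.1 hx).2, mul_zero], add_zero]
    rfl
  have h3 : ∑ b, ∑ x ∈ nbr G b, ind (b ∈ low G M x ∧ ((low G M x).card : ℝ) < κ / 16 * dg G x) ≤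
      κ / 16 * P G := by
    rw [nbr_swap G fun b x => ind (b ∈ low G M x ∧ ((low G M x).card : ℝ) < κ / 16 * dg G x)]
    unfold P
    rw [mul_sum]
    refine sum_le_sum fun x _ => ?_
    rw [sum_ind]
    by_cases h : ((low G M x).card : ℝ) < κ / 16 * dg G x
    · refine le_trans ?_ h.le
      have : ((nbr G x).filter fun b => b ∈ low G M x ∧
        ((low G M x).card : ℝ) < κ / 16 * dg G x).card ≤ (low G M x).card :=
        card_le_card fun b hb => (mem_filter.1 hb).2.1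
      exact_mod_cast this
    · have : ((nbr G x).filter fun b => b ∈ low G M x ∧
        ((low G M x).card : ℝ) < κ / 16 * dg G x) = ∅ := by
        rw [filter_eq_empty_iff]
        exact fun b _ hb => h hb.2
      rw [this, card_empty, Nat.cast_zero]
      have := dg_nonneg G x
      positivity
  have h4 : ∑ b, ∑ x ∈ nbr G b, ind (b ∈ EE G κ M x) = ∑ x, ((EE G κ M x).card : ℝ) := by
    rw [nbr_swap G fun b x => ind (b ∈ EE G κ M x)]
    refine sum_congr rfl fun x _ => ?_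
    rw [sum_ind]
    congr 2
    ext b
    simp only [mem_filter]
    constructor
    · exact fun h => h.2
    · exact fun h => ⟨(mem_filter.1 (mem_filter.1 h).1).1, h⟩
  have h5 : ∑ b, ∑ x ∈ nbr G b, ind (b ∈ FF G κ M x) ≤ κ / 16 * P G := by
    rw [nbr_swap G fun b x => ind (b ∈ FF G κ M x)]
    unfold P
    rw [mul_sum]
    refine sum_le_sum fun x _ => ?_
    rw [sum_ind]
    have h6 : (((nbr G x).filter fun b => b ∈ FF G κ M x).card : ℝ) ≤ (FF G κ M x).card := by
      exact_mod_cast card_le_card fun b hb => (mem_filter.1 hb).2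
    refine h6.trans ((FF_le G κ M hκ x).trans ?_)
    exact mul_le_mul_of_nonneg_left (low_le G M x) (by positivity)
  have h6 : ∑ b, ∑ x ∈ nbr G b, κ / 8 * ind (b ∈ low G M x) ≤ κ / 8 * P G := by
    rw [nbr_swap G fun b x => κ / 8 * ind (b ∈ low G M x)]
    unfold P
    rw [mul_sum]
    refine sum_le_sum fun x _ => ?_
    rw [← mul_sum]
    refine mul_le_mul_of_nonneg_left ?_ (by positivity)
    calc ∑ b ∈ nbr G x, ind (b ∈ low G M x) ≤ ∑ b ∈ nbr G x, (1 : ℝ) :=
          sum_le_sum fun _ _ => ind_le_one _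
      _ = dg G x := by rw [sum_const, nsmul_eq_mul, mul_one]; rfl
  rw [h1, h2, h4]
  linarith

end sets

end Case2L

theorem case2 : S_CASE2 := by
  intro X _ G κ κ3 M hκ hκ1 hM hTri hbig hS3 hyp
  have h1 := Case2L.Tri_le G κ M hκ hM hyp
  have h2 := Case2L.sum_hh G κ M hκ κ3
  have h3 : κ / 16 * P G ≤ ∑ x, ((Case2L.EE G κ M x).card : ℝ) := by linarith
  have h4 := Case2L.S4_ge G κ M hκ
  have h5 : ∑ x, (2 * (κ / 16) * ((Case2L.EE G κ M x).card : ℝ) - (κ / 16) ^ 2 * dg G x) ≤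
      ∑ x, ((Case2L.EE G κ M x).card : ℝ) ^ 2 / dg G x := by
    refine sum_le_sum fun x _ => ?_
    rcases (Case2L.dg_nonneg G x).eq_or_lt with h0 | h0
    · have h6 : ((Case2L.EE G κ M x).card : ℝ) ≤ dg G x := by
        refine le_trans ?_ (Case2L.low_le G M x)
        exact_mod_cast card_le_card (filter_subset _ _)
      have h7 : ((Case2L.EE G κ M x).card : ℝ) = 0 :=
        le_antisymm (h6.trans h0.symm.le) (Nat.cast_nonneg _)
      rw [h7, ← h0]
      simp
    · rw [le_div_iff₀ h0]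
      nlinarith [sq_nonneg (((Case2L.EE G κ M x).card : ℝ) - κ / 16 * dg G x)]
  rw [sum_sub_distrib, ← mul_sum, ← mul_sum] at h5
  rw [← mul_sum] at h4
  have h6 : (κ / 16) ^ 2 * P G ≤ ∑ x, ((Case2L.EE G κ M x).card : ℝ) ^ 2 / dg G x := by
    have h7 : 2 * (κ / 16) * (κ / 16 * P G) ≤
        2 * (κ / 16) * ∑ x, ((Case2L.EE G κ M x).card : ℝ) :=
      mul_le_mul_of_nonneg_left h3 (by positivity)
    have h8 : ∑ x, dg G x = P G := rfl
    rw [h8] at h5
    nlinarith
  have h7 : κ / 32 * ((κ / 16) ^ 2 * P G) ≤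
      κ / 32 * ∑ x, ((Case2L.EE G κ M x).card : ℝ) ^ 2 / dg G x :=
    mul_le_mul_of_nonneg_left h6 (by positivity)
  calc κ ^ 3 / 8192 * P G = κ / 32 * ((κ / 16) ^ 2 * P G) := by ring
    _ ≤ _ := h7.trans h4

end Pool.Agent.H698.HF
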