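import Mathlib

set_option autoImplicit false

/-! # Circuits that compute with partial information (helper698)

The inputs are bits `e : E`, each of which is known to be true, known to be false or unknown
(`Know E := E → Option Bool`).  The gates have values in a partially ordered set `D` of states of
knowledge and apply arbitrary functions `D → D → D` that are nondecreasing, that is, more knowledge
about the arguments gives more knowledge about the value.
-/

namespace Pool.Agent.H698.HF

/-- partial knowledge about bits: `some b` means known to be `b`, `none` means unknown -/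
abbrev Know (E : Type) : Type := E → Option Bool

/-- `Q` contains the knowledge of `P` -/
def Le {E : Type} (P Q : Know E) : Prop := ∀ e, P e = none ∨ P e = Q e

/-- the order on the states of knowledge is tree-like: what lies below a state is a chain which is
isomorphic to a set of real numbers -/
def TreeLike (D : Type) [PartialOrder D] : Prop :=
  ∀ a : D, ∃ f : D → ℝ, ∀ x ≤ a, ∀ y ≤ a, (x ≤ y ↔ f x ≤ f y)

/-- `Circ l`: `l` is the list of the functions computed at the gates of a circuit (last gate
first).  An input gate reads one bit `e`; it translates unknown, known true and known false into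
elements of `D`, the one for unknown being below the other two.  A constant gate has a fixed value.
Each other gate applies a function of two arguments, nondecreasing in both, to the values of two
earlier gates. -/
inductive Circ {E D : Type} [PartialOrder D] : List (Know E → D) → Prop
  | nil : Circ []
  | input {l : List (Know E → D)} (e : E) (i : Option Bool → D) :
      Circ l → (∀ b, i none ≤ i (some b)) → Circ ((fun P => i (P e)) :: l)
  | const {l : List (Know E → D)} (c : D) : Circ l → Circ ((fun _ => c) :: l)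
  | gate {l : List (Know E → D)} {φ : D → D → D} {f g : Know E → D} :
      Circ l → (∀ a a' b b', a ≤ a' → b ≤ b' → φ a b ≤ φ a' b') → f ∈ l → g ∈ l →
      Circ ((fun P => φ (f P) (g P)) :: l)

/-- only the true bits are known -/
noncomputable def truths {E : Type} (b : E → Prop) : Know E :=
  open Classical in fun e => if b e then some true else none

/-- all bits are known -/
noncomputable def full {E : Type} (b : E → Prop) : Know E :=
  open Classical in fun e => some (decide (b e))

section

variable {E D : Type} [PartialOrder D]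

theorem Circ.mono {l : List (Know E → D)} (hl : Circ l) : ∀ g ∈ l, ∀ P Q, Le P Q → g P ≤ g Q := by
  induction hl with
  | nil => intro g hg; exact absurd hg (by simp)
  | @input l e i _ hi ih =>
    intro g hg P Q h
    rcases List.mem_cons.1 hg with rfl | hg
    · show i (P e) ≤ i (Q e)
      rcases h e with h | h
      · rw [h]
        cases hq : Q e with
        | none => exact le_rfl
        | some b => exact hi b
      · rw [h]
    · exact ih g hg P Q h
  | @const l c _ ih =>
    intro g hg P Q h
    rcases List.mem_cons.1 hg with rfl | hg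
    · exact le_rfl
    · exact ih g hg P Q h
  | @gate l φ f g' _ hφ hf hg' ih =>
    intro g hg P Q h
    rcases List.mem_cons.1 hg with rfl | hg
    · exact hφ _ _ _ _ (ih f hf P Q h) (ih g' hg' P Q h)
    · exact ih g hg P Q h

theorem truths_le_truths {b c : E → Prop} (h : ∀ e, b e → c e) : Le (truths b) (truths c) := by
  intro e
  unfold truths
  by_cases hb : b e
  · right; rw [if_pos hb, if_pos (h e hb)]
  · left; rw [if_neg hb]

theorem truths_le_full (b : E → Prop) : Le (truths b) (full b) := by
  intro e
  unfold truths full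
  by_cases hb : b e
  · right; rw [if_pos hb]; simp [hb]
  · left; rw [if_neg hb]

/-- a bounded order representation of the lower set of a point of a tree-like order in which a
given upper set is the set of the points of value at least one -/
theorem rep (hD : TreeLike D) (a : D) (A : Set D) (hA : IsUpperSet A) :
    ∃ f : D → ℝ, (∀ x, -2 < f x ∧ f x < 4) ∧ (∀ x ≤ a, ∀ y ≤ a, (x ≤ y ↔ f x ≤ f y)) ∧
      ∀ x ≤ a, (x ∈ A ↔ 1 ≤ f x) := by
  classical
  obtain ⟨f0, hf0⟩ := hD a
  let s : ℝ → ℝ := fun t => t / (1 + |t|)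
  have hs1 : ∀ t, -1 < s t ∧ s t < 1 := by
    intro t
    have h1 : 0 < 1 + |t| := by positivity
    refine ⟨?_, ?_⟩
    · show -1 < t / (1 + |t|)
      rw [lt_div_iff₀ h1]
      have := neg_abs_le t
      linarith
    · show t / (1 + |t|) < 1
      rw [div_lt_one h1]
      have := le_abs_self t
      linarith
  have hs2 : StrictMono s := by
    intro x y hxy
    have h1 : 0 < 1 + |x| := by positivity
    have h2 : 0 < 1 + |y| := by positivity
    show x / (1 + |x|) < y / (1 + |y|)
    rw [div_lt_div_iff₀ h1 h2]
    rcases le_or_gt 0 x with hx | hx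
    · have hy : 0 ≤ y := by linarith
      rw [abs_of_nonneg hx, abs_of_nonneg hy]
      nlinarith
    · rcases le_or_gt 0 y with hy | hy
      · rw [abs_of_neg hx, abs_of_nonneg hy]
        nlinarith
      · rw [abs_of_neg hx, abs_of_neg hy]
        nlinarith
  refine ⟨fun x => s (f0 x) + if x ∈ A then 2 else 0, fun x => ?_, fun x hx y hy => ?_,
    fun x _ => ?_⟩
  · have h := hs1 (f0 x)
    dsimp only
    split_ifs <;> constructor <;> linarith [h.1, h.2]
  · have h := hf0 x hx y hy
    have h1 := hs1 (f0 x)
    have h2 := hs1 (f0 y)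
    dsimp only
    constructor
    · intro hxy
      have h3 : s (f0 x) ≤ s (f0 y) := hs2.monotone (h.1 hxy)
      by_cases hxA : x ∈ A
      · rw [if_pos hxA, if_pos (hA hxy hxA)]
        linarith
      · rw [if_neg hxA]
        split_ifs <;> linarith
    · intro hxy
      rw [h]
      by_contra hcon
      push Not at hcon
      have h3 : s (f0 y) < s (f0 x) := hs2 hcon
      by_cases hyA : y ∈ A
      · have hyx : y ≤ x := (hf0 y hy x hx).2 hcon.le
        rw [if_pos (hA hyx hyA), if_pos hyA] at hxy
        linarith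
      · rw [if_neg hyA] at hxy
        split_ifs at hxy <;> linarith
  · have h := hs1 (f0 x)
    dsimp only
    constructor
    · intro hx
      rw [if_pos hx]
      linarith [h.1]
    · intro hx
      by_contra hcon
      rw [if_neg hcon] at hx
      linarith [h.2]

/-- the real gate that simulates a gate -/
theorem sim_gate {X : Type} (hD : TreeLike D) (A : Set D) (hA : IsUpperSet A)
    (φ : D → D → D) (hφ : ∀ a a' b b', a ≤ a' → b ≤ b' → φ a b ≤ φ a' b')
    (g1 g2 : X → D) (t1 t2 : D) (h1 : ∀ x, g1 x ≤ t1) (h2 : ∀ x, g2 x ≤ t2)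
    (F1 F2 : X → ℝ) (hF1 : ∀ x y, g1 x ≤ g1 y ↔ F1 x ≤ F1 y)
    (hF2 : ∀ x y, g2 x ≤ g2 y ↔ F2 x ≤ F2 y) :
    ∃ Φ : ℝ → ℝ → ℝ, (∀ a a' b b', a ≤ a' → b ≤ b' → Φ a b ≤ Φ a' b') ∧
      (∀ x y, φ (g1 x) (g2 x) ≤ φ (g1 y) (g2 y) ↔ Φ (F1 x) (F2 x) ≤ Φ (F1 y) (F2 y)) ∧
      ∀ x, φ (g1 x) (g2 x) ∈ A ↔ 1 ≤ Φ (F1 x) (F2 x) := by
  obtain ⟨f, hf1, hf2, hf3⟩ := rep hD (φ t1 t2) A hA
  have htop : ∀ x y, φ (g1 x) (g2 y) ≤ φ t1 t2 := fun x y => hφ _ _ _ _ (h1 x) (h2 y)
  let S : ℝ → ℝ → Set ℝ := fun s t =>
    insert (-2) {r | ∃ x y, F1 x ≤ s ∧ F2 y ≤ t ∧ r = f (φ (g1 x) (g2 y))}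
  have hS0 : ∀ s t, (S s t).Nonempty := fun s t => ⟨-2, Or.inl rfl⟩
  have hSb : ∀ s t, BddAbove (S s t) := by
    intro s t
    refine ⟨4, ?_⟩
    rintro r (rfl | ⟨x, y, -, -, rfl⟩)
    · norm_num
    · exact (hf1 _).2.le
  let Φ : ℝ → ℝ → ℝ := fun s t => sSup (S s t)
  have hval : ∀ z, Φ (F1 z) (F2 z) = f (φ (g1 z) (g2 z)) := by
    intro z
    apply le_antisymm
    · apply csSup_le (hS0 _ _)
      rintro r (rfl | ⟨x, y, hx, hy, rfl⟩)
      · exact (hf1 _).1.le
      · exact (hf2 _ (htop x y) _ (htop z z)).1
          (hφ _ _ _ _ ((hF1 x z).2 hx) ((hF2 y z).2 hy))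
    · exact le_csSup (hSb _ _) (Or.inr ⟨z, z, le_rfl, le_rfl, rfl⟩)
  refine ⟨Φ, ?_, ?_, ?_⟩
  · intro a a' b b' ha hb
    apply csSup_le_csSup (hSb _ _) (hS0 _ _)
    rintro r (rfl | ⟨x, y, hx, hy, rfl⟩)
    · exact Or.inl rfl
    · exact Or.inr ⟨x, y, hx.trans ha, hy.trans hb, rfl⟩
  · intro x y
    rw [hval, hval]
    exact hf2 _ (htop x x) _ (htop y y)
  · intro x
    rw [hval]
    exact hf3 _ (htop x x)

/-- the circuit is simulated by a circuit of monotone real gates (`Pr` is any notion of such
circuits) with the same number of gates -/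
theorem simulate {X : Type} (hD : TreeLike D) (b : X → E → Prop)
    (Pr : List (X → ℝ) → Prop) (hnil : Pr [])
    (hbit : ∀ l e, Pr l → Pr ((open Classical in fun x => if b x e then 1 else 0) :: l))
    (hconst : ∀ l (c : ℝ), Pr l → Pr ((fun _ => c) :: l))
    (hgate : ∀ l (Φ : ℝ → ℝ → ℝ) (F G : X → ℝ), Pr l →
      (∀ a a' b b', a ≤ a' → b ≤ b' → Φ a b ≤ Φ a' b') → F ∈ l → G ∈ l →
      Pr ((fun x => Φ (F x) (G x)) :: l))
    {l : List (Know E → D)} (hl : Circ l) :
    ∃ l' : List (X → ℝ), Pr l' ∧ l'.length = l.length ∧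
      ∀ g ∈ l, ∃ F ∈ l', ∀ x y, g (truths (b x)) ≤ g (truths (b y)) ↔ F x ≤ F y := by
  induction hl with
  | nil => exact ⟨[], hnil, rfl, fun g hg => absurd hg (by simp)⟩
  | @input l e i hl hi ih =>
    obtain ⟨l', h1, h2, h3⟩ := ih
    by_cases hlt : i (some true) ≤ i none
    · refine ⟨(fun _ => 0) :: l', hconst l' 0 h1, by simp [h2], fun g hg => ?_⟩
      rcases List.mem_cons.1 hg with rfl | hg
      · refine ⟨fun _ => 0, List.mem_cons_self, fun x y => ?_⟩
        have hc : ∀ z : X, i (truths (b z) e) = i none := by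
          intro z
          unfold truths
          split_ifs
          · exact le_antisymm hlt (hi true)
          · rfl
        simp only [hc, le_refl]
      · obtain ⟨F, hF, hF'⟩ := h3 g hg
        exact ⟨F, List.mem_cons_of_mem _ hF, hF'⟩
    · refine ⟨_ :: l', hbit l' e h1, by simp [h2], fun g hg => ?_⟩
      rcases List.mem_cons.1 hg with rfl | hg
      · refine ⟨_, List.mem_cons_self, fun x y => ?_⟩
        unfold truths
        by_cases hx : b x e <;> by_cases hy : b y e
        · simp [hx, hy]
        · simp only [hx, hy, if_true, if_false]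
          constructor
          · intro h; exact absurd h hlt
          · intro h; norm_num at h
        · simp only [hx, hy, if_true, if_false]
          constructor
          · intro _; norm_num
          · intro _; exact hi true
        · simp [hx, hy]
      · obtain ⟨F, hF, hF'⟩ := h3 g hg
        exact ⟨F, List.mem_cons_of_mem _ hF, hF'⟩
  | @const l c hl ih =>
    obtain ⟨l', h1, h2, h3⟩ := ih
    refine ⟨(fun _ => 0) :: l', hconst l' 0 h1, by simp [h2], fun g hg => ?_⟩
    rcases List.mem_cons.1 hg with rfl | hg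
    · exact ⟨fun _ => 0, List.mem_cons_self, fun x y => by simp⟩
    · obtain ⟨F, hF, hF'⟩ := h3 g hg
      exact ⟨F, List.mem_cons_of_mem _ hF, hF'⟩
  | @gate l φ f g' hl hφ hf hg' ih =>
    obtain ⟨l', h1, h2, h3⟩ := ih
    obtain ⟨F1, hF1, hF1'⟩ := h3 f hf
    obtain ⟨F2, hF2, hF2'⟩ := h3 g' hg'
    have htop : ∀ x : X, Le (truths (b x)) (truths fun _ : E => True) :=
      fun x => truths_le_truths fun _ _ => trivial
    obtain ⟨Φ, hΦ1, hΦ2, -⟩ := sim_gate hD Set.univ isUpperSet_univ φ hφ
      (fun x => f (truths (b x))) (fun x => g' (truths (b x)))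
      (f (truths fun _ : E => True)) (g' (truths fun _ : E => True))
      (fun x => hl.mono f hf _ _ (htop x)) (fun x => hl.mono g' hg' _ _ (htop x)) F1 F2 hF1' hF2'
    refine ⟨_ :: l', hgate l' Φ F1 F2 h1 hΦ1 hF1 hF2, by simp [h2], fun g hg => ?_⟩
    rcases List.mem_cons.1 hg with rfl | hg
    · exact ⟨_, List.mem_cons_self, hΦ2⟩
    · obtain ⟨F, hF, hF'⟩ := h3 g hg
      exact ⟨F, List.mem_cons_of_mem _ hF, hF'⟩

/-- simulation of a circuit with an output gate and an upper set of accepting values -/
theorem simulate_out {X : Type} (hD : TreeLike D) (b : X → E → Prop)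
    (Pr : List (X → ℝ) → Prop) (hnil : Pr [])
    (hbit : ∀ l e, Pr l → Pr ((open Classical in fun x => if b x e then 1 else 0) :: l))
    (hconst : ∀ l (c : ℝ), Pr l → Pr ((fun _ => c) :: l))
    (hgate : ∀ l (Φ : ℝ → ℝ → ℝ) (F G : X → ℝ), Pr l →
      (∀ a a' b b', a ≤ a' → b ≤ b' → Φ a b ≤ Φ a' b') → F ∈ l → G ∈ l →
      Pr ((fun x => Φ (F x) (G x)) :: l))
    {l : List (Know E → D)} (hl : Circ l) (A : Set D) (hA : IsUpperSet A)
    {out : Know E → D} (hout : out ∈ l) :
    ∃ l' : List (X → ℝ), Pr l' ∧ l'.length = l.length + 1 ∧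
      ∃ F ∈ l', ∀ x, out (truths (b x)) ∈ A ↔ 1 ≤ F x := by
  obtain ⟨l', h1, h2, h3⟩ := simulate hD b Pr hnil hbit hconst hgate hl
  obtain ⟨F, hF, hF'⟩ := h3 out hout
  have htop : ∀ x : X, Le (truths (b x)) (truths fun _ : E => True) :=
    fun x => truths_le_truths fun _ _ => trivial
  obtain ⟨Φ, hΦ1, -, hΦ3⟩ := sim_gate hD A hA (fun s _ => s) (fun _ _ _ _ h _ => h)
    (fun x => out (truths (b x))) (fun x => out (truths (b x)))
    (out (truths fun _ : E => True)) (out (truths fun _ : E => True))
    (fun x => hl.mono out hout _ _ (htop x)) (fun x => hl.mono out hout _ _ (htop x)) F F hF' hF'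
  exact ⟨_ :: l', hgate l' Φ F F h1 hΦ1 hF hF, by simp [h2], _, List.mem_cons_self, hΦ3⟩

end

/-- monotone real circuits, read as circuits that compute with partial information -/
theorem treeLike_real : TreeLike ℝ := fun _ => ⟨id, fun _ _ _ _ => Iff.rfl⟩

/-- the flat order: `unknown` below all the values, different values incomparable -/
inductive Flat (A : Type) : Type
  | unknown : Flat A
  | known : A → Flat A

namespace Flat

variable {A : Type}

instance : PartialOrder (Flat A) where
  le x y := x = unknown ∨ x = y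
  le_refl x := Or.inr rfl
  le_trans x y z h h' := by
    rcases h with h | h
    · exact Or.inl h
    · rcases h' with h' | h'
      · exact Or.inl (h.trans h')
      · exact Or.inr (h.trans h')
  le_antisymm x y h h' := by
    rcases h with h | h
    · rcases h' with h' | h'
      · rw [h, h']
      · exact h'.symm
    · exact h

theorem le_iff {x y : Flat A} : x ≤ y ↔ x = unknown ∨ x = y := Iff.rfl

theorem treeLike : TreeLike (Flat A) := by
  classical
  intro a
  refine ⟨fun x => if x = unknown then 0 else 1, fun x hx y hy => ?_⟩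
  rw [le_iff] at hx hy ⊢
  by_cases h1 : x = unknown
  · simp only [h1, true_or, if_true, true_iff]
    split_ifs <;> norm_num
  · by_cases h2 : y = unknown
    · simp only [h1, h2, if_true, if_false, false_or]
      constructor
      · intro h; exact absurd h (by simpa using h1)
      · intro h; norm_num at h
    · have h3 : x = a := hx.resolve_left h1
      have h4 : y = a := hy.resolve_left h2
      simp [h1, h2, h3, h4]

/-- the most precise extension of a function `f` of two arguments: the value is known to be `c` if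
`f` has the value `c` for all possible arguments (at least one pair of arguments is possible) -/
noncomputable def ext (f : A → A → A) (x y : Flat A) : Flat A :=
  open Classical in
  if h : ∃ c, (∃ a b, x ≤ known a ∧ y ≤ known b) ∧
      ∀ a b, x ≤ known a → y ≤ known b → f a b = c
  then known h.choose else unknown

theorem ext_mono (f : A → A → A) (x x' y y' : Flat A) (hx : x ≤ x') (hy : y ≤ y')
    (hx' : ∃ a, x' ≤ known a) (hy' : ∃ b, y' ≤ known b) : ext f x y ≤ ext f x' y' := by
  classical
  by_cases h : ∃ c, (∃ a b, x ≤ known a ∧ y ≤ known b) ∧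
      ∀ a b, x ≤ known a → y ≤ known b → f a b = c
  · have h' : ∃ c, (∃ a b, x' ≤ known a ∧ y' ≤ known b) ∧
      ∀ a b, x' ≤ known a → y' ≤ known b → f a b = c := by
      obtain ⟨c, -, hc⟩ := h
      obtain ⟨a, ha⟩ := hx'
      obtain ⟨b, hb⟩ := hy'
      exact ⟨c, ⟨a, b, ha, hb⟩, fun a b ha hb => hc a b (hx.trans ha) (hy.trans hb)⟩
    have e1 : ext f x y = known h.choose := by unfold ext; rw [dif_pos h]
    have e2 : ext f x' y' = known h'.choose := by unfold ext; rw [dif_pos h']
    rw [e1, e2]
    have s1 := h.choose_spec.2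
    have s2 := h'.choose_spec.2
    obtain ⟨a, ha⟩ := hx'
    obtain ⟨b, hb⟩ := hy'
    rw [← s1 a b (hx.trans ha) (hy.trans hb), ← s2 a b ha hb]
  · have e1 : ext f x y = unknown := by unfold ext; rw [dif_neg h]
    rw [e1]
    exact Or.inl rfl

theorem ext_mono' [Nonempty A] (f : A → A → A) (x x' y y' : Flat A) (hx : x ≤ x') (hy : y ≤ y') :
    ext f x y ≤ ext f x' y' := by
  have h : ∀ z : Flat A, ∃ a, z ≤ known a := by
    intro z
    cases z with
    | unknown => exact ⟨Classical.arbitrary A, Or.inl rfl⟩
    | known a => exact ⟨a, le_rfl⟩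
  exact ext_mono f x x' y y' hx hy (h x') (h y')

end Flat

end Pool.Agent.H698.HF
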