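import Pool.Agent.H698.SF.Defs

/-! # Unique games on graphs without an induced subgraph `H`: definitions -/

set_option autoImplicit false

open scoped Classical
open Finset
open Pool.Agent.H698.SF (Game)

namespace Pool.Agent.H698.HF

/-- `H` is bipartite: its vertices are two independent sets. -/
def Bip {W : Type} (H : SimpleGraph W) : Prop :=
  ∃ A : Set W, (∀ u ∈ A, ∀ v ∈ A, ¬ H.Adj u v) ∧ ∀ u ∉ A, ∀ v ∉ A, ¬ H.Adj u v

/-- `H` is a split graph: its vertices are a clique and an independent set. -/
def Split {W : Type} (H : SimpleGraph W) : Prop :=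
  ∃ A : Set W, (∀ u ∈ A, ∀ v ∈ A, u ≠ v → H.Adj u v) ∧ ∀ u ∉ A, ∀ v ∉ A, ¬ H.Adj u v

/-! ### The hub labelling -/

section

variable {X Q : Type} [Fintype X]

/-- The first neighbour of `u` in the order `σ`; it is `u` itself if `u` has no neighbours. -/
noncomputable def first (G : SimpleGraph X) (σ : SF.Ord X) (u : X) : X :=
  if h : (univ.filter fun w => G.Adj u w).Nonempty then
    (exists_min_image (univ.filter fun w => G.Adj u w) σ h).choose
  else u

/-- The hub of `u`: the first neighbour of `u` in the order `σ` if the role of `u` is `false`; the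
first neighbour in the order `σ` of the first neighbour of `u` in the order `τ` if the role of `u` is
`true`. -/
noncomputable def hub (G : SimpleGraph X) (σ τ : SF.Ord X) (r : X → Bool) (u : X) : X :=
  if r u then first G σ (first G τ u) else first G σ u

/-- The label of `u` that is determined by the label `a` of its hub. -/
noncomputable def lab (g : Game X Q) (σ τ : SF.Ord X) (r : X → Bool) (a : Q) (u : X) : Q :=
  if r u then g.p (first g.G τ u) u (g.p (hub g.G σ τ r u) (first g.G τ u) a)
  else g.p (hub g.G σ τ r u) u a

/-- The number of ordered pairs of adjacent vertices with the hub `c` whose constraint is satisfied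
if their labels are determined by the label `a` of `c`. -/
noncomputable def inside (g : Game X Q) (σ τ : SF.Ord X) (r : X → Bool) (c : X) (a : Q) : ℕ :=
  (univ.filter fun z : X × X => g.G.Adj z.1 z.2 ∧ hub g.G σ τ r z.1 = c ∧ hub g.G σ τ r z.2 = c ∧
    g.p z.1 z.2 (lab g σ τ r a z.1) = lab g σ τ r a z.2).card

variable [Fintype Q] [Nonempty Q]

/-- The best label for the hub `c`. -/
noncomputable def best (g : Game X Q) (σ τ : SF.Ord X) (r : X → Bool) (c : X) : Q :=
  (exists_max_image (univ : Finset Q) (inside g σ τ r c) univ_nonempty).choose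

/-- The hub labelling: the vertices with the same hub get the labels that are determined by the best
label for this hub. -/
noncomputable def hubLabelling (g : Game X Q) (σ τ : SF.Ord X) (r : X → Bool) (u : X) : Q :=
  lab g σ τ r (best g σ τ r (hub g.G σ τ r u)) u

end

/-! ### The reductions -/

section

variable {X Q : Type}

/-- The new game. It has a vertex `(x, none)` and the `K` vertices `(x, some k)` for each vertex `x`
of `g`. The vertices `(x, none)` and `(y, some k)` are adjacent if `x` and `y` are adjacent in `g`,
with the constraint of `g`. If `C` holds then the vertices `(x, none)` also form a clique, with the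
constraints that the labels are equal. There are no other edges. -/
noncomputable def ext (g : Game X Q) (C : Prop) (K : ℕ) : Game (X × Option (Fin K)) Q where
  G :=
    { Adj := fun u v => (g.G.Adj u.1 v.1 ∧ (u.2 = none ∧ v.2 ≠ none ∨ u.2 ≠ none ∧ v.2 = none)) ∨
        (C ∧ u.1 ≠ v.1 ∧ u.2 = none ∧ v.2 = none)
      symm := ⟨by
        rintro u v (⟨h, h2⟩ | ⟨hC, h, h2, h3⟩)
        · exact Or.inl ⟨h.symm, h2.symm.imp And.symm And.symm⟩
        · exact Or.inr ⟨hC, h.symm, h3, h2⟩⟩
      loopless := ⟨by
        rintro u (⟨h, _⟩ | ⟨_, h, _⟩)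
        · exact g.G.loopless.irrefl _ h
        · exact h rfl⟩ }
  p u v := if u.2 = none ∧ v.2 = none then 1 else g.p u.1 v.1
  symm := by
    rintro u v (⟨h, h2⟩ | ⟨_, _, h2, h3⟩)
    · have e1 : ¬ (u.2 = none ∧ v.2 = none) := by tauto
      have e2 : ¬ (v.2 = none ∧ u.2 = none) := by tauto
      rw [if_neg e1, if_neg e2]
      exact g.symm _ _ h
    · rw [if_pos ⟨h3, h2⟩, if_pos ⟨h2, h3⟩]
      simp

end

end Pool.Agent.H698.HF
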