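import Pool.Agent.H698.HF.Core
import Pool.Graph.R_seed8.H589R3.DT.Two

set_option autoImplicit false

/-! # 2-to-1 and d-to-1 games and circuits that compute with partial information (helper698) -/

open scoped Classical
open Finset

namespace Pool.Agent.H698.HF

open H630VC (Prog Mono2)
open H589DT

/-- the possible constraints of 2-to-1 games: two vertices and a map of the labels -/
abbrev TCon (U V : Type) (q : ℕ) : Type := U × V × (Fin q → Fin q)

/-- the constraint `e` is present in the game `I` -/
def THas {U V : Type} {q : ℕ} (I : TGame U V q) (e : TCon U V q) : Prop :=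
  I.adj e.1 e.2.1 ∧ I.map e.1 e.2.1 = e.2.2

/-- the randomised circuit `l` (a uniformly random member `l ω` of a finite family, with the output
gate `out ω` and the upper set `acc ω` of values that mean alarm) solves the gap problem: it raises
the alarm if the constraints of a game of value at most `δ` are known to be present and nothing is
known about the other constraints, and it does not raise the alarm on the completely known games
of value one, each for at least three quarters of the `ω` -/
def SolvesT {U V D : Type} [PartialOrder D] [Fintype U] [Fintype V] {q : ℕ} (δ : ℝ)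
    {Ω : Type} [Fintype Ω] (l : Ω → List (Know (TCon U V q) → D)) : Prop :=
  ∃ (out : Ω → Know (TCon U V q) → D) (acc : Ω → Set D), (∀ ω, out ω ∈ l ω) ∧
    (∀ ω, IsUpperSet (acc ω)) ∧
    (∀ I : TGame U V q, TNo δ I → 3 * Fintype.card Ω ≤
      4 * (univ.filter fun ω => out ω (truths (THas I)) ∈ acc ω).card) ∧
    ∀ I : TGame U V q, TYes I → 3 * Fintype.card Ω ≤
      4 * (univ.filter fun ω => out ω (full (THas I)) ∉ acc ω).card

theorem lowerT {U V : Type} [Fintype U] [Fintype V] {q : ℕ} {δ s : ℝ} {D : Type} [PartialOrder D]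
    (hD : TreeLike D)
    (h : ∀ (Ω : Type) [Fintype Ω] [Nonempty Ω] (l : Ω → List (TGame U V q → ℝ)),
        (∀ ω, Prog (tInputs U V q) (l ω)) → TDecides δ l → ∃ ω, s ≤ (l ω).length)
    {Ω : Type} [Fintype Ω] [Nonempty Ω] (l : Ω → List (Know (TCon U V q) → D))
    (hl : ∀ ω, Circ (l ω)) (hs : SolvesT δ l) : ∃ ω, s ≤ (l ω).length + 1 := by
  obtain ⟨out, acc, h1, h2, h3, h4⟩ := hs
  have hsim := fun ω => simulate_out hD (fun I : TGame U V q => THas I)
    (fun l' => Prog (tInputs U V q) l') Prog.nil
    (fun l' e hl' => Prog.input hl' (Or.inl ⟨e.1, e.2.1, e.2.2, by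
      funext x; simp only [THas]; congr⟩))
    (fun l' c hl' => Prog.input hl' (Or.inr ⟨c, rfl⟩))
    (fun l' Φ F G hl' hΦ hF hG => Prog.gate hl' hΦ hF hG) (hl ω) (acc ω) (h2 ω) (h1 ω)
  choose l' g1 g2 F g3 g4 using hsim
  have hsep : TDecides δ l' := by
    refine ⟨F, g3, fun I => ⟨fun hI => ?_, fun hI => ?_⟩⟩
    · refine (h3 I hI).trans (Nat.mul_le_mul_left _ (card_le_card fun ω hω => ?_))
      rw [mem_filter] at hω ⊢
      exact ⟨hω.1, (g4 ω I).1 hω.2⟩
    · refine (h4 I hI).trans (Nat.mul_le_mul_left _ (card_le_card fun ω hω => ?_))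
      rw [mem_filter] at hω ⊢
      refine ⟨hω.1, ?_⟩
      by_contra hcon
      push Not at hcon
      exact hω.2 (h2 ω ((hl ω).mono _ (h1 ω) _ _ (truths_le_full _)) ((g4 ω I).2 hcon))
  obtain ⟨ω, hω⟩ := h Ω l' g1 hsep
  refine ⟨ω, ?_⟩
  rw [g2] at hω
  push_cast at hω
  exact hω

/-- some function that respects the knowledge solves the gap problem -/
theorem existsT {U V : Type} [Fintype U] [Fintype V] (δ : ℝ) (hδ : δ < 1) (q : ℕ) :
    ∃ F : Know (TCon U V q) → ℝ, (∀ P Q, Le P Q → F P ≤ F Q) ∧
      ∀ I : TGame U V q, (TNo δ I → F (truths (THas I)) = 1) ∧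
        (TYes I → F (full (THas I)) = 0) := by
  refine ⟨fun P => if ∃ (A : U → Fin q) (B : V → Fin q), ∀ e : TCon U V q, P e = some true →
    e.2.2 (A e.1) = B e.2.1 then 0 else 1, fun P Q hPQ => ?_, fun I => ⟨fun hI => ?_,
    fun hI => ?_⟩⟩
  · by_cases hQ : ∃ (A : U → Fin q) (B : V → Fin q), ∀ e : TCon U V q, Q e = some true →
      e.2.2 (A e.1) = B e.2.1
    · have hP : ∃ (A : U → Fin q) (B : V → Fin q), ∀ e : TCon U V q, P e = some true →
        e.2.2 (A e.1) = B e.2.1 := by
        obtain ⟨A, B, h⟩ := hQ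
        refine ⟨A, B, fun e he => h e ?_⟩
        rcases hPQ e with h2 | h2
        · rw [h2] at he; exact absurd he (by simp)
        · rw [← h2]; exact he
      simp only [hP, hQ, if_true, le_refl]
    · simp only [hQ, if_false]
      split_ifs <;> norm_num
  · dsimp only
    rw [if_neg]
    rintro ⟨A, B, h⟩
    obtain ⟨⟨u, v, huv⟩, h2⟩ := hI
    have h3 := h2 A B
    have h4 : (univ.filter fun e : U × V => I.adj e.1 e.2 ∧ I.map e.1 e.2 (A e.1) = B e.2) =
        univ.filter fun e : U × V => I.adj e.1 e.2 := by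
      apply filter_congr
      rintro ⟨u, v⟩ -
      constructor
      · exact fun h => h.1
      · intro hadj
        refine ⟨hadj, ?_⟩
        have := h (u, v, I.map u v) (by
          unfold truths THas
          simp [hadj])
        exact this
    rw [h4] at h3
    have h5 : (0 : ℝ) < ((univ.filter fun e : U × V => I.adj e.1 e.2).card : ℝ) := by
      have : 0 < (univ.filter fun e : U × V => I.adj e.1 e.2).card :=
        card_pos.2 ⟨(u, v), mem_filter.2 ⟨mem_univ _, huv⟩⟩
      exact_mod_cast this
    nlinarith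
  · dsimp only
    rw [if_pos]
    obtain ⟨-, A, B, h⟩ := hI
    refine ⟨A, B, fun e he => ?_⟩
    have h1 : THas I e := by
      by_contra hcon
      unfold full at he
      simp [hcon] at he
    rw [← h1.2]
    exact h _ _ h1.1

/-- the possible constraints of d-to-1 games: two vertices and a map of the labels -/
abbrev DCon (V W : Type) (d R : ℕ) : Type := V × W × (Fin (d * R) → Fin R)

/-- the constraint `e` is present in the game `I` -/
def DHas {V W : Type} {d R : ℕ} (I : DGame V W d R) (e : DCon V W d R) : Prop :=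
  I.adj e.1 e.2.1 ∧ I.map e.1 e.2.1 = e.2.2

/-- the randomised circuit `l` (a uniformly random member `l ω` of a finite family, with the output
gate `out ω` and the upper set `acc ω` of values that mean alarm) solves the gap problem: it raises
the alarm if the constraints of a game of value less than `ε` are known to be present and nothing is
known about the other constraints, and it does not raise the alarm on the completely known games
of value one, each for at least three quarters of the `ω` -/
def SolvesD {V W D : Type} [PartialOrder D] [Fintype V] [Fintype W] {d R : ℕ} (ε : ℝ)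
    {Ω : Type} [Fintype Ω] (l : Ω → List (Know (DCon V W d R) → D)) : Prop :=
  ∃ (out : Ω → Know (DCon V W d R) → D) (acc : Ω → Set D), (∀ ω, out ω ∈ l ω) ∧
    (∀ ω, IsUpperSet (acc ω)) ∧
    (∀ I : DGame V W d R, DNo ε I → 3 * Fintype.card Ω ≤
      4 * (univ.filter fun ω => out ω (truths (DHas I)) ∈ acc ω).card) ∧
    ∀ I : DGame V W d R, DYes I → 3 * Fintype.card Ω ≤
      4 * (univ.filter fun ω => out ω (full (DHas I)) ∉ acc ω).card

theorem lowerD {V W : Type} [Fintype V] [Fintype W] {d R : ℕ} {ε s : ℝ} {D : Type}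
    [PartialOrder D] (hD : TreeLike D)
    (h : ∀ (Ω : Type) [Fintype Ω] [Nonempty Ω] (l : Ω → List (DGame V W d R → ℝ)),
        (∀ ω, Prog (dInputs V W d R) (l ω)) → DDecides ε l → ∃ ω, s ≤ (l ω).length)
    {Ω : Type} [Fintype Ω] [Nonempty Ω] (l : Ω → List (Know (DCon V W d R) → D))
    (hl : ∀ ω, Circ (l ω)) (hs : SolvesD ε l) : ∃ ω, s ≤ (l ω).length + 1 := by
  obtain ⟨out, acc, h1, h2, h3, h4⟩ := hs
  have hsim := fun ω => simulate_out hD (fun I : DGame V W d R => DHas I)
    (fun l' => Prog (dInputs V W d R) l') Prog.nil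
    (fun l' e hl' => Prog.input hl' (Or.inl ⟨e.1, e.2.1, e.2.2, by
      funext x; simp only [DHas]; congr⟩))
    (fun l' c hl' => Prog.input hl' (Or.inr ⟨c, rfl⟩))
    (fun l' Φ F G hl' hΦ hF hG => Prog.gate hl' hΦ hF hG) (hl ω) (acc ω) (h2 ω) (h1 ω)
  choose l' g1 g2 F g3 g4 using hsim
  have hsep : DDecides ε l' := by
    refine ⟨F, g3, fun I => ⟨fun hI => ?_, fun hI => ?_⟩⟩
    · refine (h3 I hI).trans (Nat.mul_le_mul_left _ (card_le_card fun ω hω => ?_))
      rw [mem_filter] at hω ⊢
      exact ⟨hω.1, (g4 ω I).1 hω.2⟩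
    · refine (h4 I hI).trans (Nat.mul_le_mul_left _ (card_le_card fun ω hω => ?_))
      rw [mem_filter] at hω ⊢
      refine ⟨hω.1, ?_⟩
      by_contra hcon
      push Not at hcon
      exact hω.2 (h2 ω ((hl ω).mono _ (h1 ω) _ _ (truths_le_full _)) ((g4 ω I).2 hcon))
  obtain ⟨ω, hω⟩ := h Ω l' g1 hsep
  refine ⟨ω, ?_⟩
  rw [g2] at hω
  push_cast at hω
  exact hω

/-- some function that respects the knowledge solves the gap problem -/
theorem existsD {V W : Type} [Fintype V] [Fintype W] (ε : ℝ) (hε : ε ≤ 1) (d R : ℕ) :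
    ∃ F : Know (DCon V W d R) → ℝ, (∀ P Q, Le P Q → F P ≤ F Q) ∧
      ∀ I : DGame V W d R, (DNo ε I → F (truths (DHas I)) = 1) ∧
        (DYes I → F (full (DHas I)) = 0) := by
  refine ⟨fun P => if ∃ (A : V → Fin R) (B : W → Fin (d * R)), ∀ e : DCon V W d R,
    P e = some true → e.2.2 (B e.2.1) = A e.1 then 0 else 1, fun P Q hPQ => ?_,
    fun I => ⟨fun hI => ?_, fun hI => ?_⟩⟩
  · by_cases hQ : ∃ (A : V → Fin R) (B : W → Fin (d * R)), ∀ e : DCon V W d R,
      Q e = some true → e.2.2 (B e.2.1) = A e.1
    · have hP : ∃ (A : V → Fin R) (B : W → Fin (d * R)), ∀ e : DCon V W d R,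
        P e = some true → e.2.2 (B e.2.1) = A e.1 := by
        obtain ⟨A, B, h⟩ := hQ
        refine ⟨A, B, fun e he => h e ?_⟩
        rcases hPQ e with h2 | h2
        · rw [h2] at he; exact absurd he (by simp)
        · rw [← h2]; exact he
      simp only [hP, hQ, if_true, le_refl]
    · simp only [hQ, if_false]
      split_ifs <;> norm_num
  · dsimp only
    rw [if_neg]
    rintro ⟨A, B, h⟩
    have h3 := hI A B
    have h4 : (univ.filter fun e : V × W => I.adj e.1 e.2 ∧ I.map e.1 e.2 (B e.2) = A e.1) =
        univ.filter fun e : V × W => I.adj e.1 e.2 := by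
      apply filter_congr
      rintro ⟨v, w⟩ -
      constructor
      · exact fun h => h.1
      · intro hadj
        refine ⟨hadj, ?_⟩
        have := h (v, w, I.map v w) (by
          unfold truths DHas
          simp [hadj])
        exact this
    rw [h4] at h3
    have h5 : (0 : ℝ) ≤ ((univ.filter fun e : V × W => I.adj e.1 e.2).card : ℝ) :=
      Nat.cast_nonneg _
    nlinarith
  · dsimp only
    rw [if_pos]
    obtain ⟨-, A, B, h⟩ := hI
    refine ⟨A, B, fun e he => ?_⟩
    have h1 : DHas I e := by
      by_contra hcon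
      unfold full at he
      simp [hcon] at he
    rw [← h1.2]
    exact h _ _ h1.1

end Pool.Agent.H698.HF
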