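import Pool.Agent.H698.HF.Stm

/-! # Bipartite split graphs embed into double stars (task EMB) -/

set_option autoImplicit false

open scoped Classical
open Finset

namespace Pool.Agent.H698.HF

namespace EmbL

theorem exists_emb {W X : Type} [Fintype W] (Y : Finset X) (h : Fintype.card W ≤ Y.card) :
    ∃ y : W → X, Function.Injective y ∧ ∀ i, y i ∈ Y := by
  have h' : Fintype.card W ≤ Fintype.card Y := by rwa [Fintype.card_coe]
  obtain ⟨e⟩ := Function.Embedding.nonempty_of_card_le h'
  exact ⟨fun i => (e i : X), fun i j hij => e.injective (Subtype.ext hij), fun i => (e i).2⟩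

end EmbL

theorem emb : S_EMB := by
  intro W _ H hB hS X _ G hD
  obtain ⟨B, hB1, hB2⟩ := hB
  obtain ⟨A, hA1, hA2⟩ := hS
  obtain ⟨a, b, Y, Z, V, hab, hY, hZ, hV, hbY, haZ, hY2, hZ2, hV2, hind⟩ := hD
  obtain ⟨y, hyi, hy⟩ := EmbL.exists_emb (W := W) Y hY
  obtain ⟨z, hzi, hz⟩ := EmbL.exists_emb (W := W) Z hZ
  obtain ⟨v, hvi, hv⟩ := EmbL.exists_emb (W := W) V hV
  -- the values at the vertices outside the clique
  set g : W → X := fun s => if ∃ k ∈ A, k ∈ B ∧ H.Adj k s then y s
    else if ∃ k ∈ A, k ∉ B ∧ H.Adj k s then z s else v s with hg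
  set f : W → X := fun s => if s ∈ A then (if s ∈ B then a else b) else g s with hf
  have hne : ∀ u, ¬ G.Adj u u := fun u => G.loopless.irrefl u
  have hgU : ∀ s, g s ∈ Y ∪ Z ∪ V := by
    intro s
    simp only [hg]
    split_ifs
    · exact mem_union_left _ (mem_union_left _ (hy s))
    · exact mem_union_left _ (mem_union_right _ (hz s))
    · exact mem_union_right _ (hv s)
  have haU : ∀ u ∈ Y ∪ Z ∪ V, u ≠ a := by
    rintro u hu rfl
    rw [mem_union, mem_union] at hu
    rcases hu with (hu | hu) | hu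
    · exact hne _ (hY2 _ hu).1
    · exact haZ hu
    · exact (hV2 _ hu).2 hab.symm
  have hbU : ∀ u ∈ Y ∪ Z ∪ V, u ≠ b := by
    rintro u hu rfl
    rw [mem_union, mem_union] at hu
    rcases hu with (hu | hu) | hu
    · exact hbY hu
    · exact hne _ (hZ2 _ hu).1
    · exact (hV2 _ hu).1 hab
  -- adjacency to the two centres
  have hga : ∀ s, s ∉ A → (G.Adj a (g s) ↔ ∃ k ∈ A, k ∈ B ∧ H.Adj k s) := by
    intro s hs
    simp only [hg]
    split_ifs with h1 h2
    · exact ⟨fun _ => h1, fun _ => (hY2 _ (hy s)).1⟩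
    · exact ⟨fun h => absurd h (hZ2 _ (hz s)).2, fun h => absurd h h1⟩
    · exact ⟨fun h => absurd h (hV2 _ (hv s)).1, fun h => absurd h h1⟩
  have hgb : ∀ s, s ∉ A → (G.Adj b (g s) ↔ ∃ k ∈ A, k ∉ B ∧ H.Adj k s) := by
    intro s hs
    simp only [hg]
    split_ifs with h1 h2
    · refine ⟨fun h => absurd h (hY2 _ (hy s)).2, fun h => ?_⟩
      exfalso
      obtain ⟨k, _, hkB, hk⟩ := h1
      obtain ⟨k', _, hkB', hk'⟩ := h
      by_cases hsB : s ∈ B
      · exact hB1 _ hkB _ hsB hk
      · exact hB2 _ hkB' _ hsB hk'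
    · exact ⟨fun _ => h2, fun _ => (hZ2 _ (hz s)).1⟩
    · exact ⟨fun h => absurd h (hV2 _ (hv s)).2, fun h => absurd h h2⟩
  -- at most one vertex of the clique on each side
  have hA3 : ∀ s ∈ A, ∀ t ∈ A, (s ∈ B ↔ t ∈ B) → s = t := by
    intro s hs t ht hst
    by_contra hne
    have h := hA1 s hs t ht hne
    by_cases hsB : s ∈ B
    · exact hB1 _ hsB _ (hst.1 hsB) h
    · exact hB2 _ hsB _ (fun h' => hsB (hst.2 h')) h
  have hinj : Function.Injective f := by
    intro s t hst
    simp only [hf] at hst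
    by_cases hs : s ∈ A <;> by_cases ht : t ∈ A
    · rw [if_pos hs, if_pos ht] at hst
      apply hA3 s hs t ht
      by_cases hsB : s ∈ B <;> by_cases htB : t ∈ B
      · simp [hsB, htB]
      · rw [if_pos hsB, if_neg htB] at hst
        exact absurd hab (hst ▸ hne _)
      · rw [if_neg hsB, if_pos htB] at hst
        exact absurd hab (hst ▸ hne _)
      · simp [hsB, htB]
    · rw [if_pos hs, if_neg ht] at hst
      exfalso
      by_cases hsB : s ∈ B
      · rw [if_pos hsB] at hst
        exact haU _ (hgU t) hst.symm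
      · rw [if_neg hsB] at hst
        exact hbU _ (hgU t) hst.symm
    · rw [if_neg hs, if_pos ht] at hst
      exfalso
      by_cases htB : t ∈ B
      · rw [if_pos htB] at hst
        exact haU _ (hgU s) hst
      · rw [if_neg htB] at hst
        exact hbU _ (hgU s) hst
    · rw [if_neg hs, if_neg ht] at hst
      have e1 := hga s hs
      have e2 := hga t ht
      have e3 := hgb s hs
      have e4 := hgb t ht
      rw [hst] at e1 e3
      have c1 : (∃ k ∈ A, k ∈ B ∧ H.Adj k s) ↔ ∃ k ∈ A, k ∈ B ∧ H.Adj k t := e1.symm.trans e2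
      have c2 : (∃ k ∈ A, k ∉ B ∧ H.Adj k s) ↔ ∃ k ∈ A, k ∉ B ∧ H.Adj k t := e3.symm.trans e4
      simp only [hg] at hst
      by_cases h1 : ∃ k ∈ A, k ∈ B ∧ H.Adj k s
      · rw [if_pos h1, if_pos (c1.1 h1)] at hst
        exact hyi hst
      · by_cases h2 : ∃ k ∈ A, k ∉ B ∧ H.Adj k s
        · rw [if_neg h1, if_neg (fun h => h1 (c1.2 h)), if_pos h2, if_pos (c2.1 h2)] at hst
          exact hzi hst
        · rw [if_neg h1, if_neg (fun h => h1 (c1.2 h)), if_neg h2, if_neg (fun h => h2 (c2.2 h))] at hst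
          exact hvi hst
  -- the mixed pairs
  have hmix : ∀ s ∈ A, ∀ t ∉ A, (G.Adj (f s) (f t) ↔ H.Adj s t) := by
    intro s hs t ht
    simp only [hf]
    rw [if_pos hs, if_neg ht]
    by_cases hsB : s ∈ B
    · rw [if_pos hsB, hga t ht]
      constructor
      · rintro ⟨k, hk, hkB, hkt⟩
        rwa [hA3 s hs k hk (by simp [hsB, hkB])]
      · intro h
        exact ⟨s, hs, hsB, h⟩
    · rw [if_neg hsB, hgb t ht]
      constructor
      · rintro ⟨k, hk, hkB, hkt⟩
        rwa [hA3 s hs k hk (by simp [hsB, hkB])]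
      · intro h
        exact ⟨s, hs, hsB, h⟩
  refine ⟨⟨⟨f, hinj⟩, ?_⟩⟩
  intro s t
  show G.Adj (f s) (f t) ↔ H.Adj s t
  by_cases hs : s ∈ A <;> by_cases ht : t ∈ A
  · by_cases hst : s = t
    · subst hst
      exact ⟨fun h => absurd h (hne _), fun h => absurd h (H.loopless.irrefl _)⟩
    · refine ⟨fun _ => hA1 s hs t ht hst, fun _ => ?_⟩
      simp only [hf]
      rw [if_pos hs, if_pos ht]
      by_cases hsB : s ∈ B <;> by_cases htB : t ∈ B
      · exact absurd (hA3 s hs t ht (by simp [hsB, htB])) hst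
      · rw [if_pos hsB, if_neg htB]
        exact hab
      · rw [if_neg hsB, if_pos htB]
        exact hab.symm
      · exact absurd (hA3 s hs t ht (by simp [hsB, htB])) hst
  · exact hmix s hs t ht
  · rw [G.adj_comm, H.adj_comm]
    exact hmix t ht s hs
  · refine ⟨fun h => ?_, fun h => absurd h (hA2 s hs t ht)⟩
    simp only [hf] at h
    rw [if_neg hs, if_neg ht] at h
    exact absurd h (hind _ (hgU s) _ (hgU t))

end Pool.Agent.H698.HF
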