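import Pool.Agent.H698.HF.Stm

/-! # NEST: neighbourhoods of low degree vertices are nested -/

set_option autoImplicit false

open scoped Classical
open Finset
open Pool.Agent.H698.SF (Game nbr mem_nbr prs Bad nbad)

namespace Pool.Agent.H698.HF

namespace NestL

variable {X : Type} [Fintype X]

theorem mem_low {G : SimpleGraph X} {M : ℝ} {x y : X} :
    y ∈ low G M x ↔ G.Adj x y ∧ M * dg G y ≤ dg G x := by
  unfold low
  rw [mem_filter, mem_nbr]

theorem dg_nonneg (G : SimpleGraph X) (x : X) : 0 ≤ dg G x := by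
  unfold dg; positivity

/-- the case `d(x') ≤ d(x)` -/
theorem aux (hA : S_AVOID) (hZ : S_Z) (G : SimpleGraph X) (t : ℕ) (κ3 τ lam M : ℝ) (ht : 1 ≤ t)
    (hκ : 0 ≤ κ3) (hκ1 : κ3 ≤ 1 / (4 * (3 * t + 2)))
    (hbig : ((big G κ3).card : ℝ) ≤ Fintype.card X / 4)
    (hcard : 2 * (3 * t + 2) < Fintype.card X) (hτ : 0 < τ) (hτ1 : τ ≤ 1) (hl : 0 < lam)
    (hl1 : lam ≤ 1) (hM16 : 16 * t ≤ M * τ * lam) (hM : 1 ≤ M) (x x' : X) (hadj : G.Adj x x')
    (hxb : x ∉ big G κ3) (hxb' : x' ∉ big G κ3) (hlx : lam * dg G x ≤ (low G M x).card)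
    (hlx' : lam * dg G x' ≤ (low G M x').card) (hMx : M ≤ dg G x) (hMx' : M ≤ dg G x')
    (h1 : τ * (low G M x).card < ((low G M x \ nbr G x').card : ℝ))
    (h2 : τ * (low G M x').card < ((low G M x' \ nbr G x).card : ℝ))
    (hle : dg G x' ≤ dg G x) : DS G t := by
  have ht' : (1 : ℝ) ≤ t := by exact_mod_cast ht
  have hM0 : 0 < M := by linarith
  have hτl : τ * lam ≤ 1 := by nlinarith
  have hM2 : 1 < M := by
    have h3 : M * τ * lam ≤ M := by
      have : M * (τ * lam) ≤ M * 1 := mul_le_mul_of_nonneg_left hτl hM0.le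
      linarith [mul_assoc M τ lam]
    linarith
  set U' : Finset X := low G M x' \ nbr G x with hU'
  have hxU' : x ∉ low G M x' := by
    intro h
    have h3 := (mem_low.1 h).2
    have h4 : dg G x < M * dg G x := by nlinarith
    linarith
  -- the degree bound
  set D' : ℝ := dg G x' / M with hD'
  have hD'1 : 1 ≤ D' := by rw [hD', le_div_iff₀ hM0]; linarith
  have hU'D : ∀ u ∈ U', dg G u ≤ D' := by
    intro u hu
    have h3 := (mem_low.1 (mem_sdiff.1 hu).1).2
    rw [hD', le_div_iff₀ hM0]; linarith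
  have key : ∀ z : X, 16 * t * (dg G z / M) ≤ τ * (lam * dg G z) := by
    intro z
    have h3 : 16 * t * (dg G z / M) ≤ M * τ * lam * (dg G z / M) :=
      mul_le_mul_of_nonneg_right hM16 (div_nonneg (dg_nonneg G z) hM0.le)
    have h4 : M * τ * lam * (dg G z / M) = τ * (lam * dg G z) := by
      field_simp
    linarith
  have hUc : (t : ℝ) * (D' + 1) < U'.card := by
    have h3 := key x'
    have h4 : τ * (lam * dg G x') ≤ τ * (low G M x').card := mul_le_mul_of_nonneg_left hlx' hτ.le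
    have h5 : (t : ℝ) * (D' + 1) ≤ 16 * t * D' := by nlinarith
    rw [← hD'] at h3
    linarith
  obtain ⟨Z, hZU, hZc, hZi⟩ := hA X G U' D' t (by linarith) hU'D hUc
  -- the second set
  set D : ℝ := dg G x / M with hD
  have hDD : D' ≤ D := by
    rw [hD, hD']; exact div_le_div_of_nonneg_right hle hM0.le
  have hD1 : 1 ≤ D := le_trans hD'1 hDD
  set R : Finset X := {x'} ∪ Z ∪ Z.biUnion (fun z => nbr G z) with hR
  set U : Finset X := (low G M x \ nbr G x') \ R with hU
  have hRc : (R.card : ℝ) ≤ 1 + t * (D + 1) := by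
    have h3 : R.card ≤ 1 + t + ∑ z ∈ Z, (nbr G z).card := by
      refine le_trans (card_union_le _ _) ?_
      refine add_le_add (le_trans (card_union_le _ _) ?_) card_biUnion_le
      rw [card_singleton, hZc]
    have h4 : ((∑ z ∈ Z, (nbr G z).card : ℕ) : ℝ) ≤ t * D := by
      push_cast
      have h5 : ∀ z ∈ Z, ((nbr G z).card : ℝ) ≤ D := fun z hz =>
        le_trans (hU'D z (hZU hz)) hDD
      have h6 := sum_le_card_nsmul Z (fun z => ((nbr G z).card : ℝ)) D h5
      rw [hZc, nsmul_eq_mul] at h6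
      exact h6
    have h5 : (R.card : ℝ) ≤ ((1 + t + ∑ z ∈ Z, (nbr G z).card : ℕ) : ℝ) := by exact_mod_cast h3
    rw [Nat.cast_add, Nat.cast_add, Nat.cast_one] at h5
    linarith
  have hUD : ∀ u ∈ U, dg G u ≤ D := by
    intro u hu
    have h3 := (mem_low.1 (mem_sdiff.1 (mem_sdiff.1 hu).1).1).2
    rw [hD, le_div_iff₀ hM0]; linarith
  have hUc2 : (t : ℝ) * (D + 1) < U.card := by
    have h3 := key x
    have h4 : τ * (lam * dg G x) ≤ τ * (low G M x).card := mul_le_mul_of_nonneg_left hlx hτ.le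
    have h5 : ((low G M x \ nbr G x').card : ℝ) ≤ U.card + R.card := by
      have h6 : (low G M x \ nbr G x').card ≤ U.card + R.card := by
        have h7 : low G M x \ nbr G x' ⊆ U ∪ R := by
          intro u hu
          by_cases h8 : u ∈ R
          · exact mem_union_right _ h8
          · exact mem_union_left _ (mem_sdiff.2 ⟨hu, h8⟩)
        exact le_trans (card_le_card h7) (card_union_le _ _)
      exact_mod_cast h6
    have h6 : 1 + (t : ℝ) * (D + 1) + t * (D + 1) ≤ 16 * t * D := by nlinarith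
    rw [← hD] at h3
    linarith
  obtain ⟨Y, hYU, hYc, hYi⟩ := hA X G U D t (by linarith) hUD hUc2
  -- the third set
  have hnb : ∀ u, u ∉ big G κ3 ↔ dg G u ≤ κ3 * Fintype.card X := by
    intro u
    unfold big
    rw [mem_filter, not_and]
    constructor
    · intro h; exact not_lt.1 (h (mem_univ u))
    · intro h _; exact not_lt.2 h
  have hDx : D ≤ dg G x := by
    rw [hD, div_le_iff₀ hM0]
    nlinarith [dg_nonneg G x]
  set S : Finset X := {x, x'} ∪ Y ∪ Z with hS
  have hSc : S.card ≤ 2 * t + 2 := by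
    refine le_trans (card_union_le _ _) ?_
    have h3 : ({x, x'} ∪ Y : Finset X).card ≤ 2 + t := by
      refine le_trans (card_union_le _ _) ?_
      rw [hYc]
      exact Nat.add_le_add_right card_le_two _
    rw [hZc]; omega
  have hSb : ∀ u ∈ S, u ∉ big G κ3 := by
    intro u hu
    rw [hS, mem_union, mem_union, mem_insert, mem_singleton] at hu
    rcases hu with ((rfl | rfl) | hu) | hu
    · exact hxb
    · exact hxb'
    · rw [hnb]
      exact le_trans (hUD u (hYU hu)) (le_trans hDx ((hnb x).1 hxb))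
    · rw [hnb]
      exact le_trans (hU'D u (hZU hu)) (le_trans hDD (le_trans hDx ((hnb x).1 hxb)))
  obtain ⟨W, hWc, hWS, hWi⟩ := hZ X G κ3 t S hκ hκ1 hbig hcard hSc hSb
  -- the properties
  have hYp : ∀ u ∈ Y, G.Adj x u ∧ ¬ G.Adj x' u := by
    intro u hu
    have h3 := mem_sdiff.1 (mem_sdiff.1 (hYU hu)).1
    exact ⟨(mem_low.1 h3.1).1, fun h => h3.2 ((mem_nbr _).2 h)⟩
  have hZp : ∀ u ∈ Z, G.Adj x' u ∧ ¬ G.Adj x u := by
    intro u hu
    have h3 := mem_sdiff.1 (hZU hu)
    exact ⟨(mem_low.1 h3.1).1, fun h => h3.2 ((mem_nbr _).2 h)⟩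
  have hYR : ∀ u ∈ Y, u ∉ R := fun u hu => (mem_sdiff.1 (hYU hu)).2
  have hYZ : ∀ u ∈ Y, ∀ v ∈ Z, ¬ G.Adj u v := by
    intro u hu v hv h
    refine hYR u hu ?_
    rw [hR, mem_union]
    exact Or.inr (mem_biUnion.2 ⟨v, hv, (mem_nbr _).2 h.symm⟩)
  have hmem : ∀ u, u ∈ Y ∪ Z ∪ W → u ∈ Y ∨ u ∈ Z ∨ u ∈ W := by
    intro u hu
    rw [mem_union, mem_union] at hu
    tauto
  have hYS : ∀ u ∈ Y, u ∈ S := fun u hu => by
    rw [hS]; exact mem_union_left _ (mem_union_right _ hu)
  have hZS : ∀ u ∈ Z, u ∈ S := fun u hu => by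
    rw [hS]; exact mem_union_right _ hu
  have hxS : x ∈ S := by
    rw [hS]; exact mem_union_left _ (mem_union_left _ (mem_insert_self _ _))
  have hxS' : x' ∈ S := by
    rw [hS]
    exact mem_union_left _ (mem_union_left _ (mem_insert_of_mem (mem_singleton_self _)))
  refine ⟨x, x', Y, Z, W, hadj, hYc.ge, hZc.ge, hWc.ge, ?_, ?_, hYp, hZp, ?_, ?_⟩
  · intro h
    refine hYR _ h ?_
    rw [hR]
    exact mem_union_left _ (mem_union_left _ (mem_singleton_self _))
  · intro h
    exact hxU' (mem_sdiff.1 (hZU h)).1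
  · intro u hu
    exact ⟨(hWS u hu).2 x hxS, (hWS u hu).2 x' hxS'⟩
  · intro u hu v hv
    rcases hmem u hu with hu | hu | hu <;> rcases hmem v hv with hv | hv | hv
    · exact hYi u hu v hv
    · exact hYZ u hu v hv
    · exact (hWS v hv).2 u (hYS u hu)
    · exact fun h => hYZ v hv u hu h.symm
    · exact hZi u hu v hv
    · exact (hWS v hv).2 u (hZS u hu)
    · exact fun h => (hWS u hu).2 v (hYS v hv) h.symm
    · exact fun h => (hWS u hu).2 v (hZS v hv) h.symm
    · exact hWi u hu v hv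

end NestL

theorem nest (hA : S_AVOID) (hZ : S_Z) : S_NEST := by
  intro X _ G t κ3 τ lam M ht hκ hκ1 hbig hcard hτ hτ1 hl hl1 hM16 hM x x' hadj hxb hxb' hlx hlx'
    hMx hMx' h1 h2
  rcases le_total (dg G x') (dg G x) with hle | hle
  · exact NestL.aux hA hZ G t κ3 τ lam M ht hκ hκ1 hbig hcard hτ hτ1 hl hl1 hM16 hM x x' hadj hxb
      hxb' hlx hlx' hMx hMx' h1 h2 hle
  · exact NestL.aux hA hZ G t κ3 τ lam M ht hκ hκ1 hbig hcard hτ hτ1 hl hl1 hM16 hM x' x hadj.symm
      hxb' hxb hlx' hlx hMx' hMx h2 h1 hle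

end Pool.Agent.H698.HF
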