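import Pool.Agent.H698.HF.Stm

/-! # The reduction: completeness and soundness -/

set_option autoImplicit false

open scoped Classical
open Finset
open Pool.Agent.H698.SF (Game nbr mem_nbr prs Bad nbad)

namespace Pool.Agent.H698.HF

namespace RedL

theorem sum_split {X κ : Type} [Fintype X] [Fintype κ]
    (F : X × Option κ → X × Option κ → ℕ) :
    ∑ z : (X × Option κ) × (X × Option κ), F z.1 z.2 =
      ∑ x, ∑ y, (F (x, none) (y, none) + ∑ k, F (x, none) (y, some k) +
        ∑ k, F (x, some k) (y, none) + ∑ k, ∑ j, F (x, some k) (y, some j)) := by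
  rw [Fintype.sum_prod_type, Fintype.sum_prod_type]
  refine sum_congr rfl fun x _ => ?_
  rw [Fintype.sum_option]
  have h1 : ∀ a : Option κ, ∑ v : X × Option κ, F (x, a) v =
      ∑ y, (F (x, a) (y, none) + ∑ k, F (x, a) (y, some k)) := by
    intro a
    rw [Fintype.sum_prod_type]
    exact sum_congr rfl fun y _ => Fintype.sum_option _
  rw [h1, sum_congr rfl fun k _ => h1 (some k), sum_comm, ← sum_add_distrib]
  refine sum_congr rfl fun y _ => ?_
  rw [sum_add_distrib]
  ring

/-- the number of ordered pairs satisfied by two labellings -/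
noncomputable def D {X Q : Type} [Fintype X] (g : Game X Q) (l0 l1 : X → Q) : ℕ :=
  ∑ x, ∑ y, if g.G.Adj x y ∧ g.p x y (l0 x) = l1 y then 1 else 0

section

variable {X Q : Type} [Fintype X] (g : Game X Q)

theorem sat_eq (l : X → Q) : g.sat l = D g l l := by
  unfold Game.sat D
  rw [card_filter, Fintype.sum_prod_type]

theorem D_swap (l0 l1 : X → Q) : D g l1 l0 = D g l0 l1 := by
  unfold D
  rw [sum_comm]
  refine sum_congr rfl fun x _ => sum_congr rfl fun y _ => ?_
  congr 1
  apply propext
  constructor
  · rintro ⟨h, h2⟩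
    refine ⟨h.symm, ?_⟩
    rw [g.symm y x h, ← h2]
    simp
  · rintro ⟨h, h2⟩
    refine ⟨h.symm, ?_⟩
    rw [g.symm x y h, ← h2]
    simp

theorem flip (x y : X) (h : x ≠ y) (a b : Bool) :
    (univ.filter fun r : X → Bool => r x = a ∧ r y = b).card =
      (univ.filter fun r : X → Bool => r x = !a ∧ r y = b).card := by
  have key : ∀ a : Bool, (univ.filter fun r : X → Bool => r x = a ∧ r y = b).card ≤
      (univ.filter fun r : X → Bool => r x = !a ∧ r y = b).card := by
    intro a
    refine card_le_card_of_injOn (fun r => Function.update r x (!(r x))) ?_ ?_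
    · intro r hr
      simp only [coe_filter, mem_univ, true_and, Set.mem_ofPred_eq] at hr ⊢
      rw [Function.update_self, Function.update_of_ne h.symm]
      exact ⟨by rw [hr.1], hr.2⟩
    · intro r _ s _ e
      funext z
      by_cases hz : z = x
      · subst hz
        have := congrFun e z
        simpa using this
      · have := congrFun e z
        simpa [Function.update_of_ne hz] using this
  refine le_antisymm (key a) ?_
  have := key (!a)
  rwa [Bool.not_not] at this

theorem flip' (x y : X) (h : x ≠ y) (a b : Bool) :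
    (univ.filter fun r : X → Bool => r x = a ∧ r y = b).card =
      (univ.filter fun r : X → Bool => r x = a ∧ r y = !b).card := by
  have h1 := flip y x h.symm b a
  simp only [and_comm] at h1 ⊢
  simpa only [and_comm] using h1

theorem quarter (x y : X) (h : x ≠ y) (a b : Bool) :
    4 * (univ.filter fun r : X → Bool => r x = a ∧ r y = b).card = 2 ^ Fintype.card X := by
  have h0 : Fintype.card (X → Bool) = 2 ^ Fintype.card X := by
    rw [Fintype.card_fun, Fintype.card_bool]
  have h1 : (univ.filter fun r : X → Bool => r x = true ∧ r y = true).card +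
      (univ.filter fun r : X → Bool => r x = true ∧ r y = false).card +
      ((univ.filter fun r : X → Bool => r x = false ∧ r y = true).card +
      (univ.filter fun r : X → Bool => r x = false ∧ r y = false).card) = 2 ^ Fintype.card X := by
    rw [← h0, ← card_univ, ← card_filter_add_card_filter_not (s := univ)
      (fun r : X → Bool => r x = true)]
    rw [← card_filter_add_card_filter_not (s := univ.filter fun r : X → Bool => r x = true)
      (fun r : X → Bool => r y = true)]
    rw [← card_filter_add_card_filter_not (s := univ.filter fun r : X → Bool => ¬ r x = true)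
      (fun r : X → Bool => r y = true)]
    simp only [filter_filter, Bool.not_eq_true]
  have e1 := flip x y h true true
  have e2 := flip x y h true false
  have e3 := flip' x y h true true
  simp only [Bool.not_true] at e1 e2 e3
  cases a <;> cases b <;> omega

theorem quarter_sum (x y : X) (h : x ≠ y) (a b : Bool) :
    4 * ∑ r : X → Bool, (if r x = a ∧ r y = b then 1 else 0) = 2 ^ Fintype.card X := by
  rw [← card_filter]
  exact quarter x y h a b

theorem D_avg (l0 l1 : X → Q) :
    2 ^ Fintype.card X * (D g l0 l1 + D g l1 l0) ≤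
      4 * ∑ r : X → Bool, g.sat fun x => if r x then l1 x else l0 x := by
  have h1 : ∀ (m0 m1 : X → Q) (a b : Bool), 2 ^ Fintype.card X * D g m0 m1 =
      4 * ∑ r : X → Bool, ∑ x, ∑ y,
        (if g.G.Adj x y ∧ g.p x y (m0 x) = m1 y then 1 else 0) *
          (if r x = a ∧ r y = b then 1 else 0) := by
    intro m0 m1 a b
    have h2 : ∑ r : X → Bool, ∑ x, ∑ y,
        (if g.G.Adj x y ∧ g.p x y (m0 x) = m1 y then 1 else 0) *
          (if r x = a ∧ r y = b then 1 else 0) =
        ∑ x, ∑ y, (if g.G.Adj x y ∧ g.p x y (m0 x) = m1 y then 1 else 0) *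
          ∑ r : X → Bool, (if r x = a ∧ r y = b then 1 else 0) := by
      rw [sum_comm]
      refine sum_congr rfl fun x _ => ?_
      rw [sum_comm]
      refine sum_congr rfl fun y _ => ?_
      rw [mul_sum]
    rw [h2, D, mul_sum, mul_sum]
    refine sum_congr rfl fun x _ => ?_
    rw [mul_sum, mul_sum]
    refine sum_congr rfl fun y _ => ?_
    split_ifs with hc
    · rw [one_mul, quarter_sum x y hc.1.ne a b, mul_one]
    · simp
  rw [mul_add, h1 l0 l1 false true, h1 l1 l0 true false, ← mul_add, ← sum_add_distrib]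
  refine Nat.mul_le_mul_left 4 (sum_le_sum fun r _ => ?_)
  rw [sat_eq, D, ← sum_add_distrib]
  refine sum_le_sum fun x _ => ?_
  rw [← sum_add_distrib]
  refine sum_le_sum fun y _ => ?_
  cases hx : r x <;> cases hy : r y <;> simp

theorem D_le (l0 l1 : X → Q) (s : ℝ) (hs : ∀ l : X → Q, (g.sat l : ℝ) ≤ s) :
    (D g l0 l1 : ℝ) ≤ 2 * s := by
  have h1 : (2 : ℝ) ^ Fintype.card X * (D g l0 l1 + D g l1 l0) ≤
      4 * ∑ r : X → Bool, (g.sat (fun x => if r x then l1 x else l0 x) : ℝ) := by
    exact_mod_cast D_avg g l0 l1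
  rw [D_swap g l0 l1] at h1
  have h2 : ∑ r : X → Bool, (g.sat (fun x => if r x then l1 x else l0 x) : ℝ) ≤
      2 ^ Fintype.card X * s := by
    refine (sum_le_sum fun r _ => hs _).trans (le_of_eq ?_)
    rw [sum_const, card_univ, Fintype.card_fun, Fintype.card_bool, nsmul_eq_mul]
    push_cast
    ring
  have h3 : (0 : ℝ) < 2 ^ Fintype.card X := by positivity
  have h4 : (2 : ℝ) ^ Fintype.card X * (D g l0 l1) ≤ 2 ^ Fintype.card X * (2 * s) := by
    nlinarith
  exact le_of_mul_le_mul_left h4 h3

/-- the number of pairs of the clique -/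
theorem pairs_split (C : Prop) (K : ℕ) :
    ∃ E : ℕ, E ≤ Fintype.card X ^ 2 ∧ (ext g C K).pairs = E + 2 * K * g.pairs := by
  refine ⟨∑ x : X, ∑ y : X, if C ∧ x ≠ y then 1 else 0, ?_, ?_⟩
  · calc ∑ x : X, ∑ y : X, (if C ∧ x ≠ y then 1 else 0) ≤ ∑ _x : X, ∑ _y : X, 1 := by
          refine sum_le_sum fun x _ => sum_le_sum fun y _ => ?_
          split_ifs <;> omega
      _ = Fintype.card X ^ 2 := by simp [sq]
  · unfold Game.pairs
    rw [card_filter, card_filter, Fintype.sum_prod_type (f := fun z : X × X => if g.G.Adj z.1 z.2 then 1 else 0)]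
    rw [sum_split (fun u v => if (ext g C K).G.Adj u v then 1 else 0), mul_sum, ← sum_add_distrib]
    refine sum_congr rfl fun x _ => ?_
    rw [mul_sum, ← sum_add_distrib]
    refine sum_congr rfl fun y _ => ?_
    simp [ext]
    split_ifs <;> ring

theorem sat_split (C : Prop) (K : ℕ) (m : X × Option (Fin K) → Q) :
    ∃ E : ℕ, E ≤ Fintype.card X ^ 2 ∧ (ext g C K).sat m = E +
      ∑ k : Fin K, (D g (fun x => m (x, none)) (fun x => m (x, some k)) +
        D g (fun x => m (x, some k)) (fun x => m (x, none))) := by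
  refine ⟨∑ x : X, ∑ y : X, if C ∧ x ≠ y ∧ m (x, none) = m (y, none) then 1 else 0, ?_, ?_⟩
  · calc ∑ x : X, ∑ y : X, (if C ∧ x ≠ y ∧ m (x, none) = m (y, none) then 1 else 0) ≤
        ∑ _x : X, ∑ _y : X, 1 := by
          refine sum_le_sum fun x _ => sum_le_sum fun y _ => ?_
          split_ifs <;> omega
      _ = Fintype.card X ^ 2 := by simp [sq]
  · unfold Game.sat D
    rw [card_filter]
    rw [sum_split (fun u v => if (ext g C K).G.Adj u v ∧ (ext g C K).p u v (m u) = m v then 1 else 0)]
    rw [sum_add_distrib, sum_comm (s := univ (α := Fin K)), sum_comm (s := univ (α := Fin K)),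
      ← sum_add_distrib, ← sum_add_distrib]
    refine sum_congr rfl fun x _ => ?_
    rw [sum_comm (s := univ (α := Fin K)), sum_comm (s := univ (α := Fin K)),
      ← sum_add_distrib, ← sum_add_distrib]
    refine sum_congr rfl fun y _ => ?_
    simp only [ext, ne_eq, reduceCtorEq, not_true_eq_false, not_false_eq_true, and_true, and_false,
      false_and, or_false, false_or, or_self, and_self, if_true, if_false, sum_const_zero,
      add_zero, Equiv.Perm.coe_one, id_eq, and_assoc]
    ring

end

end RedL

theorem red : S_RED := by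
  intro X Q _ g C N K hN hK hp
  obtain ⟨E, hE, hP⟩ := RedL.pairs_split g C K
  have hX : 0 < Fintype.card X := by
    rcases Nat.eq_zero_or_pos (Fintype.card X) with h | h
    · exfalso
      have : IsEmpty X := Fintype.card_eq_zero_iff.1 h
      unfold Game.pairs at hp
      rw [card_pos] at hp
      obtain ⟨z, _⟩ := hp
      exact this.elim z.1
    · exact h
  have hK0 : 0 < K := lt_of_lt_of_le (by positivity) hK
  have hN' : (0 : ℝ) < N := by exact_mod_cast hN
  have hp' : (1 : ℝ) ≤ g.pairs := by exact_mod_cast hp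
  have hK' : (N : ℝ) * (Fintype.card X : ℝ) ^ 2 ≤ K := by exact_mod_cast hK
  have hK0' : (0 : ℝ) < K := by exact_mod_cast hK0
  have hP' : ((ext g C K).pairs : ℝ) = E + 2 * K * g.pairs := by exact_mod_cast hP
  have hE' : (E : ℝ) ≤ (Fintype.card X : ℝ) ^ 2 := by exact_mod_cast hE
  have hE0 : (0 : ℝ) ≤ E := by positivity
  -- the clique is a small part
  have hsm : ∀ F : ℕ, F ≤ Fintype.card X ^ 2 → (F : ℝ) ≤ 1 / N * (2 * K * g.pairs) := by
    intro F hF
    have hF' : (F : ℝ) ≤ (Fintype.card X : ℝ) ^ 2 := by exact_mod_cast hF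
    have h1 : (N : ℝ) * F ≤ 2 * K * g.pairs := by
      have h2 : (N : ℝ) * F ≤ K := (mul_le_mul_of_nonneg_left hF' hN'.le).trans hK'
      nlinarith
    rw [one_div, ← div_eq_inv_mul, le_div_iff₀ hN']
    linarith
  have hpos : 0 < (ext g C K).pairs := by
    rw [hP]
    positivity
  refine ⟨hpos, ?_, ?_⟩
  · intro ε l hl
    obtain ⟨E2, hE2, hS⟩ := RedL.sat_split g C K fun u => l u.1
    have hs1 : (g.sat l : ℝ) ≤ g.pairs := by
      have h2 : g.sat l ≤ g.pairs := by
        unfold Game.sat Game.pairs
        apply card_le_card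
        intro z hz
        simp only [mem_filter, mem_univ, true_and] at hz ⊢
        exact hz.1
      exact_mod_cast h2
    have hS' : ((ext g C K).sat (fun u => l u.1) : ℝ) = E2 + 2 * K * g.sat l := by
      rw [hS]
      have h8 : ∑ k : Fin K, ((RedL.D g (fun x => l (x, (none : Option (Fin K))).1)
          fun x => l (x, some k).1) + RedL.D g (fun x => l (x, some k).1)
            fun x => l (x, (none : Option (Fin K))).1) = K * (g.sat l + g.sat l) := by
        rw [RedL.sat_eq]
        have h9 : ∑ _k : Fin K, (RedL.D g l l + RedL.D g l l) =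
            K * (RedL.D g l l + RedL.D g l l) := by
          rw [sum_const, card_univ, Fintype.card_fin, smul_eq_mul]
        exact h9
      rw [h8]
      push_cast
      ring
    have hE20 : (0 : ℝ) ≤ E2 := by positivity
    rw [hS', hP']
    have hε : (1 - ε) ≤ 1 := by
      by_contra hc
      push Not at hc
      nlinarith
    have h3 := hsm E hE
    have h4 : (1 - ε - 1 / N) * (E : ℝ) ≤ E := by
      have : (0 : ℝ) < 1 / N := by positivity
      nlinarith
    have h5 : (2 : ℝ) * K * ((1 - ε) * g.pairs) ≤ 2 * K * g.sat l :=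
      mul_le_mul_of_nonneg_left hl (by positivity)
    nlinarith
  · intro δ hδ m
    obtain ⟨E2, hE2, hS⟩ := RedL.sat_split g C K m
    have hδ0 : 0 ≤ δ := by
      have h1 := hδ fun x => m (x, none)
      have h2 : (0 : ℝ) ≤ g.sat fun x => m (x, none) := by positivity
      by_contra hc
      push Not at hc
      nlinarith
    have hD : ∀ l0 l1 : X → Q, (RedL.D g l0 l1 : ℝ) ≤ 2 * (δ * g.pairs) := fun l0 l1 =>
      RedL.D_le g l0 l1 _ hδ
    have hS' : ((ext g C K).sat m : ℝ) ≤ E2 + 4 * K * (δ * g.pairs) := by
      rw [hS]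
      push_cast
      have h6 : ∑ k : Fin K, ((RedL.D g (fun x => m (x, none)) (fun x => m (x, some k)) : ℝ) +
          RedL.D g (fun x => m (x, some k)) (fun x => m (x, none))) ≤
          ∑ _k : Fin K, (2 * (δ * g.pairs) + 2 * (δ * g.pairs)) :=
        sum_le_sum fun k _ => add_le_add (hD _ _) (hD _ _)
      rw [sum_const, card_univ, Fintype.card_fin, nsmul_eq_mul] at h6
      linarith
    have h3 := hsm E2 hE2
    have h7 : (2 * δ + 1 / N) * (2 * K * g.pairs) ≤ (2 * δ + 1 / N) * ((ext g C K).pairs : ℝ) := by
      apply mul_le_mul_of_nonneg_left _ (by positivity)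
      rw [hP']
      linarith
    nlinarith

end Pool.Agent.H698.HF
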