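import Pool.Agent.H698.HF.Stm

set_option autoImplicit false

open scoped Classical
open Finset
open Pool.Agent.H698.SF (Game nbr mem_nbr prs Bad nbad)

namespace Pool.Agent.H698.HF

section

variable {X : Type} [Fintype X] (G : SimpleGraph X)

theorem dg_nonneg (x : X) : 0 ≤ dg G x := by unfold dg; positivity

theorem dg_le (x : X) : dg G x ≤ Fintype.card X := by
  unfold dg
  exact_mod_cast card_le_univ _

theorem J_nonneg (x y : X) : 0 ≤ J G x y := by unfold J; positivity

theorem S3_nonneg : 0 ≤ S3 G := sum_nonneg fun x _ => sum_nonneg fun y _ => J_nonneg G x y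

theorem S4_nonneg : 0 ≤ S4 G :=
  sum_nonneg fun x _ => div_nonneg (sum_nonneg fun y _ => sum_nonneg fun z _ => J_nonneg G y z)
    (dg_nonneg G x)

theorem P_nonneg : 0 ≤ P G := sum_nonneg fun x _ => dg_nonneg G x

theorem P_le : P G ≤ (Fintype.card X : ℝ) * Fintype.card X := by
  unfold P
  refine (sum_le_sum fun x _ => dg_le G x).trans ?_
  rw [sum_const, card_univ, nsmul_eq_mul]

theorem J_self {x y : X} (h : G.Adj x y) : J G y y = 1 := by
  unfold J
  rw [inter_self, union_self]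
  apply div_self
  have : 0 < (nbr G y).card := card_pos.2 ⟨x, (mem_nbr G).2 h.symm⟩
  positivity

theorem P_le_S4 : P G ≤ Fintype.card X * S4 G := by
  unfold P S4
  rw [mul_sum]
  refine sum_le_sum fun x _ => ?_
  rcases (dg_nonneg G x).eq_or_lt with h | h
  · rw [← h]
    simp
  · have h1 : dg G x ≤ ∑ y ∈ nbr G x, ∑ z ∈ nbr G x, J G y z := by
      have : dg G x = ∑ y ∈ nbr G x, (1 : ℝ) := by simp [dg]
      rw [this]
      refine sum_le_sum fun y hy => ?_
      have h2 := single_le_sum (f := fun z => J G y z) (fun z _ => J_nonneg G y z) hy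
      rw [J_self G ((mem_nbr G).1 hy)] at h2
      exact h2
    have h3 : 1 ≤ (∑ y ∈ nbr G x, ∑ z ∈ nbr G x, J G y z) / dg G x := by
      rw [le_div_iff₀ h]
      linarith
    have h4 := dg_le G x
    have h5 : (0 : ℝ) ≤ Fintype.card X := by positivity
    nlinarith

end

theorem struct (hB : S_BETA) (h1 : S_CASE1) (hN : S_NEST) (h2 : S_CASE2) : S_STRUCT := by
  intro t ht
  have ht1 : (1 : ℝ) ≤ t := by exact_mod_cast ht
  obtain ⟨ρ, hρ⟩ : ∃ ρ : ℝ, ρ = 1 / (1100 * ((t : ℝ) + 1) ^ 2) := ⟨_, rfl⟩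
  obtain ⟨κ, hκ⟩ : ∃ κ : ℝ, κ = ρ / 9 := ⟨_, rfl⟩
  obtain ⟨κ3, hκ3⟩ : ∃ κ3 : ℝ, κ3 = 1 / (4 * (3 * t + 2)) := ⟨_, rfl⟩
  obtain ⟨M, hM⟩ : ∃ M : ℝ, M = 16384 * t / κ ^ 2 := ⟨_, rfl⟩
  have hρ0 : 0 < ρ := by rw [hρ]; positivity
  have hρ1 : ρ ≤ 1 / 1100 := by
    rw [hρ]
    apply one_div_le_one_div_of_le (by norm_num)
    nlinarith
  have hκ0 : 0 < κ := by rw [hκ]; positivity
  have hκ1 : κ ≤ 1 / 9900 := by rw [hκ]; linarith
  have hκ30 : 0 < κ3 := by rw [hκ3]; positivity
  have hκ31 : κ3 ≤ 1 := by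
    rw [hκ3, div_le_one (by positivity)]
    nlinarith
  have hratio : κ / 16 ≤ κ3 / 4 := by
    rw [hκ, hρ, hκ3]
    rw [div_div, div_div, div_div, div_le_div_iff₀ (by positivity) (by positivity)]
    nlinarith
  have hM1 : 1 ≤ M := by
    rw [hM, le_div_iff₀ (by positivity)]
    nlinarith
  obtain ⟨η, hη⟩ : ∃ η : ℝ, η = min (min (ρ / 12) (κ / (8 * (M + 1))))
    (min (1 / (2 * (3 * t + 2) + 1)) (κ ^ 3 / 8192)) := ⟨_, rfl⟩
  have hη0 : 0 < η := by
    rw [hη]
    refine lt_min (lt_min ?_ ?_) (lt_min ?_ ?_) <;> positivity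
  have e1 : η ≤ ρ / 12 := by rw [hη]; exact (min_le_left _ _).trans (min_le_left _ _)
  have e2 : η ≤ κ / (8 * (M + 1)) := by rw [hη]; exact (min_le_left _ _).trans (min_le_right _ _)
  have e3 : η ≤ 1 / (2 * (3 * t + 2) + 1) := by
    rw [hη]; exact (min_le_right _ _).trans (min_le_left _ _)
  have e4 : η ≤ κ ^ 3 / 8192 := by rw [hη]; exact (min_le_right _ _).trans (min_le_right _ _)
  refine ⟨min η (κ3 ^ 3 * (κ / 16) ^ 2 / 64), lt_min hη0 (by positivity), ?_⟩
  intro X _ G hDS
  by_contra hcon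
  push Not at hcon
  set c := min η (κ3 ^ 3 * (κ / 16) ^ 2 / 64) with hc
  have c0 : 0 < c := lt_min hη0 (by positivity)
  have c1 : c ≤ η := min_le_left _ _
  have c2 : c ≤ κ3 ^ 3 * (κ / 16) ^ 2 / 64 := min_le_right _ _
  have s3 := S3_nonneg G
  have s4 := S4_nonneg G
  have hP : 0 < P G := by
    rcases (P_nonneg G).eq_or_lt with h | h
    · rw [← h] at hcon
      linarith
    · exact h
  have hS3 : S3 G < η * P G := by nlinarith
  have hS4 : S4 G < η * P G := by nlinarith
  set n : ℝ := (Fintype.card X : ℝ) with hn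
  have hn0 : 0 ≤ n := by rw [hn]; positivity
  have hbign : 2 * (3 * t + 2) < Fintype.card X := by
    have h3 := P_le_S4 G
    rw [← hn] at h3
    have h4 : 1 < n * η := by
      by_contra h5
      push Not at h5
      have h6 : n * S4 G ≤ n * (η * P G) := mul_le_mul_of_nonneg_left hS4.le hn0
      have h7 : n * (η * P G) ≤ P G := by nlinarith
      have hn1 : 0 < n := by
        rcases hn0.eq_or_lt with h | h
        · rw [← h] at h3
          linarith
        · exact h
      have h8 : n * S4 G < n * (η * P G) := mul_lt_mul_of_pos_left hS4 hn1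
      linarith
    have h5 : n * η ≤ n * (1 / (2 * (3 * t + 2) + 1)) := mul_le_mul_of_nonneg_left e3 hn0
    have h6 : 1 < n * (1 / (2 * (3 * t + 2) + 1)) := h4.trans_le h5
    rw [mul_one_div, one_lt_div (by positivity)] at h6
    have h7 : ((2 * (3 * t + 2) + 1 : ℕ) : ℝ) < n := by push_cast; exact h6
    rw [hn] at h7
    have h8 : 2 * (3 * t + 2) + 1 < Fintype.card X := by exact_mod_cast h7
    omega
  have hmass : ∑ x ∈ big G κ3, dg G x < κ / 16 * P G := by
    by_contra h
    push Not at h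
    have := hB X G κ3 (κ / 16) hκ30 hκ31 (by positivity) (by linarith) h
    have h3 : c * P G ≤ κ3 ^ 3 * (κ / 16) ^ 2 / 64 * P G :=
      mul_le_mul_of_nonneg_right c2 hP.le
    linarith
  have hbc : ((big G κ3).card : ℝ) ≤ Fintype.card X / 4 := by
    have h3 : ((big G κ3).card : ℝ) * (κ3 * n) ≤ ∑ x ∈ big G κ3, dg G x := by
      rw [← nsmul_eq_mul, ← sum_const]
      refine sum_le_sum fun x hx => ?_
      rw [big, mem_filter] at hx
      exact hx.2.le
    have h4 : ((big G κ3).card : ℝ) * (κ3 * n) ≤ κ / 16 * (n * n) := by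
      have := mul_le_mul_of_nonneg_left (P_le G) (show 0 ≤ κ / 16 by positivity)
      rw [← hn] at this
      linarith
    have h5 : κ / 16 * (n * n) ≤ κ3 / 4 * (n * n) :=
      mul_le_mul_of_nonneg_right hratio (by positivity)
    rw [← hn]
    have hn1 : 0 < n := by
      rw [hn]
      have : 0 < Fintype.card X := by omega
      exact_mod_cast this
    have h6 : 0 < κ3 * n := by positivity
    by_contra h7
    push Not at h7
    have := mul_lt_mul_of_pos_right h7 h6
    nlinarith
  rcases lt_or_ge (Tri G) (κ * P G) with hT | hT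
  · apply hDS
    refine h1 X G t ρ κ3 ht hρ0 (by rw [hρ]) hκ30.le (by rw [hκ3]) hP hbc hbign ?_
    have : κ * P G = ρ * P G / 9 := by rw [hκ]; ring
    nlinarith
  · have h3 := h2 X G κ κ3 M hκ0 (by linarith) hM1 hT hmass.le (by
      have h4 : 2 * (M + 1) * S3 G ≤ 2 * (M + 1) * (κ / (8 * (M + 1)) * P G) := by
        apply mul_le_mul_of_nonneg_left _ (by linarith)
        exact hS3.le.trans (mul_le_mul_of_nonneg_right e2 hP.le)
      refine h4.trans (le_of_eq ?_)
      have : M + 1 ≠ 0 := by linarith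
      field_simp
      ring) (by
      intro x x' hxx hx hx' hl hl' hd hd'
      by_contra hno
      push Not at hno
      apply hDS
      refine hN X G t κ3 (κ / 64) (κ / 16) M ht hκ30.le (by rw [hκ3]) hbc hbign (by positivity)
        (by linarith) (by positivity) (by linarith) ?_ hM1 x x' hxx hx hx' hl hl' hd hd' hno.1 hno.2
      rw [hM]
      have : κ ≠ 0 := hκ0.ne'
      field_simp
      norm_num)
    have h5 : c * P G ≤ κ ^ 3 / 8192 * P G := mul_le_mul_of_nonneg_right (c1.trans e4) hP.le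
    linarith

end Pool.Agent.H698.HF
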