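import Pool.Agent.H698.HF.Small
import Pool.Agent.H698.HF.AlgAll
import Pool.Agent.H698.HF.Struct
import Pool.Agent.H698.HF.Beta
import Pool.Agent.H698.HF.Nest
import Pool.Agent.H698.HF.Algdet
import Pool.Agent.H698.HF.Alghub
import Pool.Agent.H698.HF.Emb
import Pool.Agent.H698.HF.Algloss
import Pool.Agent.H698.HF.Case1
import Pool.Agent.H698.HF.Case2
import Pool.Agent.H698.HF.Red

set_option autoImplicit false

open scoped Classical
open Finset
open Pool.Agent.H698.SF (Game nbr mem_nbr prs Bad nbad)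

namespace Pool.Agent.H698.HF

theorem pairs_eq_P {X Q : Type} [Fintype X] (g : Game X Q) : (g.pairs : ℝ) = P g.G := by
  have := SF.card_prs g.G
  unfold P dg
  rw [← this]
  rfl

theorem DS_mono {X : Type} [Fintype X] {G : SimpleGraph X} {t t' : ℕ} (h : t' ≤ t) (hd : DS G t) :
    DS G t' := by
  obtain ⟨a, b, Y, Z, W, h1, h2, h3, h4, h5⟩ := hd
  exact ⟨a, b, Y, Z, W, h1, h.trans h2, h.trans h3, h.trans h4, h5⟩

/-- The easy part. -/
theorem easy (hA : S_ALG) (hS : S_STRUCT) (hE : S_EMB) {W : Type} [Fintype W] (H : SimpleGraph W)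
    (h1 : Bip H) (h2 : Split H) :
    ∃ c : ℝ, 0 < c ∧ ∀ (X Q : Type) [Fintype X] [Fintype Q] [Nonempty Q] (g : Game X Q),
      IsEmpty (H ↪g g.G) → ∀ l : X → Q,
        c * g.pairs - 3 * ((g.pairs : ℝ) - g.sat l) ≤
          (∑ s : Trip X, (g.sat (hubLabelling g s.1 s.2.1 s.2.2) : ℝ)) /
            Fintype.card (Trip X) := by
  obtain ⟨c, hc, h⟩ := hS (Fintype.card W + 1) (by omega)
  refine ⟨c / 4, by positivity, ?_⟩
  intro X Q _ _ _ g hg l
  refine le_trans ?_ (hA X Q g l)
  have h3 : ¬ DS g.G (Fintype.card W + 1) := by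
    intro h4
    have h5 := hE W H h1 h2 X g.G (DS_mono (by omega) h4)
    exact hg.false h5.some
  have h4 := h X g.G h3
  rw [← pairs_eq_P] at h4
  have h5 := S3_nonneg g.G
  have h6 := S4_nonneg g.G
  linarith

theorem allAlg : S_ALG := alg algdet alghub algloss

theorem allStruct : S_STRUCT := struct beta (case1 greedy zlem) (nest avoid zlem) case2

end Pool.Agent.H698.HF
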