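import Pool.Agent.H698.HF.Stm

set_option autoImplicit false

open scoped Classical
open Finset
open Pool.Agent.H698.SF (Game nbr mem_nbr prs Bad nbad)

namespace Pool.Agent.H698.HF

theorem greedy : S_GREEDY := by
  intro X S R ρ t hne hrefl hsymm hpairs ht
  have hS : 0 < (S.card : ℝ) := by exact_mod_cast hne.card_pos
  -- the number of pairs is the sum of the degrees
  set deg : X → ℕ := fun x => (S.filter fun y => R x y).card with hdeg
  have hsum : ((((S ×ˢ S).filter fun z => R z.1 z.2).card : ℕ) : ℝ) = ∑ x ∈ S, (deg x : ℝ) := by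
    rw [card_filter, sum_product]
    push_cast
    refine sum_congr rfl fun x _ => ?_
    rw [hdeg]
    simp only [card_filter]
    push_cast
    rfl
  rw [hsum] at hpairs
  have hρ : 0 < ρ := by
    have h1 : (S.card : ℝ) ≤ ∑ x ∈ S, (deg x : ℝ) := by
      rw [← nsmul_one, ← sum_const]
      refine sum_le_sum fun x hx => ?_
      have : 0 < deg x := card_pos.2 ⟨x, mem_filter.2 ⟨hx, hrefl x hx⟩⟩
      exact_mod_cast this
    by_contra h
    push Not at h
    have : ρ * (S.card : ℝ) ^ 2 ≤ 0 := mul_nonpos_of_nonpos_of_nonneg h (by positivity)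
    linarith
  set S' := S.filter fun x => (deg x : ℝ) ≤ 2 * ρ * S.card with hS'
  have hcard : (S.card : ℝ) / 2 ≤ S'.card := by
    have h1 : ((S \ S').card : ℝ) * (2 * ρ * S.card) ≤ ∑ x ∈ S, (deg x : ℝ) := by
      rw [← nsmul_eq_mul, ← sum_const]
      refine (sum_le_sum (g := fun x => (deg x : ℝ)) fun x hx => ?_).trans
        (sum_le_sum_of_subset_of_nonneg sdiff_subset fun x _ _ => by positivity)
      rw [mem_sdiff, hS', mem_filter, not_and, not_le] at hx
      exact (hx.2 hx.1).le
    have h2 : ((S \ S').card : ℝ) + S'.card = S.card := by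
      have := card_sdiff_add_card_eq_card (filter_subset (fun x => (deg x : ℝ) ≤ 2 * ρ * S.card) S)
      rw [← hS'] at this
      exact_mod_cast this
    have h3 : ((S \ S').card : ℝ) * (2 * ρ * S.card) ≤ ρ * (S.card : ℝ) ^ 2 := h1.trans hpairs
    have h4 : ((S \ S').card : ℝ) ≤ S.card / 2 := by
      have h5 : 0 < 2 * ρ * S.card := by positivity
      by_contra h6
      push Not at h6
      have := mul_lt_mul_of_pos_right h6 h5
      nlinarith
    linarith
  -- greedy choice
  have key : ∀ i : ℕ, i ≤ t → ∃ T ⊆ S', T.card = i ∧ ∀ x ∈ T, ∀ y ∈ T, x ≠ y → ¬ R x y := by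
    intro i
    induction i with
    | zero => exact fun _ => ⟨∅, by simp, by simp, by simp⟩
    | succ i ih =>
      intro hi
      obtain ⟨T, hT, hTc, hTR⟩ := ih (by omega)
      have h1 : ((T.biUnion fun x => S.filter fun y => R x y).card : ℝ) < S'.card := by
        have h2 : ((T.biUnion fun x => S.filter fun y => R x y).card : ℝ) ≤
            i * (2 * ρ * S.card) := by
          have h3 : (T.biUnion fun x => S.filter fun y => R x y).card ≤ ∑ x ∈ T, deg x :=
            card_biUnion_le
          have h4 : ((∑ x ∈ T, deg x : ℕ) : ℝ) ≤ i * (2 * ρ * S.card) := by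
            push_cast
            rw [← hTc, ← nsmul_eq_mul, ← sum_const]
            exact sum_le_sum fun x hx => (mem_filter.1 (hT hx)).2
          have h3' : ((T.biUnion fun x => S.filter fun y => R x y).card : ℝ) ≤
            ((∑ x ∈ T, deg x : ℕ) : ℝ) := by exact_mod_cast h3
          exact h3'.trans h4
        have h5 : (i : ℝ) + 1 ≤ t := by exact_mod_cast hi
        have h6 : (i : ℝ) * (2 * ρ * S.card) < S.card / 2 := by
          have : 4 * ρ * i < 1 := by nlinarith
          nlinarith
        linarith
      have h1' : (T.biUnion fun x => S.filter fun y => R x y).card < S'.card := by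
        exact_mod_cast h1
      obtain ⟨y, hy, hy2⟩ := exists_mem_notMem_of_card_lt_card h1'
      have hyS : y ∈ S := (mem_filter.1 hy).1
      have hR : ∀ x ∈ T, ¬ R x y := by
        intro x hx h
        exact hy2 (mem_biUnion.2 ⟨x, hx, mem_filter.2 ⟨hyS, h⟩⟩)
      have hyT : y ∉ T := fun h => hR y h (hrefl y hyS)
      refine ⟨insert y T, ?_, by rw [card_insert_of_notMem hyT, hTc], ?_⟩
      · intro z hz
        rcases mem_insert.1 hz with rfl | hz
        · exact hy
        · exact hT hz
      · intro a ha b hb hab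
        rcases mem_insert.1 ha with ha' | ha'
        · rcases mem_insert.1 hb with hb' | hb'
          · exact absurd (ha'.trans hb'.symm) hab
          · rw [ha']
            exact fun h => hR b hb' (hsymm _ _ h)
        · rcases mem_insert.1 hb with hb' | hb'
          · rw [hb']
            exact hR a ha'
          · exact hTR a ha' b hb' hab
  obtain ⟨T, h1, h2, h3⟩ := key t le_rfl
  exact ⟨T, h1.trans (filter_subset _ _), h2, h3⟩

theorem avoid : S_AVOID := by
  intro X _ G U D t hD hU ht
  have key : ∀ i : ℕ, i ≤ t → ∃ T ⊆ U, T.card = i ∧ ∀ x ∈ T, ∀ y ∈ T, ¬ G.Adj x y := by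
    intro i
    induction i with
    | zero => exact fun _ => ⟨∅, by simp, by simp, by simp⟩
    | succ i ih =>
      intro hi
      obtain ⟨T, hT, hTc, hTR⟩ := ih (by omega)
      have h1 : ((T.biUnion fun x => insert x (nbr G x)).card : ℝ) < U.card := by
        have h3 : (T.biUnion fun x => insert x (nbr G x)).card ≤
            ∑ x ∈ T, (insert x (nbr G x)).card := card_biUnion_le
        have h3' : ((T.biUnion fun x => insert x (nbr G x)).card : ℝ) ≤
            ((∑ x ∈ T, (insert x (nbr G x)).card : ℕ) : ℝ) := by exact_mod_cast h3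
        have h4 : ((∑ x ∈ T, (insert x (nbr G x)).card : ℕ) : ℝ) ≤ i * (D + 1) := by
          push_cast
          rw [← hTc, ← nsmul_eq_mul, ← sum_const]
          refine sum_le_sum fun x hx => ?_
          have h5 : ((insert x (nbr G x)).card : ℝ) ≤ (nbr G x).card + 1 := by
            exact_mod_cast card_insert_le _ _
          have h6 := hU x (hT hx)
          unfold dg at h6
          linarith
        have h5 : (i : ℝ) + 1 ≤ t := by exact_mod_cast hi
        have h6 : (i : ℝ) * (D + 1) ≤ t * (D + 1) := by nlinarith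
        linarith
      have h1' : (T.biUnion fun x => insert x (nbr G x)).card < U.card := by exact_mod_cast h1
      obtain ⟨y, hy, hy2⟩ := exists_mem_notMem_of_card_lt_card h1'
      have hR : ∀ x ∈ T, ¬ G.Adj x y := by
        intro x hx h
        exact hy2 (mem_biUnion.2 ⟨x, hx, mem_insert_of_mem ((mem_nbr G).2 h)⟩)
      have hyT : y ∉ T := fun h => hy2 (mem_biUnion.2 ⟨y, h, mem_insert_self _ _⟩)
      refine ⟨insert y T, ?_, by rw [card_insert_of_notMem hyT, hTc], ?_⟩
      · intro z hz
        rcases mem_insert.1 hz with rfl | hz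
        · exact hy
        · exact hT hz
      · intro a ha b hb
        rcases mem_insert.1 ha with ha' | ha'
        · rcases mem_insert.1 hb with hb' | hb'
          · rw [ha', hb']
            exact G.loopless.irrefl _
          · rw [ha']
            exact fun h => hR b hb' h.symm
        · rcases mem_insert.1 hb with hb' | hb'
          · rw [hb']
            exact hR a ha'
          · exact hTR a ha' b hb'
  exact key t le_rfl

theorem zlem : S_Z := by
  intro X _ G κ t S hκ hκ2 hbig hn hS hSb
  set n : ℝ := (Fintype.card X : ℝ) with hnd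
  have hn' : 2 * (3 * (t : ℝ) + 2) < n := by rw [hnd]; exact_mod_cast hn
  have ht0 : (0 : ℝ) ≤ t := by positivity
  have hn0 : 0 < n := by linarith
  have hden : (0 : ℝ) < 4 * (3 * t + 2) := by positivity
  have hκ3 : (3 * (t : ℝ) + 2) * (κ * n) ≤ n / 4 := by
    rw [le_div_iff₀ hden] at hκ2
    nlinarith
  set V := S.biUnion fun x => insert x (nbr G x) with hV
  set U := univ \ (big G κ ∪ V) with hU
  have hVc : (V.card : ℝ) ≤ (2 * t + 2) * (κ * n + 1) := by
    have h3 : V.card ≤ ∑ x ∈ S, (insert x (nbr G x)).card := card_biUnion_le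
    have h3' : (V.card : ℝ) ≤ ((∑ x ∈ S, (insert x (nbr G x)).card : ℕ) : ℝ) := by
      exact_mod_cast h3
    have h4 : ((∑ x ∈ S, (insert x (nbr G x)).card : ℕ) : ℝ) ≤ S.card * (κ * n + 1) := by
      push_cast
      rw [← nsmul_eq_mul, ← sum_const]
      refine sum_le_sum fun x hx => ?_
      have h5 : ((insert x (nbr G x)).card : ℝ) ≤ (nbr G x).card + 1 := by
        exact_mod_cast card_insert_le _ _
      have h6 := hSb x hx
      rw [big, mem_filter, not_and, not_lt] at h6
      have h7 := h6 (mem_univ x)
      unfold dg at h7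
      rw [← hnd] at h7
      linarith
    have h5 : (S.card : ℝ) ≤ 2 * t + 2 := by exact_mod_cast hS
    have h6 : 0 ≤ κ * n + 1 := by positivity
    have := mul_le_mul_of_nonneg_right h5 h6
    linarith
  have hUc : n - (big G κ).card - V.card ≤ U.card := by
    have h1 : U.card + (big G κ ∪ V).card = Fintype.card X := by
      rw [hU, card_sdiff_add_card_eq_card (subset_univ _), card_univ]
    have h2 := card_union_le (big G κ) V
    have h3 : (U.card : ℝ) + (big G κ ∪ V).card = n := by rw [hnd]; exact_mod_cast h1
    have h4 : ((big G κ ∪ V).card : ℝ) ≤ (big G κ).card + V.card := by exact_mod_cast h2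
    linarith
  obtain ⟨T, hT, hTc, hTa⟩ := avoid X G U (κ * n) t (by positivity) (by
    intro x hx
    rw [hU, mem_sdiff, mem_union, not_or] at hx
    have h6 := hx.2.1
    rw [big, mem_filter, not_and, not_lt] at h6
    exact h6 (mem_univ x)) (by
    have : (t : ℝ) * (κ * n + 1) + (2 * t + 2) * (κ * n + 1) = (3 * t + 2) * (κ * n) + (3 * t + 2) := by
      ring
    linarith)
  refine ⟨T, hTc, ?_, hTa⟩
  intro u hu
  have h1 := hT hu
  rw [hU, mem_sdiff, mem_union, not_or] at h1
  have h2 := h1.2.2
  rw [hV, mem_biUnion] at h2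
  push Not at h2
  constructor
  · intro h3
    exact h2 u h3 (mem_insert_self _ _)
  · intro x hx h3
    exact h2 x hx (mem_insert_of_mem ((mem_nbr G).2 h3))

theorem free : S_FREE := by
  intro W H h X Q g K
  constructor
  intro f
  have hadj : ∀ u v, H.Adj u v ↔ (ext g (Bip H) K).G.Adj (f u) (f v) := fun u v => f.map_rel_iff.symm
  by_cases hB : Bip H
  · apply h
    refine ⟨hB, {w | (f w).2 = none}, ?_, ?_⟩
    · intro u hu v hv huv
      rw [hadj]
      refine Or.inr ⟨hB, ?_, hu, hv⟩
      intro h1
      apply huv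
      apply f.injective
      exact Prod.ext h1 ((show (f u).2 = none from hu).trans (show (f v).2 = none from hv).symm)
    · intro u hu v hv huv
      rw [hadj] at huv
      rcases huv with ⟨_, h2 | h2⟩ | ⟨_, _, h2, _⟩
      · exact hu h2.1
      · exact hv h2.2
      · exact hu h2
  · apply hB
    refine ⟨{w | (f w).2 = none}, ?_, ?_⟩
    · intro u hu v hv huv
      rw [hadj] at huv
      rcases huv with ⟨_, h2 | h2⟩ | ⟨h2, _⟩
      · exact h2.2 hv
      · exact h2.1 hu
      · exact hB h2
    · intro u hu v hv huv
      rw [hadj] at huv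
      rcases huv with ⟨_, h2 | h2⟩ | ⟨h2, _⟩
      · exact hu h2.1
      · exact hv h2.2
      · exact hB h2

end Pool.Agent.H698.HF
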