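import Pool.Agent.H698.SF.Alg
import Pool.Agent.H698.HF.Defs

/-! # Unique games on graphs without an induced subgraph `H`: the interfaces -/

set_option autoImplicit false

open scoped Classical
open Finset
open Pool.Agent.H698.SF (Game nbr mem_nbr prs Bad nbad)

namespace Pool.Agent.H698.HF

section

variable {X : Type} [Fintype X]

/-- the degree -/
noncomputable def dg (G : SimpleGraph X) (x : X) : ℝ := ((nbr G x).card : ℝ)

/-- the similarity of two neighbourhoods -/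
noncomputable def J (G : SimpleGraph X) (x y : X) : ℝ :=
  ((nbr G x ∩ nbr G y).card : ℝ) / ((nbr G x ∪ nbr G y).card : ℝ)

/-- the sum of the degrees, which is the number of ordered pairs of adjacent vertices -/
noncomputable def P (G : SimpleGraph X) : ℝ := ∑ x, dg G x

noncomputable def S3 (G : SimpleGraph X) : ℝ := ∑ x, ∑ y ∈ nbr G x, J G x y

noncomputable def S4 (G : SimpleGraph X) : ℝ :=
  ∑ x, (∑ y ∈ nbr G x, ∑ z ∈ nbr G x, J G y z) / dg G x

noncomputable def Tri (G : SimpleGraph X) : ℝ :=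
  ∑ x, (∑ y ∈ nbr G x, ((nbr G x ∩ nbr G y).card : ℝ)) / dg G x

/-- the vertices with degree above `κ |X|` -/
noncomputable def big (G : SimpleGraph X) (κ : ℝ) : Finset X :=
  univ.filter fun x => κ * Fintype.card X < dg G x

/-- the neighbours of `x` with degree at most `d(x) / M` -/
noncomputable def low (G : SimpleGraph X) (M : ℝ) (x : X) : Finset X :=
  (nbr G x).filter fun y => M * dg G y ≤ dg G x

/-- There are adjacent vertices `a`, `b` and `t` vertices adjacent to `a` only, `t` vertices adjacent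
to `b` only, and `t` vertices adjacent to none of them, all of these pairwise nonadjacent. -/
def DS (G : SimpleGraph X) (t : ℕ) : Prop :=
  ∃ a b : X, ∃ Y Z W : Finset X, G.Adj a b ∧ t ≤ Y.card ∧ t ≤ Z.card ∧ t ≤ W.card ∧
    b ∉ Y ∧ a ∉ Z ∧ (∀ u ∈ Y, G.Adj a u ∧ ¬ G.Adj b u) ∧ (∀ u ∈ Z, G.Adj b u ∧ ¬ G.Adj a u) ∧
    (∀ u ∈ W, ¬ G.Adj a u ∧ ¬ G.Adj b u) ∧
    ∀ u ∈ Y ∪ Z ∪ W, ∀ v ∈ Y ∪ Z ∪ W, ¬ G.Adj u v

/-- the transport from the hub of `u` to `u` uses a violated constraint -/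
def badPath {Q : Type} (g : Game X Q) (l : X → Q) (σ τ : SF.Ord X) (r : X → Bool) (u : X) : Prop :=
  if r u then Bad g l (first g.G τ u) u ∨ Bad g l (hub g.G σ τ r u) (first g.G τ u)
  else Bad g l (hub g.G σ τ r u) u

/-- the triples of two orders and roles -/
abbrev Trip (X : Type) [Fintype X] : Type := SF.Ord X × SF.Ord X × (X → Bool)

end

/-! ### The algorithm -/

/-- ALGDET (deterministic part; the same argument as `SF.sat_pivot'` with `spread_eq`,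
`inside_best`, `sat_pivot` in SF/Alg.lean). Let `c = hub z.1 = hub z.2` and use the label `l c` for
the hub `c`. For a vertex `u` with a neighbour and `¬ badPath u` one has
`lab g σ τ r (l (hub u)) u = l u`: if `r u = false` then `hub u = first σ u` is adjacent to `u`, and
`¬ Bad` gives `p (hub u) u (l (hub u)) = l u`; if `r u = true` then `w = first τ u` is adjacent to
`u`, `w` has the neighbour `u`, so `hub u = first σ w` is adjacent to `w`, and two uses of `¬ Bad`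
give the claim. Hence the pair `z` is counted by `inside g σ τ r c (l c) ≤ inside g σ τ r c (best c)`,
and the sum of `inside g σ τ r c (best c)` over `c` is at most `sat (hubLabelling)`. -/
def S_ALGDET : Prop :=
  ∀ (X Q : Type) [Fintype X] [Fintype Q] [Nonempty Q] (g : Game X Q) (l : X → Q) (σ τ : SF.Ord X)
    (r : X → Bool),
    ((prs g.G).filter fun z => hub g.G σ τ r z.1 = hub g.G σ τ r z.2 ∧
      ¬ badPath g l σ τ r z.1 ∧ ¬ badPath g l σ τ r z.2 ∧ ¬ Bad g l z.1 z.2).card ≤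
      g.sat (hubLabelling g σ τ r)

/-- ALGHUB. `T` is the number of triples `(σ, τ, r)`, `T = (n!)^2 2^n`.
For an adjacent pair `(x, y)` (so `x ≠ y`) the roles `(r x, r y)` take each of the four values for
`2^n / 4` of all `r`.
Roles false, false: `hub x = first σ x`, `hub y = first σ y`; they are equal if the `σ`-first element
of `N(x) ∪ N(y)` lies in `N(x) ∩ N(y)`, so for at least (in fact exactly) `n! J(x, y)` of the orders
`σ` (see `SF.same_pivot`, `SF.card_first_real`).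
Roles true, false: for every `w ∈ N(x)` one has `first τ x = w` for `n! / d(x)` of the `τ`
(`SF.card_first_real`), and then `hub x = first σ w`, `hub y = first σ y` are equal for at least
`n! J(w, y)` of the `σ`. Roles false, true: symmetric.
The sum over all ordered adjacent pairs `(x, y)` of `J(x, y)` is `S3`, and the sum of
`∑ w ∈ N(x), J(w, y) / d(x)` is `S4`. -/
def S_ALGHUB : Prop :=
  ∀ (X : Type) [Fintype X] (G : SimpleGraph X),
    (Fintype.card (Trip X) : ℝ) * (S3 G / 4 + S4 G / 2) ≤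
      ∑ s : Trip X, (((prs G).filter fun z => ¬ (s.2.2 z.1 = true ∧ s.2.2 z.2 = true) ∧
        hub G s.1 s.2.1 s.2.2 z.1 = hub G s.1 s.2.1 s.2.2 z.2).card : ℝ)

/-- ALGLOSS. For an adjacent pair `z = (x, y)`:
roles (false, false) and (false, true) of `(x, y)` (together `1/2` of all `r`): `badPath x` means
`Bad (first σ x) x`; for a fixed `x` the number of `σ` with this is `n! bad(x) / d(x)`, where
`bad(x)` is the number of `c` with `Bad c x` (each `c ∈ N(x)` is `first σ x` for `n! / d(x)` of the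
`σ`; `c` is adjacent to `x` if `Bad c x`).
Roles (true, false) (`1/4` of all `r`): `badPath x` implies `Bad (first τ x) x`, which holds for
`n! bad(x) / d(x)` of the `τ`, or `Bad (first σ w) w` for `w = first τ x`; for fixed `w ∈ N(x)` this
holds for `n! bad(w) / d(w)` of the `σ`, and `first τ x = w` for `n! / d(x)` of the `τ`.
Now sum over all ordered adjacent pairs `(x, y)`: as there are `d(x)` of them for a given `x`,
`∑ z, bad(x) / d(x) = ∑ x, bad(x) = nbad`, and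
`∑ z, ∑ w ∈ N(x), bad(w) / (d(w) d(x)) = ∑ x, ∑ w ∈ N(x), bad(w) / d(w) = ∑ w, bad(w) = nbad`.
Total: `T nbad (1/2 + 1/4 + 1/4)`. (Compare `SF.loss` in SF/Alg.lean.) -/
def S_ALGLOSS : Prop :=
  ∀ (X Q : Type) [Fintype X] (g : Game X Q) (l : X → Q),
    ∑ s : Trip X, (((prs g.G).filter fun z => ¬ (s.2.2 z.1 = true ∧ s.2.2 z.2 = true) ∧
        badPath g l s.1 s.2.1 s.2.2 z.1).card : ℝ) ≤
      (Fintype.card (Trip X) : ℝ) * nbad g l

/-- ALG: from the three parts above (the events for `z.2` by the symmetry of `prs`). -/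
def S_ALG : Prop :=
  ∀ (X Q : Type) [Fintype X] [Fintype Q] [Nonempty Q] (g : Game X Q) (l : X → Q),
    S3 g.G / 4 + S4 g.G / 2 - 3 * ((g.pairs : ℝ) - g.sat l) ≤
      (∑ s : Trip X, (g.sat (hubLabelling g s.1 s.2.1 s.2.2) : ℝ)) / Fintype.card (Trip X)

/-! ### The structure theorem -/

def S_GREEDY : Prop :=
  ∀ (X : Type) (S : Finset X) (R : X → X → Prop) (ρ : ℝ) (t : ℕ), S.Nonempty →
    (∀ x ∈ S, R x x) → (∀ x y, R x y → R y x) →
    ((((S ×ˢ S).filter fun z => R z.1 z.2).card : ℕ) : ℝ) ≤ ρ * (S.card : ℝ) ^ 2 →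
    4 * ρ * t < 1 →
    ∃ T ⊆ S, T.card = t ∧ ∀ x ∈ T, ∀ y ∈ T, x ≠ y → ¬ R x y

def S_AVOID : Prop :=
  ∀ (X : Type) [Fintype X] (G : SimpleGraph X) (U : Finset X) (D : ℝ) (t : ℕ), 0 ≤ D →
    (∀ x ∈ U, dg G x ≤ D) → (t : ℝ) * (D + 1) < U.card →
    ∃ T ⊆ U, T.card = t ∧ ∀ x ∈ T, ∀ y ∈ T, ¬ G.Adj x y

def S_Z : Prop :=
  ∀ (X : Type) [Fintype X] (G : SimpleGraph X) (κ : ℝ) (t : ℕ) (S : Finset X), 0 ≤ κ →
    κ ≤ 1 / (4 * (3 * t + 2)) → ((big G κ).card : ℝ) ≤ Fintype.card X / 4 →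
    2 * (3 * t + 2) < Fintype.card X → S.card ≤ 2 * t + 2 → (∀ x ∈ S, x ∉ big G κ) →
    ∃ W : Finset X, W.card = t ∧ (∀ u ∈ W, u ∉ S ∧ ∀ x ∈ S, ¬ G.Adj x u) ∧
      ∀ u ∈ W, ∀ v ∈ W, ¬ G.Adj u v

/-- BETA (much weight on large degrees). Write `B = big G κ3`, `n = |X|`, `C = 2 / κ4`,
`E1 = ∑ x ∈ B, d(x) ≥ κ4 P`. If `P = 0` the claim is `0 ≤ S4`. Otherwise `B ≠ ∅`. Call `b` low if
`d(b) ≤ C |B|`. There are at most `P / (C |B|)` vertices that are not low, so the number of pairs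
`(x, b)`, `x ∈ B`, `b ∈ N(x)`, `b` not low, is at most `P / C = κ4 P / 2 ≤ E1 / 2`, so the number
`E2` of pairs `(x, b)`, `x ∈ B`, `b ∈ N(x)` low, is at least `E1 / 2`.
For low `b, b' ∈ N(x)`: `J(b, b') ≥ |N(b) ∩ N(b')| / (d(b) + d(b')) ≥ |N(b) ∩ N(b') ∩ B| / (2 C |B|)`
and `1 / d(x) ≥ 1 / n`. So
`S4 ≥ 1 / (2 C n |B|) * ∑ x ∈ B, ∑ b b' ∈ N(x) low, |N(b) ∩ N(b') ∩ B|`, and the triple sum is
`∑ x x' ∈ B, |N(x) ∩ N(x') ∩ low|^2 ≥ (∑ x x' ∈ B, |N(x) ∩ N(x') ∩ low|)^2 / |B|^2`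
`= (∑ b low, |N(b) ∩ B|^2)^2 / |B|^2 ≥ (E2^2 / n)^2 / |B|^2` (Cauchy and Schwarz twice; `E2` is the sum
of `|N(b) ∩ B|` over the at most `n` low `b`). Hence
`S4 ≥ E2^4 / (2 C n^3 |B|^3) ≥ E1^4 / (32 C n^3 |B|^3)`, and `E1 ≥ κ3 n |B|`, `E1 ≥ κ4 P` give
`S4 ≥ κ3^3 κ4 P / (32 C) = κ3^3 κ4^2 P / 64`. -/
def S_BETA : Prop :=
  ∀ (X : Type) [Fintype X] (G : SimpleGraph X) (κ3 κ4 : ℝ), 0 < κ3 → κ3 ≤ 1 → 0 < κ4 → κ4 ≤ 1 →
    κ4 * P G ≤ ∑ x ∈ big G κ3, dg G x → κ3 ^ 3 * κ4 ^ 2 / 64 * P G ≤ S4 G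

/-- CASE1 (few triangles). Uses `S_GREEDY` and `S_Z` as hypotheses. Put `θ1 = 1 / (32 t)`,
`θ2 = 1 / (64 t)`. For a vertex `b` with `d(b) > 0` put
`r(b) = ∑ y ∈ N(b), |N(b) ∩ N(y)| / d(b)^2` (density of adjacent pairs in `N(b)`),
`s(b) = |N(b) ∩ big| / d(b)`, and for `b ∈ N(x)` put `q(x, b) = |N(x) ∩ N(b)| / d(b)`. Let
`w(x) = [x ∈ big] d(x) + d(x) r(x) + ∑ b ∈ N(x), (r(b) + s(b) + q(x, b) + [b ∈ big])`
`  + (∑ b b' ∈ N(x), J(b, b')) / d(x)`.
Summing over `x` (exchange the sums over adjacent pairs): the seven terms give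
`∑ big d`, `Tri`, `Tri`, `∑ big d`, `Tri`, `∑ big d`, `S4`, in total at most `ρ P` by hypothesis. So
there is `x` with `d(x) > 0` and `w(x) ≤ ρ d(x)`. As `ρ < 1`: `x ∉ big`. Let `Good` be the set of
`b ∈ N(x)` with `r(b) + s(b) + q(x, b) + [b ∈ big] ≤ θ1`. The others are at most
`ρ d(x) / θ1 = 32 t ρ d(x) ≤ d(x) / 2`, so `|Good| ≥ d(x) / 2`. Relation on `N(x)`: `R b b'` iff `b`
and `b'` are adjacent or `J(b, b') > θ2` or `b = b'`. `J(b, b) = 1 > θ2`. The number of pairs with `R`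
in `N(x)` is at most `r(x) d(x)^2 + (ρ / θ2) d(x)^2 ≤ (1 + 64 t) ρ d(x)^2 ≤ 4 (1 + 64 t) ρ |Good|^2`.
As `16 (1 + 64 t) (t + 1) ρ < 1`, `S_GREEDY` gives `t + 1` elements of `Good` with no `R` between
different ones. Let `b*` be one of maximal degree and `Y` the set of the other `t`. Since
`x ∈ N(b) ∩ N(b')`, `1 / (d(b) + d(b')) ≤ J(b, b') ≤ θ2`, so `d(b*) ≥ 32 t`
(`2 d(b*) ≥ d(b) + d(b') ≥ 64 t`). Let `U = N(b*) \ big \ N(x) \ {x} \ ⋃ b ∈ Y, N(b)`. By
`|N(b*) ∩ N(b)| ≤ θ2 (d(b*) + d(b)) ≤ 2 θ2 d(b*)` (`t` of them: at most `d(b*) / 32`),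
`|N(b*) ∩ N(x)| ≤ θ1 d(b*)`, `|N(b*) ∩ big| ≤ θ1 d(b*)` and `1 ≤ d(b*) / 32` one gets
`|U| ≥ d(b*) (1 - 1/32 - 2/32 - 1/32) ≥ d(b*) * 3 / 4`. The number of ordered pairs `(y, y')` in `U`
that are adjacent or equal is at most `r(b*) d(b*)^2 + |U| ≤ θ1 d(b*)^2 + |U|`
`≤ (θ1 16 / 9 + 1 / |U|) |U|^2` with `4 t (16 / (9 * 32 t) + 1 / |U|) ≤ 2/9 + 1/6 < 1` as
`|U| ≥ 24 t`. So `S_GREEDY` gives an independent set `Z ⊆ U` with `t` elements. Take `a = x`,
`b = b*`, `Y`, `Z`, and `W` from `S_Z` for `S = {x, b*} ∪ Y ∪ Z` (no element is big: for `b ∈ Good`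
`[b ∈ big] ≤ θ1 < 1`). Check: `b* ∉ Y`, `x ∉ Z`, `Y ⊆ N(x)`, no `b ∈ Y` is adjacent to `b*`,
`Z ⊆ N(b*) \ N(x)`, no `z ∈ Z` is adjacent to a `b ∈ Y`. -/
def S_CASE1 : Prop :=
  ∀ (X : Type) [Fintype X] (G : SimpleGraph X) (t : ℕ) (ρ κ3 : ℝ), 1 ≤ t → 0 < ρ →
    ρ ≤ 1 / (1100 * ((t : ℝ) + 1) ^ 2) → 0 ≤ κ3 → κ3 ≤ 1 / (4 * (3 * t + 2)) → 0 < P G →
    ((big G κ3).card : ℝ) ≤ Fintype.card X / 4 → 2 * (3 * t + 2) < Fintype.card X →
    3 * (∑ x ∈ big G κ3, dg G x) + 3 * Tri G + S4 G ≤ ρ * P G → DS G t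

/-- NEST. Uses `S_AVOID` and `S_Z` as hypotheses. By symmetry (the conclusion `DS` and the hypotheses
are symmetric in `x`, `x'`) let `d(x') ≤ d(x)`.
`U' = low(x') \ N(x)` has more than `τ |low(x')| ≥ τ lam d(x')` elements; `x ∉ U'` since
`x ∈ low(x')` would give `M d(x) ≤ d(x') ≤ d(x)`. All degrees in `U'` are at most `D' = d(x') / M`,
and `1 ≤ D'`, so `t (D' + 1) ≤ 2 t d(x') / M ≤ τ lam d(x') / 8 < |U'|` and `S_AVOID` gives an
independent `Z ⊆ U'` with `t` elements.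
`U = low(x) \ N(x') \ {x'} \ Z \ ⋃ z ∈ Z, N(z)`: `|low(x) \ N(x')| > τ lam d(x)` and at most
`1 + t (d(x') / M + 1) ≤ 1 + t (d(x) / M + 1)` elements are removed. With `D = d(x) / M ≥ 1`:
`1 + t (D + 1) + t (D + 1) ≤ 5 t D = 5 t d(x) / M ≤ (5/16) τ lam d(x)`, so
`t (D + 1) < |U|` and `S_AVOID` gives an independent `Y ⊆ U` with `t` elements. No element of `Y` is
adjacent to an element of `Z`. Take `a = x`, `b = x'`, and `W` from `S_Z` for
`S = {x, x'} ∪ Y ∪ Z`; the elements of `Y ∪ Z` have degree at most `d(x) / M ≤ d(x)`, so they are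
not big. -/
def S_NEST : Prop :=
  ∀ (X : Type) [Fintype X] (G : SimpleGraph X) (t : ℕ) (κ3 τ lam M : ℝ), 1 ≤ t → 0 ≤ κ3 →
    κ3 ≤ 1 / (4 * (3 * t + 2)) → ((big G κ3).card : ℝ) ≤ Fintype.card X / 4 →
    2 * (3 * t + 2) < Fintype.card X → 0 < τ → τ ≤ 1 → 0 < lam → lam ≤ 1 →
    16 * t ≤ M * τ * lam → 1 ≤ M →
    ∀ x x', G.Adj x x' → x ∉ big G κ3 → x' ∉ big G κ3 →
      lam * dg G x ≤ (low G M x).card → lam * dg G x' ≤ (low G M x').card →
      M ≤ dg G x → M ≤ dg G x' →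
      τ * (low G M x).card < ((low G M x \ nbr G x').card : ℝ) →
      τ * (low G M x').card < ((low G M x' \ nbr G x).card : ℝ) → DS G t

/-- CASE2 (many triangles). `Tri` is the sum over all `b` and `x, x' ∈ N(b)` with `x` adjacent to
`x'` of the weight `1 / d(b)`. Remove the triples `(b; x, x')` with
(i) `d(x) < M d(b)` or `d(x') < M d(b)`: for the first, `|N(b) ∩ N(x)| / d(b) ≤ (M + 1) J(b, x)` as
`|N(b) ∪ N(x)| ≤ (M + 1) d(b)`; so the weight is at most `2 (M + 1) S3 ≤ κ P / 4`.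
(ii) `x` or `x'` in `big`: weight at most `2 ∑ b, |N(b) ∩ big| = 2 ∑ x ∈ big, d(x) ≤ κ P / 8`
(for fixed `b` and `x` there are at most `d(b)` choices for `x'`).
(iii) `b ∈ low(x)` and `|low(x)| < (κ/16) d(x)`, or the same for `x'`: weight at most
`2 ∑ x, |low(x)| [|low(x)| < κ d(x) / 16] ≤ κ P / 8`.
The remaining triples have weight at least `κ P / 2`, and `b ∈ low(x) ∩ low(x')`, so
`d(x), d(x') ≥ M d(b) ≥ M`. By hypothesis `x' ∈ A(x)` or `x ∈ A(x')`, where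
`A(x) = {x' ∈ N(x) : |low(x) \ N(x')| ≤ κ/64 |low(x)|}`. By symmetry
`∑ x, ∑ b ∈ low(x), |N(b) ∩ A(x)| / d(b) ≥ κ P / 4`. Let `E(x)` be the set of `b ∈ low(x)` with
`|N(b) ∩ A(x)| ≥ (κ/8) d(b)`. The other `b` contribute at most `(κ/8) ∑ x, |low(x)| ≤ κ P / 8`, and
each term is at most `1`, so `∑ x, |E(x)| ≥ κ P / 8`. Let `F(x)` be the set of `b ∈ low(x)` with
`|A(x) \ N(b)| > |A(x)| / 4`. By `∑ b ∈ low(x), |A(x) \ N(b)| = ∑ x' ∈ A(x), |low(x) \ N(x')|`
`≤ (κ/64) |low(x)| |A(x)|` we have `|F(x)| ≤ (κ/16) |low(x)|`. So `E'(x) = E(x) \ F(x)` has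
`∑ x, |E'(x)| ≥ κ P / 8 - κ P / 16 = κ P / 16`. For `b, b' ∈ E'(x)`:
`|N(b) ∩ N(b')| ≥ |A(x)| / 2` and `d(b), d(b') ≤ (8/κ) |A(x)|`, so
`J(b, b') ≥ κ / 32`. Hence `S4 ≥ (κ/32) ∑ x, |E'(x)|^2 / d(x) ≥ (κ/32) (∑ x, |E'(x)|)^2 / P`
`≥ (κ/32) (κ/16)^2 P = κ^3 P / 8192` (Cauchy and Schwarz, `inner_mul_le_norm_mul_norm` or
`Finset.sum_div_sq_le`-like lemmas such as `div_add_div_same`, `Finset.sum_sq_le_sum_mul_sum_of_sq_eq_mul`). -/
def S_CASE2 : Prop :=
  ∀ (X : Type) [Fintype X] (G : SimpleGraph X) (κ κ3 M : ℝ), 0 < κ → κ ≤ 1 → 1 ≤ M →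
    κ * P G ≤ Tri G → ∑ x ∈ big G κ3, dg G x ≤ κ / 16 * P G →
    2 * (M + 1) * S3 G ≤ κ / 4 * P G →
    (∀ x x', G.Adj x x' → x ∉ big G κ3 → x' ∉ big G κ3 →
      κ / 16 * dg G x ≤ (low G M x).card → κ / 16 * dg G x' ≤ (low G M x').card →
      M ≤ dg G x → M ≤ dg G x' →
      ((low G M x \ nbr G x').card : ℝ) ≤ κ / 64 * (low G M x).card ∨
      ((low G M x' \ nbr G x).card : ℝ) ≤ κ / 64 * (low G M x').card) →
    κ ^ 3 / 8192 * P G ≤ S4 G

/-- STRUCT: from the parts above. -/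
def S_STRUCT : Prop :=
  ∀ t : ℕ, 1 ≤ t → ∃ c : ℝ, 0 < c ∧ ∀ (X : Type) [Fintype X] (G : SimpleGraph X), ¬ DS G t →
    c * P G ≤ S3 G + S4 G

/-! ### Embedding -/

/-- EMB. Let `K` be the clique and `I` the independent set of a split partition of `H`. As `H` is
bipartite, `K` has at most two elements (three vertices of `K` would be a triangle) and no vertex of
`I` is adjacent to two different vertices of `K`. If `K = {u, v}`: map `u, v` to `a, b`, the vertices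
of `I` adjacent to `u` into `Y`, those adjacent to `v` into `Z`, the others into `W`, injectively. If
`K = {u}`: `u` to `a`, the neighbours of `u` into `Y`, the others into `W`. If `K = ∅`: everything
into `W`. The sets `Y`, `Z`, `W` are pairwise disjoint and do not contain `a`, `b`. (A uniform way:
fix `u v : Option W` or extend: choose `f : W → X` with `f w = a` if `w = u`, `b` if `w = v`, and
otherwise `f w = y (e w)`, `z (e w)` or `w (e w)` where `e : W ≃ Fin |W|` and `y, z, w : Fin |W| → X`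
are injections into `Y`, `Z`, `W`.) -/
def S_EMB : Prop :=
  ∀ (W : Type) [Fintype W] (H : SimpleGraph W), Bip H → Split H →
    ∀ (X : Type) [Fintype X] (G : SimpleGraph X), DS G (Fintype.card W) → Nonempty (H ↪g G)

/-! ### The reductions -/

/-- FREE. `ext g C K` for false `C` is a bipartite graph (parts: second component `none` or not), and
an induced subgraph of a bipartite graph is bipartite (pull back the set along the embedding). For
true `C` it is a split graph with the clique of the vertices `(x, none)`, and an induced subgraph of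
a split graph is split. Here `C = Bip H`. -/
def S_FREE : Prop :=
  ∀ (W : Type) (H : SimpleGraph W), ¬ (Bip H ∧ Split H) →
    ∀ (X Q : Type) (g : Game X Q) (K : ℕ), IsEmpty (H ↪g (ext g (Bip H) K).G)

/-- RED. Let `n = |X|`, `p = g.pairs ≥ 1`. (1) `2 K p ≤ (ext g C K).pairs ≤ 2 K p + n^2`: the ordered
pairs `((x, some k), (y, none))` and `((x, none), (y, some k))` with `x`, `y` adjacent, and at most
`n^2` ordered pairs of vertices `(x, none)`.
(2) For `l : X → Q` the labelling `m u = l u.1` satisfies at least `2 K g.sat l` ordered pairs.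
(3) For `l0 l1 : X → Q` let `D(l0, l1)` be the number of ordered pairs `(x, y)` of adjacent vertices
with `p x y (l0 x) = l1 y`. If `g.sat l ≤ s` for all `l` then `D(l0, l1) ≤ 2 s`: for
`r : X → Bool` let `l_r x = l1 x` if `r x`, `l0 x` otherwise; then
`g.sat l_r ≥ #{(x, y) : D-pair, r x = false, r y = true} + #{(x, y) : p x y (l1 x) = l0 y, r x = true,`
`r y = false}`, the two sets are disjoint and in bijection (swap), and for `x ≠ y` the event
`r x = false, r y = true` has probability `1/4`. So the average of `g.sat l_r` over `r` is at least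
`D(l0, l1) / 2`.
(4) For a labelling `m` of the new game, with `l1 x = m (x, none)` and `l0^k x = m (x, some k)`:
`(ext g C K).sat m ≤ n^2 + 2 ∑ k, D(l0^k, l1) ≤ n^2 + 4 K s`.
(5) `n^2 ≤ K / N`, so `n^2 ≤ 2 K p / N ≤ pairs / N`. -/
def S_RED : Prop :=
  ∀ (X Q : Type) [Fintype X] (g : Game X Q) (C : Prop) (N K : ℕ), 0 < N →
    N * Fintype.card X ^ 2 ≤ K → 0 < g.pairs →
    0 < (ext g C K).pairs ∧
    (∀ (ε : ℝ) (l : X → Q), (1 - ε) * g.pairs ≤ g.sat l →
      (1 - ε - 1 / N) * (ext g C K).pairs ≤ ((ext g C K).sat fun u => l u.1)) ∧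
    ∀ δ : ℝ, (∀ l : X → Q, (g.sat l : ℝ) ≤ δ * g.pairs) →
      ∀ m : X × Option (Fin K) → Q,
        ((ext g C K).sat m : ℝ) ≤ (2 * δ + 1 / N) * (ext g C K).pairs

end Pool.Agent.H698.HF
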