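import Pool.Agent.H698.HF.Core
import Pool.Graph.R_seed8.W906.MU.Final
import Pool.Graph.R_seed8.W906.MU.Perfect

set_option autoImplicit false

/-! # Unique games and circuits that compute with partial information (helper698) -/

open scoped Classical
open Finset

namespace Pool.Agent.H698.HF

open Pool.Agent.W906.MU (Con Game Sat NoI YesI inputs Separates Prog Mono2)

/-- the randomised circuit `l` (a uniformly random member `l ω` of a finite family, with the output
gate `out ω` and the upper set `acc ω` of values that mean alarm) solves the gap problem: it raises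
the alarm if the constraints of a game `I` with `NoI m δ I` are known to be present and nothing is
known about the other constraints, and it does not raise the alarm on the completely known games
with `YesI m ε I`, each with probability at least `2/3` -/
def SolvesUG {N q : ℕ} {D : Type} [PartialOrder D] (m : ℕ) (δ ε : ℝ) {Ω : Type} [Fintype Ω]
    (l : Ω → List (Know (Con N q) → D)) : Prop :=
  ∃ (out : Ω → Know (Con N q) → D) (acc : Ω → Set D), (∀ ω, out ω ∈ l ω) ∧
    (∀ ω, IsUpperSet (acc ω)) ∧
    (∀ I : Game N q, NoI m δ I → 2 * Fintype.card Ω ≤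
      3 * (univ.filter fun ω => out ω (truths fun e => e ∈ I) ∈ acc ω).card) ∧
    ∀ I : Game N q, YesI m ε I → 2 * Fintype.card Ω ≤
      3 * (univ.filter fun ω => out ω (full fun e => e ∈ I) ∉ acc ω).card

theorem lowerUG {N q m : ℕ} {δ ε s : ℝ} {D : Type} [PartialOrder D] (hD : TreeLike D)
    (h : ∀ (Ω : Type) [Fintype Ω] [Nonempty Ω] (l : Ω → List (Game N q → ℝ)),
        (∀ ω, Prog (inputs N q) (l ω)) → Separates m δ ε l → ∃ ω, s ≤ (l ω).length)
    {Ω : Type} [Fintype Ω] [Nonempty Ω] (l : Ω → List (Know (Con N q) → D))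
    (hl : ∀ ω, Circ (l ω)) (hs : SolvesUG m δ ε l) : ∃ ω, s ≤ (l ω).length + 1 := by
  obtain ⟨out, acc, h1, h2, h3, h4⟩ := hs
  have hsim := fun ω => simulate_out hD (fun (I : Game N q) e => e ∈ I)
    (fun l' => Prog (inputs N q) l') Prog.nil
    (fun l' e hl' => Prog.input hl' (Or.inl ⟨e, by
      funext x; by_cases h : e ∈ x <;> simp [h]⟩))
    (fun l' c hl' => Prog.input hl' (Or.inr ⟨c, rfl⟩))
    (fun l' Φ F G hl' hΦ hF hG => Prog.gate hl' hΦ hF hG) (hl ω) (acc ω) (h2 ω) (h1 ω)
  choose l' g1 g2 F g3 g4 using hsim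
  have hsep : Separates m δ ε l' := by
    refine ⟨F, fun _ => 1, g3, fun I hI => ?_, fun I hI => ?_⟩
    · refine (h3 I hI).trans (Nat.mul_le_mul_left _ (card_le_card fun ω hω => ?_))
      rw [mem_filter] at hω ⊢
      exact ⟨hω.1, (g4 ω I).1 hω.2⟩
    · refine (h4 I hI).trans (Nat.mul_le_mul_left _ (card_le_card fun ω hω => ?_))
      rw [mem_filter] at hω ⊢
      refine ⟨hω.1, ?_⟩
      by_contra hcon
      push Not at hcon
      exact hω.2 (h2 ω ((hl ω).mono _ (h1 ω) _ _ (truths_le_full _)) ((g4 ω I).2 hcon))
  obtain ⟨ω, hω⟩ := h Ω l' g1 hsep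
  refine ⟨ω, ?_⟩
  rw [g2] at hω
  push_cast at hω
  exact hω

/-- monotone real circuits as circuits with partial information -/
theorem circ_of_prog {N q : ℕ} {l : List (Game N q → ℝ)} (hl : Prog (inputs N q) l) :
    Circ (l.map fun f (P : Know (Con N q)) => f (univ.filter fun e => P e = some true)) := by
  induction hl with
  | nil => exact Circ.nil
  | @input l f _ hf ih =>
    rcases hf with ⟨e, rfl⟩ | ⟨c, rfl⟩
    · have h := Circ.input (D := ℝ) e (fun o => if o = some true then 1 else 0) ih (by
        intro b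
        cases b <;> simp)
      simpa using h
    · exact Circ.const c ih
  | @gate l φ f g _ hφ hf hg ih =>
    exact Circ.gate ih hφ (List.mem_map_of_mem hf) (List.mem_map_of_mem hg)

theorem upperUG {N q m : ℕ} {δ : ℝ} {l : List (Game N q → ℝ)} (hl : Prog (inputs N q) l)
    (hs : Separates m δ 0 (fun _ : Unit => l)) :
    ∃ l' : List (Know (Con N q) → ℝ), Circ l' ∧ l'.length = l.length ∧
      SolvesUG m δ 0 (fun _ : Unit => l') := by
  obtain ⟨out, τ, h1, h2, h3⟩ := hs
  refine ⟨_, circ_of_prog hl, List.length_map .., fun ω P =>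
    out ω (univ.filter fun e => P e = some true), fun ω => {x | τ ω ≤ x},
    fun ω => List.mem_map_of_mem (h1 ω), fun ω x y hxy hx => le_trans hx hxy, fun I hI => ?_,
    fun I hI => ?_⟩
  · have e : (univ.filter fun e : Con N q => truths (fun e => e ∈ I) e = some true) = I := by
      ext e
      unfold truths
      by_cases h : e ∈ I <;> simp [h]
    simp only [e]
    exact h2 I hI
  · have e : (univ.filter fun e : Con N q => full (fun e => e ∈ I) e = some true) = I := by
      ext e
      unfold full
      by_cases h : e ∈ I <;> simp [h]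
    simp only [e, Set.mem_ofPred_eq, not_le]
    exact h3 I hI

end Pool.Agent.H698.HF
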